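import Mathlib

/-!
# Isolated points of subsemilattices

Let `T` be a subset of a product of `m` finite semilattices with at most `q` elements each, closed
under meets. If `m (q - 1) ≤ K r` then all but a fixed proportion of the points of `T` have another
point of `T` at Hamming distance less than `r`.
-/

set_option autoImplicit false

namespace Pool.Agent.W5h1.SL

open Finset

variable {m : ℕ} {α : Fin m → Type*} [∀ i, SemilatticeInf (α i)] [∀ i, Fintype (α i)]
  [∀ i, DecidableEq (α i)]

open Classical in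
/-- the rank of a point -/
noncomputable def rk (x : ∀ i, α i) : ℕ := ∑ i, (univ.filter (fun b : α i => b < x i)).card

open Classical in
lemma rk_add {x y : ∀ i, α i} (h : ∀ i, x i ≤ y i) : rk x + hammingDist x y ≤ rk y := by
  have h1 : hammingDist x y = ∑ i, (if x i ≠ y i then 1 else 0) := by
    rw [hammingDist, Finset.card_filter]
  rw [h1, rk, rk, ← Finset.sum_add_distrib]
  apply Finset.sum_le_sum
  intro i _
  by_cases hi : x i ≠ y i
  · rw [if_pos hi]
    have hlt : x i < y i := lt_of_le_of_ne (h i) hi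
    have : insert (x i) (univ.filter (fun b : α i => b < x i)) ⊆
        univ.filter (fun b : α i => b < y i) := by
      intro b hb
      rcases Finset.mem_insert.1 hb with rfl | hb
      · exact Finset.mem_filter.2 ⟨Finset.mem_univ _, hlt⟩
      · exact Finset.mem_filter.2 ⟨Finset.mem_univ _, lt_trans (Finset.mem_filter.1 hb).2 hlt⟩
    have h2 := Finset.card_le_card this
    rwa [Finset.card_insert_of_notMem (by simp)] at h2
  · rw [if_neg hi, add_zero]
    push Not at hi
    rw [hi]

open Classical in
lemma rk_le {q : ℕ} (hq : ∀ i, Fintype.card (α i) ≤ q) (x : ∀ i, α i) : rk x ≤ m * (q - 1) := by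
  calc rk x ≤ ∑ _i : Fin m, (q - 1) := by
        apply Finset.sum_le_sum
        intro i _
        have : univ.filter (fun b : α i => b < x i) ⊆ univ.erase (x i) := by
          intro b hb
          exact Finset.mem_erase.2 ⟨ne_of_lt (Finset.mem_filter.1 hb).2, Finset.mem_univ _⟩
        refine (Finset.card_le_card this).trans ?_
        rw [Finset.card_erase_of_mem (Finset.mem_univ _), Finset.card_univ]
        exact Nat.sub_le_sub_right (hq i) 1
    _ = m * (q - 1) := by simp

/-- `z` is a lower cover of `x` in `T`. -/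
def Cov (T : Finset (∀ i, α i)) (x z : ∀ i, α i) : Prop :=
  z ∈ T ∧ (∀ i, z i ≤ x i) ∧ z ≠ x ∧ ∀ y ∈ T, (∀ i, z i ≤ y i) → (∀ i, y i ≤ x i) → y = z ∨ y = x

lemma exists_cov {T : Finset (∀ i, α i)} {x : ∀ i, α i}
    (h : ∃ y ∈ T, (∀ i, y i ≤ x i) ∧ y ≠ x) : ∃ z, Cov T x z := by
  classical
  have hne : (T.filter (fun y => (∀ i, y i ≤ x i) ∧ y ≠ x)).Nonempty := by
    obtain ⟨y, hy, h1⟩ := h
    exact ⟨y, Finset.mem_filter.2 ⟨hy, h1⟩⟩
  obtain ⟨z, hz, hmax⟩ := Finset.exists_max_image _ rk hne
  obtain ⟨hzT, hzx, hne'⟩ := Finset.mem_filter.1 hz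
  refine ⟨z, hzT, hzx, hne', ?_⟩
  intro y hy h1 h2
  by_contra hcon
  push Not at hcon
  have h3 := hmax y (Finset.mem_filter.2 ⟨hy, h2, hcon.2⟩)
  have h4 := rk_add h1
  have h5 : hammingDist z y = 0 := by omega
  exact hcon.1 (hammingDist_eq_zero.1 h5).symm

open Classical in
/-- few covers -/
lemma fiber {q K r : ℕ} (hr : 1 ≤ r) (hq : ∀ i, Fintype.card (α i) ≤ q)
    (hK : m * (q - 1) ≤ K * r) {T : Finset (∀ i, α i)}
    (hT : ∀ x ∈ T, ∀ y ∈ T, (fun i => x i ⊓ y i) ∈ T) (z : ∀ i, α i)
    (F : Finset (∀ i, α i)) (hF : ∀ x ∈ F, x ∈ T ∧ Cov T x z ∧ r ≤ hammingDist x z) :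
    F.card ≤ K := by
  have hinj : ∀ i, Set.InjOn (fun x : ∀ i, α i => x i)
      ((F.filter (fun x => x i ≠ z i) : Finset (∀ i, α i)) : Set (∀ i, α i)) := by
    intro i x hx x' hx' hxx
    have hxx' : x i = x' i := hxx
    obtain ⟨hxF, hxi⟩ := Finset.mem_filter.1 (Finset.mem_coe.1 hx)
    obtain ⟨hxF', hxi'⟩ := Finset.mem_filter.1 (Finset.mem_coe.1 hx')
    obtain ⟨hxT, hc, _⟩ := hF x hxF
    obtain ⟨hxT', hc', _⟩ := hF x' hxF'
    by_contra hne
    set w : ∀ i, α i := fun i => x i ⊓ x' i with hw
    have hwT : w ∈ T := hT x hxT x' hxT'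
    have hzw : ∀ i, z i ≤ w i := fun i => le_inf (hc.2.1 i) (hc'.2.1 i)
    have hwi : w i ≠ z i := by
      simp only [hw]
      rw [hxx', inf_idem]
      exact hxi'
    have h1 : w = x := by
      rcases hc.2.2.2 w hwT hzw (fun i => inf_le_left) with h | h
      · exact absurd (congrFun h i) hwi
      · exact h
    have h2 : w = x' := by
      rcases hc'.2.2.2 w hwT hzw (fun i => inf_le_right) with h | h
      · exact absurd (congrFun h i) hwi
      · exact h
    exact hne (h1.symm.trans h2)
  have hcard : ∀ i, (F.filter (fun x => x i ≠ z i)).card ≤ q - 1 := by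
    intro i
    have h1 : ((F.filter (fun x => x i ≠ z i)).image (fun x : ∀ i, α i => x i)) ⊆
        univ.erase (z i) := by
      intro b hb
      obtain ⟨x, hx, rfl⟩ := Finset.mem_image.1 hb
      exact Finset.mem_erase.2 ⟨(Finset.mem_filter.1 hx).2, Finset.mem_univ _⟩
    have h2 := Finset.card_le_card h1
    rw [Finset.card_image_of_injOn (hinj i), Finset.card_erase_of_mem (Finset.mem_univ _),
      Finset.card_univ] at h2
    exact h2.trans (Nat.sub_le_sub_right (hq i) 1)
  have hsum : ∑ x ∈ F, hammingDist x z ≤ m * (q - 1) := by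
    have h1 : ∑ x ∈ F, hammingDist x z = ∑ i, (F.filter (fun x => x i ≠ z i)).card := by
      simp only [hammingDist, Finset.card_filter]
      rw [Finset.sum_comm]
    rw [h1]
    calc ∑ i, (F.filter (fun x => x i ≠ z i)).card ≤ ∑ _i : Fin m, (q - 1) :=
          Finset.sum_le_sum fun i _ => hcard i
      _ = m * (q - 1) := by simp
  have h2 : F.card * r ≤ ∑ x ∈ F, hammingDist x z := by
    rw [← smul_eq_mul]
    exact Finset.card_nsmul_le_sum _ _ _ fun x hx => (hF x hx).2.2
  exact Nat.le_of_mul_le_mul_right (h2.trans (hsum.trans hK)) hr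

open Classical in
/-- **Isolated points of a subsemilattice.** -/
theorem key {q K r : ℕ} (hr : 1 ≤ r) (hK1 : 1 ≤ K) (hq : ∀ i, Fintype.card (α i) ≤ q)
    (hK : m * (q - 1) ≤ K * r) (T : Finset (∀ i, α i))
    (hT : ∀ x ∈ T, ∀ y ∈ T, (fun i => x i ⊓ y i) ∈ T) :
    T.card ≤ (K + 1) ^ (K + 1) *
      ((T.filter (fun x => ∃ y ∈ T, y ≠ x ∧ hammingDist x y < r)).card + 1) := by
  set J := T.filter (fun x => ∃ y ∈ T, y ≠ x ∧ hammingDist x y < r) with hJ
  set I := T.filter (fun x => ¬ ∃ y ∈ T, y ≠ x ∧ hammingDist x y < r) with hI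
  have hIJ : T.card = J.card + I.card := (Finset.card_filter_add_card_filter_not _).symm
  set p : (∀ i, α i) → (∀ i, α i) := fun x => if h : ∃ z, Cov T x z then h.choose else x with hp
  have hpc : ∀ x, (∃ z, Cov T x z) → Cov T x (p x) := by
    intro x h
    simp only [hp, dif_pos h]
    exact h.choose_spec
  have hfar : ∀ x ∈ I, ∀ z, Cov T x z → r ≤ hammingDist x z := by
    intro x hx z hz
    by_contra hcon
    push Not at hcon
    exact (Finset.mem_filter.1 hx).2 ⟨z, hz.1, hz.2.2.1, hcon⟩
  have hstep : ∀ j, (I.filter (fun x => rk x < (j + 1) * r)).card ≤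
      1 + K * (J.card + (I.filter (fun x => rk x < j * r)).card) := by
    intro j
    set E := I.filter (fun x => rk x < (j + 1) * r) with hE
    have hsplit : E = E.filter (fun x => ∃ z, Cov T x z) ∪ E.filter (fun x => ¬ ∃ z, Cov T x z) :=
      (Finset.filter_union_filter_not_eq _ _).symm
    have hmin : (E.filter (fun x => ¬ ∃ z, Cov T x z)).card ≤ 1 := by
      rw [Finset.card_le_one]
      intro x hx y hy
      obtain ⟨hxE, hxn⟩ := Finset.mem_filter.1 hx
      obtain ⟨hyE, hyn⟩ := Finset.mem_filter.1 hy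
      have hxT : x ∈ T := (Finset.mem_filter.1 (Finset.mem_filter.1 hxE).1).1
      have hyT : y ∈ T := (Finset.mem_filter.1 (Finset.mem_filter.1 hyE).1).1
      have hw := hT x hxT y hyT
      have h1 : (fun i => x i ⊓ y i) = x := by
        by_contra hne
        exact hxn (exists_cov ⟨_, hw, fun i => inf_le_left, hne⟩)
      have h2 : (fun i => x i ⊓ y i) = y := by
        by_contra hne
        exact hyn (exists_cov ⟨_, hw, fun i => inf_le_right, hne⟩)
      exact h1.symm.trans h2
    have hcov : (E.filter (fun x => ∃ z, Cov T x z)).card ≤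
        K * (J.card + (I.filter (fun x => rk x < j * r)).card) := by
      set E' := E.filter (fun x => ∃ z, Cov T x z) with hE'
      have h1 : E'.card ≤ K * (E'.image p).card := by
        refine Finset.card_le_mul_card_image (f := p) E' K ?_
        intro z _
        refine fiber hr hq hK hT z _ ?_
        intro x hx
        obtain ⟨hxE', hxz⟩ := Finset.mem_filter.1 hx
        obtain ⟨hxE, hxc⟩ := Finset.mem_filter.1 hxE'
        have hxI := (Finset.mem_filter.1 hxE).1
        have hc := hpc x hxc
        rw [hxz] at hc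
        exact ⟨(Finset.mem_filter.1 hxI).1, hc, hfar x hxI z hc⟩
      have h2 : E'.image p ⊆ J ∪ I.filter (fun x => rk x < j * r) := by
        intro z hz
        obtain ⟨x, hx, rfl⟩ := Finset.mem_image.1 hz
        obtain ⟨hxE, hxc⟩ := Finset.mem_filter.1 hx
        obtain ⟨hxI, hxr⟩ := Finset.mem_filter.1 hxE
        have hc := hpc x hxc
        by_cases hzJ : ∃ y ∈ T, y ≠ p x ∧ hammingDist (p x) y < r
        · exact Finset.mem_union_left _ (Finset.mem_filter.2 ⟨hc.1, hzJ⟩)
        · refine Finset.mem_union_right _ (Finset.mem_filter.2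
            ⟨Finset.mem_filter.2 ⟨hc.1, hzJ⟩, ?_⟩)
          have h3 := rk_add hc.2.1
          have h4 := hfar x hxI _ hc
          rw [hammingDist_comm] at h4
          have h5 : (j + 1) * r = j * r + r := by ring
          omega
      exact h1.trans (Nat.mul_le_mul_left K ((Finset.card_le_card h2).trans
        (Finset.card_union_le _ _)))
    rw [hsplit]
    refine (Finset.card_union_le _ _).trans ?_
    omega
  have hind : ∀ j, (I.filter (fun x => rk x < j * r)).card + J.card + 1 ≤
      (K + 1) ^ j * (J.card + 1) := by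
    intro j
    induction j with
    | zero => simp
    | succ j ih =>
      have h1 := hstep j
      calc (I.filter (fun x => rk x < (j + 1) * r)).card + J.card + 1
          ≤ (1 + K * (J.card + (I.filter (fun x => rk x < j * r)).card)) + J.card + 1 := by omega
        _ ≤ (K + 1) * ((I.filter (fun x => rk x < j * r)).card + J.card + 1) := by
            nlinarith
        _ ≤ (K + 1) * ((K + 1) ^ j * (J.card + 1)) := Nat.mul_le_mul_left _ ih
        _ = (K + 1) ^ (j + 1) * (J.card + 1) := by ring
  have hlast : I.filter (fun x => rk x < (K + 1) * r) = I := by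
    apply Finset.filter_true_of_mem
    intro x _
    have h1 := rk_le hq x
    have h5 : (K + 1) * r = K * r + r := by ring
    omega
  have h6 := hind (K + 1)
  rw [hlast] at h6
  omega

end Pool.Agent.W5h1.SL
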