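import Mathlib
import Pool.Agent.W5h1.SL.Key

/-!
# Cubes in subsemilattices of powers
-/

set_option autoImplicit false

namespace Pool.Agent.W5h1.SL

open Finset

variable {m : ℕ} {A : Type*}

/-- change the values of `y` as prescribed by `w` -/
def app (w : Fin m → Option A) (y : Fin m → A) : Fin m → A := fun i => (w i).getD (y i)

/-- the positions changed by `w` -/
def dom (w : Fin m → Option A) : Finset (Fin m) := univ.filter (fun i => (w i).isSome = true)

/-- the positions changed by the members of a list -/
def doms : List (Fin m → Option A) → Finset (Fin m)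
  | [] => ∅
  | w :: ws => dom w ∪ doms ws

/-- the points for which all changes according to the list lead to points of `T` -/
def Cub (T : Set (Fin m → A)) : List (Fin m → Option A) → Set (Fin m → A)
  | [] => T
  | w :: ws => {y | y ∈ Cub T ws ∧ app w y ∈ Cub T ws ∧ (∀ i ∈ dom w, w i ≠ some (y i)) ∧
      (dom w).Nonempty ∧ Disjoint (dom w) (doms ws)}

lemma mem_dom {w : Fin m → Option A} {i : Fin m} : i ∈ dom w ↔ (w i).isSome = true := by
  simp [dom]

lemma app_notMem {w : Fin m → Option A} {y : Fin m → A} {i : Fin m} (h : i ∉ dom w) :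
    app w y i = y i := by
  rw [mem_dom] at h
  unfold app
  cases hw : w i with
  | none => rfl
  | some a => rw [hw] at h; simp at h

lemma app_mem {w : Fin m → Option A} {y : Fin m → A} {i : Fin m} (h : i ∈ dom w) :
    some (app w y i) = w i := by
  rw [mem_dom] at h
  unfold app
  cases hw : w i with
  | none => rw [hw] at h; simp at h
  | some a => rfl

/-- closed under an operation in each coordinate -/
def Clo (f : Fin m → A → A → A) (T : Set (Fin m → A)) : Prop :=
  ∀ x ∈ T, ∀ y ∈ T, (fun i => f i (x i) (y i)) ∈ T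

lemma clo_piece {f : Fin m → A → A → A} (hf : ∀ i a, f i a a = a) {T : Set (Fin m → A)}
    (hT : Clo f T) : ∀ (ws : List (Fin m → Option A)) (p : Fin m → A),
    Clo f {y | y ∈ Cub T ws ∧ ∀ i ∈ doms ws, y i = p i}
  | [], p => by
      intro x hx y hy
      exact ⟨hT x hx.1 y hy.1, fun i hi => by simp [doms] at hi⟩
  | w :: ws, p => by
      intro x hx y hy
      have ih := clo_piece hf hT ws p
      obtain ⟨⟨hx1, hx2, hx3, hx4, hx5⟩, hx6⟩ := hx
      obtain ⟨⟨hy1, hy2, hy3, hy4, hy5⟩, hy6⟩ := hy
      have hp : ∀ i ∈ doms ws, i ∉ dom w := fun i hi hi' => Finset.disjoint_left.1 hx5 hi' hi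
      have hmem : ∀ i ∈ doms ws, i ∈ doms (w :: ws) := fun i hi => Finset.mem_union_right _ hi
      have h1 := ih x ⟨hx1, fun i hi => hx6 i (hmem i hi)⟩ y ⟨hy1, fun i hi => hy6 i (hmem i hi)⟩
      have h2 := ih (app w x) ⟨hx2, fun i hi => by
        rw [app_notMem (hp i hi)]; exact hx6 i (hmem i hi)⟩ (app w y) ⟨hy2, fun i hi => by
        rw [app_notMem (hp i hi)]; exact hy6 i (hmem i hi)⟩
      have h3 : (fun i => f i (app w x i) (app w y i)) = app w (fun i => f i (x i) (y i)) := by
        funext i
        by_cases hi : i ∈ dom w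
        · have e1 := app_mem (y := x) hi
          have e2 := app_mem (y := y) hi
          have e3 := app_mem (y := fun i => f i (x i) (y i)) hi
          have e4 : app w x i = app w y i := Option.some_injective _ (e1.trans e2.symm)
          have e5 : app w (fun i => f i (x i) (y i)) i = app w y i :=
            Option.some_injective _ (e3.trans e2.symm)
          rw [e5, e4, hf]
        · rw [app_notMem hi, app_notMem hi, app_notMem hi]
      rw [h3] at h2
      refine ⟨⟨h1.1, h2.1, ?_, hx4, hx5⟩, ?_⟩
      · intro i hi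
        have e1 := hx6 i (Finset.mem_union_left _ hi)
        have e2 := hy6 i (Finset.mem_union_left _ hi)
        have e3 := hx3 i hi
        rw [e1] at e3
        show w i ≠ some (f i (x i) (y i))
        rw [e1, e2, hf]
        exact e3
      · intro i hi
        have e1 := hx6 i hi
        have e2 := hy6 i hi
        show f i (x i) (y i) = p i
        rw [e1, e2, hf]

open Classical in
/-- the vertices of a cube -/
noncomputable def pts : List (Fin m → Option A) → (Fin m → A) → Finset (Fin m → A)
  | [], y => {y}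
  | w :: ws, y => pts ws y ∪ pts ws (app w y)

open Classical in
lemma pts_mem {T : Set (Fin m → A)} : ∀ (ws : List (Fin m → Option A)) (y : Fin m → A),
    y ∈ Cub T ws → ∀ z ∈ pts ws y, z ∈ T
  | [], y, h, z, hz => by
      rw [pts, Finset.mem_singleton] at hz
      rw [hz]; exact h
  | w :: ws, y, h, z, hz => by
      rw [pts, Finset.mem_union] at hz
      rcases hz with hz | hz
      · exact pts_mem ws y h.1 z hz
      · exact pts_mem ws (app w y) h.2.1 z hz

open Classical in
lemma pts_eq : ∀ (ws : List (Fin m → Option A)) (y : Fin m → A), ∀ z ∈ pts ws y, ∀ i ∉ doms ws,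
    z i = y i
  | [], y, z, hz, i, _ => by
      rw [pts, Finset.mem_singleton] at hz
      rw [hz]
  | w :: ws, y, z, hz, i, hi => by
      rw [doms, Finset.mem_union, not_or] at hi
      rw [pts, Finset.mem_union] at hz
      rcases hz with hz | hz
      · exact pts_eq ws y z hz i hi.2
      · rw [pts_eq ws (app w y) z hz i hi.2, app_notMem hi.1]

open Classical in
lemma pts_card {T : Set (Fin m → A)} : ∀ (ws : List (Fin m → Option A)) (y : Fin m → A),
    y ∈ Cub T ws → (pts ws y).card = 2 ^ ws.length
  | [], y, _ => by rw [pts]; simp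
  | w :: ws, y, h => by
      obtain ⟨h1, h2, h3, ⟨i, hi⟩, h5⟩ := h
      rw [pts, Finset.card_union_of_disjoint, pts_card ws y h1, pts_card ws _ h2, List.length_cons,
        pow_succ]
      · ring
      · rw [Finset.disjoint_left]
        intro z hz hz'
        have hid : i ∉ doms ws := Finset.disjoint_left.1 h5 hi
        have e1 := pts_eq ws y z hz i hid
        have e2 := pts_eq ws _ z hz' i hid
        have e3 := app_mem (y := y) hi
        apply h3 i hi
        rw [← e3, ← e2, e1]

variable [Fintype A] [DecidableEq A]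

/-- the changes of at most `b` positions -/
def Small (m : ℕ) (A : Type*) [Fintype A] [DecidableEq A] (b : ℕ) : Finset (Fin m → Option A) :=
  univ.filter (fun w => (dom w).card ≤ b)

lemma card_Small (b : ℕ) : (Small m A b).card ≤ (1 + m * Fintype.card A) ^ b := by
  classical
  have : Small m A b ⊆ (univ : Finset (Fin b → Option (Fin m × A))).image
      (fun g i => if h : ∃ a, ∃ j, g j = some (i, a) then some h.choose else none) := by
    intro w hw
    have hwc : (dom w).card ≤ b := (Finset.mem_filter.1 hw).2
    refine Finset.mem_image.2 ⟨fun j => if h : j.1 < (dom w).card then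
      some (((dom w).equivFin.symm ⟨j.1, h⟩ : Fin m),
        (w ((dom w).equivFin.symm ⟨j.1, h⟩ : Fin m)).get
          (mem_dom.1 ((dom w).equivFin.symm ⟨j.1, h⟩).2)) else none, Finset.mem_univ _, ?_⟩
    funext i
    by_cases hi : i ∈ dom w
    · obtain ⟨a, ha⟩ := Option.isSome_iff_exists.1 (mem_dom.1 hi)
      have hlt : ((dom w).equivFin ⟨i, hi⟩).1 < (dom w).card := ((dom w).equivFin ⟨i, hi⟩).2
      have hex : ∃ a, ∃ j : Fin b, (if h : j.1 < (dom w).card then
          some (((dom w).equivFin.symm ⟨j.1, h⟩ : Fin m),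
          (w ((dom w).equivFin.symm ⟨j.1, h⟩ : Fin m)).get
          (mem_dom.1 ((dom w).equivFin.symm ⟨j.1, h⟩).2)) else none) = some (i, a) := by
        refine ⟨a, ⟨((dom w).equivFin ⟨i, hi⟩).1, lt_of_lt_of_le hlt hwc⟩, ?_⟩
        rw [dif_pos hlt]
        simp [ha]
      simp only
      rw [dif_pos hex]
      obtain ⟨j, hj⟩ := hex.choose_spec
      split_ifs at hj with h
      simp only [Option.some.injEq, Prod.mk.injEq] at hj
      rw [← hj.2, Option.some_get, hj.1]
    · have hnone : w i = none := by
        rw [mem_dom] at hi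
        simpa using hi
      simp only
      rw [dif_neg, hnone]
      rintro ⟨a, j, hj⟩
      split_ifs at hj with h
      simp only [Option.some.injEq, Prod.mk.injEq] at hj
      apply hi
      rw [← hj.1]
      exact ((dom w).equivFin.symm ⟨j.1, h⟩).2
  refine (Finset.card_le_card this).trans (Finset.card_image_le.trans ?_)
  rw [Finset.card_univ, Fintype.card_fun, Fintype.card_option, Fintype.card_prod, Fintype.card_fin,
    Fintype.card_fin, add_comm]

open Classical in
/-- number of points -/
noncomputable def num (T : Set (Fin m → A)) : ℕ := (univ.filter (fun y => y ∈ T)).card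

/-- number of cubes -/
noncomputable def tot (T : Set (Fin m → A)) (b : ℕ) : ℕ → List (Fin m → Option A) → ℕ
  | 0, ws => num (Cub T ws)
  | a + 1, ws => ∑ w ∈ Small m A b, tot T b a (w :: ws)

lemma doms_card {b : ℕ} : ∀ ws : List (Fin m → Option A), (∀ w ∈ ws, w ∈ Small m A b) →
    (doms ws).card ≤ b * ws.length
  | [], _ => by simp [doms]
  | w :: ws, h => by
      rw [doms]
      refine (Finset.card_union_le _ _).trans ?_
      have h1 := doms_card ws fun v hv => h v (List.mem_cons_of_mem w hv)
      have h2 := (Finset.mem_filter.1 (h w (List.mem_cons_self ..))).2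
      rw [List.length_cons, mul_add, mul_one]
      omega

/-- `T` is closed under the meets of some structure of a semilattice on each coordinate. -/
def SemiClosed (T : Set (Fin m → A)) : Prop :=
  ∃ S : Fin m → SemilatticeInf A, ∀ x ∈ T, ∀ y ∈ T, (fun i => (S i).inf (x i) (y i)) ∈ T

lemma key' {q K b : ℕ} (hK1 : 1 ≤ K) (hq : Fintype.card A ≤ q) (hK : m * (q - 1) ≤ K * (b + 1))
    (S : Fin m → SemilatticeInf A) (T : Finset (Fin m → A))
    (hT : ∀ x ∈ T, ∀ y ∈ T, (fun i => (S i).inf (x i) (y i)) ∈ T) :
    T.card ≤ (K + 1) ^ (K + 1) *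
      ((T.filter (fun x => ∃ y ∈ T, y ≠ x ∧ hammingDist x y ≤ b)).card + 1) := by
  classical
  have h := @key m (fun _ => A) S (fun _ => inferInstance) (fun _ => inferInstance) q K (b + 1)
    (by omega) hK1 (fun _ => hq) hK T hT
  refine h.trans (Nat.mul_le_mul_left _ (Nat.add_le_add_right (le_of_eq ?_) 1))
  congr 1
  ext x
  simp only [Finset.mem_filter, Nat.lt_succ_iff]

open Classical in
lemma step {q K b : ℕ} (hK1 : 1 ≤ K) (hq : Fintype.card A ≤ q) (hq1 : 1 ≤ q)
    (hK : m * (q - 1) ≤ K * (b + 1)) {T : Set (Fin m → A)} (hT : SemiClosed T)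
    (ws : List (Fin m → Option A)) (hws : ∀ w ∈ ws, w ∈ Small m A b) :
    num (Cub T ws) ≤ (K + 1) ^ (K + 1) *
      (q ^ (b * ws.length) + ∑ w ∈ Small m A b, num (Cub T (w :: ws))) := by
  obtain ⟨S, hS⟩ := hT
  have hidem : ∀ (i : Fin m) (a : A), (S i).inf a a = a := fun i a =>
    @inf_idem A (S i) a
  set D := doms ws with hD
  set π : (Fin m → A) → (D → A) := fun y i => y i.1 with hπ
  set U := univ.filter (fun y => y ∈ Cub T ws) with hU
  set P : (D → A) → Finset (Fin m → A) := fun p => U.filter (fun y => π y = p) with hP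
  have hnum : num (Cub T ws) = ∑ p : D → A, (P p).card := by
    rw [num, ← hU]
    exact Finset.card_eq_sum_card_fiberwise (fun _ _ => Finset.mem_univ _)
  have hpiece : ∀ p : D → A, (P p).card ≤ (K + 1) ^ (K + 1) *
      (1 + ∑ w ∈ Small m A b,
        ((univ.filter (fun y => y ∈ Cub T (w :: ws))).filter (fun y => π y = p)).card) := by
    intro p
    rcases (P p).eq_empty_or_nonempty with h0 | ⟨y₀, hy₀⟩
    · rw [h0]; simp
    · obtain ⟨hy₀U, hy₀p⟩ := Finset.mem_filter.1 hy₀
      have hPmem : ∀ y, y ∈ P p ↔ (y ∈ Cub T ws ∧ ∀ i ∈ doms ws, y i = y₀ i) := by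
        intro y
        simp only [hP, hU, Finset.mem_filter, Finset.mem_univ, true_and]
        constructor
        · rintro ⟨h1, h2⟩
          refine ⟨h1, fun i hi => ?_⟩
          have := congrFun (h2.trans hy₀p.symm) ⟨i, hi⟩
          exact this
        · rintro ⟨h1, h2⟩
          refine ⟨h1, ?_⟩
          rw [← hy₀p]
          funext i
          exact h2 i.1 i.2
      have hclo := clo_piece (f := fun i => (S i).inf) hidem hS ws y₀
      have h1 := key' hK1 hq hK S (P p) (by
        intro x hx y hy
        exact (hPmem _).2 (hclo x ((hPmem x).1 hx) y ((hPmem y).1 hy)))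
      refine h1.trans (Nat.mul_le_mul_left _ ?_)
      rw [add_comm]
      apply Nat.add_le_add_left
      refine le_trans (Finset.card_le_card (t := (Small m A b).biUnion (fun w =>
        (univ.filter (fun y => y ∈ Cub T (w :: ws))).filter (fun y => π y = p))) ?_)
        Finset.card_biUnion_le
      intro x hx
      obtain ⟨hxP, y, hyP, hne, hd⟩ := Finset.mem_filter.1 hx
      set w : Fin m → Option A := fun i => if x i = y i then none else some (y i) with hw
      have hdomw : ∀ i, i ∈ dom w ↔ x i ≠ y i := by
        intro i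
        rw [mem_dom]
        simp only [hw]
        split_ifs with h <;> simp [h]
      have happ : app w x = y := by
        funext i
        simp only [app, hw]
        split_ifs with h <;> simp [h]
      have hx' := (hPmem x).1 hxP
      have hy' := (hPmem y).1 hyP
      refine Finset.mem_biUnion.2 ⟨w, Finset.mem_filter.2 ⟨Finset.mem_univ _, ?_⟩,
        Finset.mem_filter.2 ⟨Finset.mem_filter.2 ⟨Finset.mem_univ _, hx'.1, ?_, ?_, ?_, ?_⟩,
          (Finset.mem_filter.1 hxP).2⟩⟩
      · refine le_trans (Finset.card_le_card ?_) hd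
        intro i hi
        exact Finset.mem_filter.2 ⟨Finset.mem_univ _, (hdomw i).1 hi⟩
      · rw [happ]; exact hy'.1
      · intro i hi
        have h3 := (hdomw i).1 hi
        simp only [hw, if_neg h3]
        intro h4
        exact h3 (Option.some_injective _ h4).symm
      · obtain ⟨i, hi⟩ := Function.ne_iff.1 hne
        exact ⟨i, (hdomw i).2 fun h => hi h.symm⟩
      · rw [Finset.disjoint_left]
        intro i hi hi'
        exact (hdomw i).1 hi ((hx'.2 i hi').trans (hy'.2 i hi').symm)
  rw [hnum]
  refine (Finset.sum_le_sum fun p _ => hpiece p).trans ?_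
  rw [← Finset.mul_sum, Finset.sum_add_distrib]
  apply Nat.mul_le_mul_left
  apply Nat.add_le_add
  · rw [Finset.sum_const, smul_eq_mul, mul_one, Finset.card_univ, Fintype.card_fun,
      Fintype.card_coe]
    calc Fintype.card A ^ (doms ws).card ≤ q ^ (doms ws).card := Nat.pow_le_pow_left hq _
      _ ≤ q ^ (b * ws.length) := Nat.pow_le_pow_right hq1 (doms_card ws hws)
  · rw [Finset.sum_comm]
    apply Finset.sum_le_sum
    intro w _
    rw [num]
    exact le_of_eq (Finset.card_eq_sum_card_fiberwise (fun _ _ => Finset.mem_univ _)).symm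

lemma iter {q K b : ℕ} (hK1 : 1 ≤ K) (hq : Fintype.card A ≤ q) (hq1 : 1 ≤ q)
    (hK : m * (q - 1) ≤ K * (b + 1)) {T : Set (Fin m → A)} (hT : SemiClosed T) :
    ∀ (a : ℕ) (ws : List (Fin m → Option A)), (∀ w ∈ ws, w ∈ Small m A b) →
      num (Cub T ws) ≤ ((K + 1) ^ (K + 1)) ^ a * tot T b a ws +
        a * ((K + 1) ^ (K + 1) * (1 + m * q) ^ b * q ^ b) ^ a * q ^ (b * ws.length)
  | 0, ws, _ => by simp [tot]
  | a + 1, ws, hws => by
      set C := (K + 1) ^ (K + 1) with hC
      set B := (1 + m * q) ^ b with hB
      set X := C * B * q ^ b with hX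
      have hC1 : 1 ≤ C := Nat.one_le_pow _ _ (by omega)
      have hB1 : 1 ≤ B := Nat.one_le_pow _ _ (by omega)
      have hQ1 : 1 ≤ q ^ b := Nat.one_le_pow _ _ hq1
      have hBc : (Small m A b).card ≤ B := (card_Small b).trans
        (Nat.pow_le_pow_left (Nat.add_le_add_left (Nat.mul_le_mul_left _ hq) _) _)
      have h1 := step hK1 hq hq1 hK hT ws hws
      have h2 : ∑ w ∈ Small m A b, num (Cub T (w :: ws)) ≤
          C ^ a * tot T b (a + 1) ws + B * (a * X ^ a * (q ^ b * q ^ (b * ws.length))) := by
        calc ∑ w ∈ Small m A b, num (Cub T (w :: ws))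
            ≤ ∑ w ∈ Small m A b, (C ^ a * tot T b a (w :: ws) +
                a * X ^ a * (q ^ b * q ^ (b * ws.length))) := by
              apply Finset.sum_le_sum
              intro w hw
              have h3 := iter hK1 hq hq1 hK hT a (w :: ws) (by
                intro v hv
                rcases List.mem_cons.1 hv with rfl | hv
                · exact hw
                · exact hws v hv)
              have h5 : q ^ (b * (w :: ws).length) = q ^ b * q ^ (b * ws.length) := by
                rw [List.length_cons, mul_add, mul_one, add_comm (b * ws.length), pow_add]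
              rw [h5] at h3
              exact h3
          _ = C ^ a * tot T b (a + 1) ws +
                (Small m A b).card * (a * X ^ a * (q ^ b * q ^ (b * ws.length))) := by
              rw [Finset.sum_add_distrib, ← Finset.mul_sum, Finset.sum_const, smul_eq_mul]
              rfl
          _ ≤ _ := Nat.add_le_add_left (Nat.mul_le_mul_right _ hBc) _
      have h4 : C ≤ X ^ (a + 1) := by
        calc C ≤ X := by
              rw [hX, mul_assoc]
              exact Nat.le_mul_of_pos_right _ (Nat.mul_pos hB1 hQ1)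
          _ ≤ X ^ (a + 1) := Nat.le_self_pow (by omega) _
      calc num (Cub T ws) ≤ C * (q ^ (b * ws.length) + ∑ w ∈ Small m A b, num (Cub T (w :: ws))) := h1
        _ ≤ C * (q ^ (b * ws.length) + (C ^ a * tot T b (a + 1) ws +
              B * (a * X ^ a * (q ^ b * q ^ (b * ws.length))))) :=
            Nat.mul_le_mul_left _ (Nat.add_le_add_left h2 _)
        _ = C ^ (a + 1) * tot T b (a + 1) ws + C * q ^ (b * ws.length) +
              a * ((C * B * q ^ b) * X ^ a) * q ^ (b * ws.length) := by ring
        _ = C ^ (a + 1) * tot T b (a + 1) ws + C * q ^ (b * ws.length) +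
              a * X ^ (a + 1) * q ^ (b * ws.length) := by rw [← hX, pow_succ' X a]
        _ ≤ C ^ (a + 1) * tot T b (a + 1) ws + X ^ (a + 1) * q ^ (b * ws.length) +
              a * X ^ (a + 1) * q ^ (b * ws.length) := by
            gcongr
        _ = _ := by ring

open Classical in
/-- counting cubes in a family of sets -/
lemma tot_family {q b u a : ℕ} (hq : Fintype.card A ≤ q) {ι : Type*} (X : Finset ι)
    (T : ι → Set (Fin m → A))
    (hfree : ∀ (ws : List (Fin m → Option A)) (y : Fin m → A), ws.length = a →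
      (X.filter (fun x => y ∈ Cub (T x) ws)).card ≤ u) :
    ∀ (j : ℕ) (ws : List (Fin m → Option A)), ws.length + j = a →
      ∑ x ∈ X, tot (T x) b j ws ≤ ((1 + m * q) ^ b) ^ j * (q ^ m * u)
  | 0, ws, h => by
      have h1 : ∑ x ∈ X, tot (T x) b 0 ws =
          ∑ y : Fin m → A, (X.filter (fun x => y ∈ Cub (T x) ws)).card := by
        simp only [tot, num, Finset.card_filter]
        rw [Finset.sum_comm]
      rw [h1, pow_zero, one_mul]
      refine (Finset.sum_le_sum fun y _ => hfree ws y (by omega)).trans ?_
      rw [Finset.sum_const, smul_eq_mul, Finset.card_univ, Fintype.card_fun, Fintype.card_fin]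
      exact Nat.mul_le_mul_right _ (Nat.pow_le_pow_left hq _)
  | j + 1, ws, h => by
      have h1 : ∑ x ∈ X, tot (T x) b (j + 1) ws =
          ∑ w ∈ Small m A b, ∑ x ∈ X, tot (T x) b j (w :: ws) := by
        simp only [tot]
        rw [Finset.sum_comm]
      have hBc : (Small m A b).card ≤ (1 + m * q) ^ b := (card_Small b).trans
        (Nat.pow_le_pow_left (Nat.add_le_add_left (Nat.mul_le_mul_left _ hq) _) _)
      rw [h1]
      refine (Finset.sum_le_sum fun w _ => tot_family hq X T hfree j (w :: ws) (by
        rw [List.length_cons]; omega)).trans ?_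
      rw [Finset.sum_const, smul_eq_mul]
      calc (Small m A b).card * (((1 + m * q) ^ b) ^ j * (q ^ m * u))
          ≤ (1 + m * q) ^ b * (((1 + m * q) ^ b) ^ j * (q ^ m * u)) := Nat.mul_le_mul_right _ hBc
        _ = _ := by ring

/-- **The number of incidences.** -/
theorem family {q K b u a : ℕ} (hK1 : 1 ≤ K) (hq : Fintype.card A ≤ q) (hq1 : 1 ≤ q)
    (hK : m * (q - 1) ≤ K * (b + 1)) {ι : Type*} (X : Finset ι) (T : ι → Set (Fin m → A))
    (hT : ∀ x ∈ X, SemiClosed (T x))
    (hfree : ∀ (Y : Finset (Fin m → A)) (X' : Finset ι), X' ⊆ X → Y.card = 2 ^ a →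
      (∀ x ∈ X', ∀ y ∈ Y, y ∈ T x) → X'.card ≤ u) :
    ∑ x ∈ X, num (T x) ≤
      ((K + 1) ^ (K + 1) * (1 + m * q) ^ b * q ^ b) ^ a * (a * X.card + u * q ^ m) := by
  classical
  set C := (K + 1) ^ (K + 1) with hC
  set B := (1 + m * q) ^ b with hB
  have hQ1 : 1 ≤ q ^ b := Nat.one_le_pow _ _ hq1
  have h1 : ∑ x ∈ X, tot (T x) b a [] ≤ B ^ a * (q ^ m * u) := by
    refine tot_family (u := u) (a := a) hq X T ?_ a [] (by simp)
    intro ws y hws
    rcases (X.filter (fun x => y ∈ Cub (T x) ws)).eq_empty_or_nonempty with h0 | ⟨x₀, hx₀⟩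
    · rw [h0]; simp
    · refine hfree (pts ws y) _ (Finset.filter_subset _ _) ?_ ?_
      · rw [← hws]
        exact pts_card ws y (Finset.mem_filter.1 hx₀).2
      · intro x hx z hz
        exact pts_mem ws y (Finset.mem_filter.1 hx).2 z hz
  have h2 : ∀ x ∈ X, num (T x) ≤ C ^ a * tot (T x) b a [] + a * (C * B * q ^ b) ^ a := by
    intro x hx
    have h3 := iter hK1 hq hq1 hK (hT x hx) a [] (by simp)
    simpa [Cub] using h3
  calc ∑ x ∈ X, num (T x) ≤ ∑ x ∈ X, (C ^ a * tot (T x) b a [] + a * (C * B * q ^ b) ^ a) :=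
        Finset.sum_le_sum h2
    _ = C ^ a * ∑ x ∈ X, tot (T x) b a [] + X.card * (a * (C * B * q ^ b) ^ a) := by
        rw [Finset.sum_add_distrib, ← Finset.mul_sum, Finset.sum_const, smul_eq_mul]
    _ ≤ C ^ a * (B ^ a * (q ^ m * u)) + X.card * (a * (C * B * q ^ b) ^ a) :=
        Nat.add_le_add_right (Nat.mul_le_mul_left _ h1) _
    _ = (C * B) ^ a * (u * q ^ m) + (C * B * q ^ b) ^ a * (a * X.card) := by
        rw [mul_pow C B a]
        generalize (C * B * q ^ b) ^ a = E
        ring
    _ ≤ (C * B * q ^ b) ^ a * (u * q ^ m) + (C * B * q ^ b) ^ a * (a * X.card) := by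
        apply Nat.add_le_add_right
        apply Nat.mul_le_mul_right
        apply Nat.pow_le_pow_left
        exact Nat.le_mul_of_pos_right _ hQ1
    _ = _ := by ring

end Pool.Agent.W5h1.SL
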