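import Mathlib
import Pool.Agent.W5h1.SL.Cubes

/-!
# Graphs whose neighbourhoods are unions of few subsemilattices
-/

set_option autoImplicit false

namespace Pool.Agent.W5h1.SL

open Finset

/-- `S` is a union of `L` sets each of which is closed under the meets of some structure of a
semilattice on each coordinate. -/
def SemiUnion {A : Type*} {m : ℕ} (L : ℕ) (S : Set (Fin m → A)) : Prop :=
  ∃ T : Fin L → Set (Fin m → A), (∀ j, SemiClosed (T j)) ∧ S = ⋃ j, T j

lemma not_free' {V : Type*} [Fintype V] {r u : ℕ} (G : SimpleGraph V) (X Y : Finset V)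
    (hX : X.card = u) (hY : Y.card = r) (hXY : ∀ x ∈ X, ∀ y ∈ Y, G.Adj x y) :
    ¬ (completeBipartiteGraph (Fin r) (Fin u)).Free G := by
  intro h
  apply h
  let e1 : Fin r ≃ Y := (Fin.castOrderIso hY.symm).toEquiv.trans Y.equivFin.symm
  let e2 : Fin u ≃ X := (Fin.castOrderIso hX.symm).toEquiv.trans X.equivFin.symm
  refine ⟨⟨⟨Sum.elim (fun i => ((e1 i : Y) : V)) (fun i => ((e2 i : X) : V)), ?_⟩, ?_⟩⟩
  · intro a b hab
    cases a with
    | inl a =>
      cases b with
      | inl b => simp at hab
      | inr b => exact (hXY _ (e2 b).2 _ (e1 a).2).symm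
    | inr a =>
      cases b with
      | inl b => exact hXY _ (e2 a).2 _ (e1 b).2
      | inr b => simp at hab
  · intro a b hab
    have hab' : Sum.elim (fun i => ((e1 i : Y) : V)) (fun i => ((e2 i : X) : V)) a =
      Sum.elim (fun i => ((e1 i : Y) : V)) (fun i => ((e2 i : X) : V)) b := hab
    cases a with
    | inl a =>
      cases b with
      | inl b =>
        simp only [Sum.elim_inl] at hab'
        rw [e1.injective (Subtype.ext hab')]
      | inr b =>
        simp only [Sum.elim_inl, Sum.elim_inr] at hab'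
        have := hXY _ (e2 b).2 _ (e1 a).2
        rw [hab'] at this
        exact absurd this (G.loopless.irrefl _)
    | inr a =>
      cases b with
      | inl b =>
        simp only [Sum.elim_inl, Sum.elim_inr] at hab'
        have := hXY _ (e2 a).2 _ (e1 b).2
        rw [hab'] at this
        exact absurd this (G.loopless.irrefl _)
      | inr b =>
        simp only [Sum.elim_inr] at hab'
        rw [e2.injective (Subtype.ext hab')]

lemma base_bound {q m : ℕ} (hq1 : 1 ≤ q) :
    (q * (Nat.sqrt m + 1) + 1) ^ (q * (Nat.sqrt m + 1) + 1) * (1 + m * q) ^ Nat.sqrt m *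
      q ^ Nat.sqrt m ≤ (q * (m + 2)) ^ ((q + 2) * (Nat.sqrt m + 1)) := by
  set b := Nat.sqrt m with hb
  have hbm : b ≤ m := Nat.sqrt_le_self m
  set N := q * (m + 2) with hN
  have hN1 : 1 ≤ N := Nat.mul_pos hq1 (by omega)
  have h1 : q * (b + 1) + 1 ≤ N := by
    have : q * (b + 1) ≤ q * (m + 1) := Nat.mul_le_mul_left _ (by omega)
    have h2 : N = q * (m + 1) + q := by rw [hN]; ring
    omega
  have h2 : 1 + m * q ≤ N := by
    have h2 : N = m * q + 2 * q := by rw [hN]; ring
    omega
  have h3 : q ≤ N := Nat.le_mul_of_pos_right _ (by omega)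
  calc (q * (b + 1) + 1) ^ (q * (b + 1) + 1) * (1 + m * q) ^ b * q ^ b
      ≤ N ^ (q * (b + 1) + 1) * N ^ b * N ^ b := by gcongr
    _ = N ^ (q * (b + 1) + 1 + b + b) := by rw [← pow_add, ← pow_add]
    _ ≤ N ^ ((q + 2) * (b + 1)) := Nat.pow_le_pow_right hN1 (by ring_nf; omega)

open Classical in
/-- **The bound for graphs.** -/
theorem graph_bound (m L r u : ℕ) (A V : Type*) [Fintype A] [Fintype V] (lab : V → Fin m → A)
    (G : SimpleGraph V) (hu : 1 ≤ u) (hlab : Function.Injective lab)
    (hN : ∀ x y, G.Adj x y → SemiUnion L (lab '' G.neighborSet x) ∨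
      SemiUnion L (lab '' G.neighborSet y))
    (hfree : (completeBipartiteGraph (Fin r) (Fin u)).Free G) :
    Nat.card G.edgeSet ≤ L * (Fintype.card A * (m + 2)) ^
      ((Fintype.card A + 2) * (Nat.sqrt m + 1) * Nat.clog 2 r) *
        (Nat.clog 2 r * Fintype.card V + u * Fintype.card A ^ m) := by
  set q := Fintype.card A with hqdef
  rcases Nat.eq_zero_or_pos q with hq0 | hq1
  · -- no labels
    have hA : IsEmpty A := Fintype.card_eq_zero_iff.1 hq0
    have hsub : Subsingleton (Fin m → A) := by
      rcases Nat.eq_zero_or_pos m with rfl | hm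
      · infer_instance
      · exact ⟨fun f => (hA.false (f ⟨0, hm⟩)).elim⟩
    have hV : Subsingleton V := ⟨fun a b => hlab (hsub.elim _ _)⟩
    have : IsEmpty G.edgeSet := by
      refine ⟨fun e => ?_⟩
      obtain ⟨e, he⟩ := e
      induction e with
      | h a b =>
        rw [SimpleGraph.mem_edgeSet] at he
        exact G.ne_of_adj he (hV.elim a b)
    simp
  set a := Nat.clog 2 r with ha
  set b := Nat.sqrt m with hb
  set X : Finset V := univ.filter (fun x => SemiUnion L (lab '' G.neighborSet x)) with hX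
  have hT : ∀ x, ∃ T : Fin L → Set (Fin m → A), x ∈ X →
      (∀ j, SemiClosed (T j)) ∧ lab '' G.neighborSet x = ⋃ j, T j := by
    intro x
    by_cases h : x ∈ X
    · obtain ⟨T, h1, h2⟩ := (Finset.mem_filter.1 h).2
      exact ⟨T, fun _ => ⟨h1, h2⟩⟩
    · exact ⟨fun _ => ∅, fun h' => absurd h' h⟩
  choose T hT using hT
  have hKm : m * (q - 1) ≤ q * (b + 1) * (b + 1) := by
    have h1 : m < (b + 1) * (b + 1) := Nat.lt_succ_sqrt m
    calc m * (q - 1) ≤ ((b + 1) * (b + 1)) * q := Nat.mul_le_mul h1.le (Nat.sub_le _ _)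
      _ = _ := by ring
  have hfam : ∀ j : Fin L, ∑ x ∈ X, num (T x j) ≤
      (q * (m + 2)) ^ ((q + 2) * (b + 1) * a) * (a * Fintype.card V + u * q ^ m) := by
    intro j
    have h1 := family (K := q * (b + 1)) (b := b) (u := u) (a := a) (q := q)
      (Nat.mul_pos hq1 (by omega)) le_rfl hq1 hKm X (fun x => T x j)
      (fun x hx => (hT x hx).1 j) (by
        intro Y X' hX' hY hXY
        by_contra hcon
        push Not at hcon
        obtain ⟨X₁, hX₁, hX₁c⟩ := Finset.exists_subset_card_eq hcon.le
        obtain ⟨x₀, hx₀⟩ : X₁.Nonempty := Finset.card_pos.1 (by omega)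
        have hra : r ≤ Y.card := by rw [hY]; exact Nat.le_pow_clog (by norm_num) r
        obtain ⟨Y₁, hY₁, hY₁c⟩ := Finset.exists_subset_card_eq hra
        have hsub : ∀ x ∈ X₁, ∀ y ∈ Y₁, y ∈ lab '' G.neighborSet x := by
          intro x hx y hy
          have hxX : x ∈ X := hX' (hX₁ hx)
          rw [(hT x hxX).2]
          exact Set.mem_iUnion.2 ⟨j, hXY x (hX₁ hx) y (hY₁ hy)⟩
        have himg : (univ.filter (fun v => lab v ∈ Y₁)).image lab = Y₁ := by
          ext y
          simp only [Finset.mem_image, Finset.mem_filter, Finset.mem_univ, true_and]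
          constructor
          · rintro ⟨v, hv, rfl⟩; exact hv
          · intro hy
            obtain ⟨v, _, hv⟩ := hsub x₀ hx₀ y hy
            exact ⟨v, by rw [hv]; exact hy, hv⟩
        have hc : (univ.filter (fun v => lab v ∈ Y₁)).card = r := by
          rw [← hY₁c, ← himg, Finset.card_image_of_injective _ hlab, himg]
        refine not_free' G X₁ (univ.filter (fun v => lab v ∈ Y₁)) hX₁c hc ?_ hfree
        intro x hx v hv
        obtain ⟨w, hw, hwv⟩ := hsub x hx _ (Finset.mem_filter.1 hv).2
        rw [← hlab hwv]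
        exact hw)
    refine h1.trans ?_
    rw [pow_mul]
    apply Nat.mul_le_mul
    · exact Nat.pow_le_pow_left (base_bound hq1) _
    · exact Nat.add_le_add_right (Nat.mul_le_mul_left _ (Finset.card_le_univ _)) _
  have hdeg : ∀ x ∈ X, G.degree x ≤ ∑ j : Fin L, num (T x j) := by
    intro x hx
    rw [← G.card_neighborFinset_eq_degree, ← Finset.card_image_of_injective _ hlab]
    refine le_trans (Finset.card_le_card (t := (univ : Finset (Fin L)).biUnion
      (fun j => univ.filter (fun z => z ∈ T x j))) ?_) Finset.card_biUnion_le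
    intro y hy
    obtain ⟨v, hv, rfl⟩ := Finset.mem_image.1 hy
    have : lab v ∈ lab '' G.neighborSet x := ⟨v, by simpa using hv, rfl⟩
    rw [(hT x hx).2] at this
    obtain ⟨j, hj⟩ := Set.mem_iUnion.1 this
    exact Finset.mem_biUnion.2 ⟨j, Finset.mem_univ _,
      Finset.mem_filter.2 ⟨Finset.mem_univ _, hj⟩⟩
  have hedge : Nat.card G.edgeSet ≤ ∑ x ∈ X, G.degree x := by
    rw [Nat.card_eq_fintype_card, ← SimpleGraph.edgeFinset_card]
    refine le_trans (Finset.card_le_card (t := X.biUnion (fun x => G.incidenceFinset x)) ?_)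
      (Finset.card_biUnion_le.trans (le_of_eq ?_))
    · intro e he
      induction e with
      | h v w =>
        rw [SimpleGraph.mem_edgeFinset, SimpleGraph.mem_edgeSet] at he
        rcases hN v w he with h | h
        · refine Finset.mem_biUnion.2 ⟨v, Finset.mem_filter.2 ⟨Finset.mem_univ _, h⟩, ?_⟩
          rw [SimpleGraph.mem_incidenceFinset, SimpleGraph.mk'_mem_incidenceSet_left_iff]
          exact he
        · refine Finset.mem_biUnion.2 ⟨w, Finset.mem_filter.2 ⟨Finset.mem_univ _, h⟩, ?_⟩
          rw [SimpleGraph.mem_incidenceFinset, SimpleGraph.mk'_mem_incidenceSet_right_iff]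
          exact he
    · exact Finset.sum_congr rfl fun x _ => G.card_incidenceFinset_eq_degree x
  calc Nat.card G.edgeSet ≤ ∑ x ∈ X, G.degree x := hedge
    _ ≤ ∑ x ∈ X, ∑ j : Fin L, num (T x j) := Finset.sum_le_sum hdeg
    _ = ∑ j : Fin L, ∑ x ∈ X, num (T x j) := Finset.sum_comm
    _ ≤ ∑ _j : Fin L, (q * (m + 2)) ^ ((q + 2) * (b + 1) * a) *
          (a * Fintype.card V + u * q ^ m) := Finset.sum_le_sum fun j _ => hfam j
    _ = _ := by
        rw [Finset.sum_const, smul_eq_mul, Finset.card_univ, Fintype.card_fin]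
        exact (mul_assoc _ _ _).symm

end Pool.Agent.W5h1.SL
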