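import Mathlib
import Pool.Agent.W5h1.SL.Graph

/-!
# Asymptotic form
-/

set_option autoImplicit false

namespace Pool.Agent.W5h1.SL

open Finset Filter

/-- polynomial against exponential growth -/
lemma poly_exp (Q c : ℕ) {r : ℝ} (hr : 1 < r) :
    ∃ j₀ : ℕ, ∀ j : ℕ, j₀ ≤ j → (((Q : ℝ) * j ^ 2) ^ c) ≤ r ^ j := by
  have h := tendsto_pow_const_div_const_pow_of_one_lt (2 * c) hr
  have hpos : (0 : ℝ) < 1 / ((Q : ℝ) ^ c + 1) := by positivity
  obtain ⟨j₀, hj₀⟩ := Filter.eventually_atTop.1 (h.eventually_lt_const hpos)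
  refine ⟨j₀, fun j hj => ?_⟩
  have h1 := hj₀ j hj
  have hrj : (0 : ℝ) < r ^ j := by positivity
  rw [div_lt_div_iff₀ hrj (by positivity), one_mul] at h1
  have h2 : ((Q : ℝ) * j ^ 2) ^ c = (j : ℝ) ^ (2 * c) * (Q : ℝ) ^ c := by
    rw [mul_pow, ← pow_mul]; ring
  rw [h2]
  have h3 : (0 : ℝ) ≤ (j : ℝ) ^ (2 * c) := by positivity
  nlinarith

lemma grow (q c : ℕ) (ε : ℝ) (hε : 0 < ε) : ∃ m₀ : ℕ, ∀ m : ℕ, m₀ ≤ m →
    (((q * (m + 2) : ℕ) : ℝ) ^ ((Nat.sqrt m + 1) * c)) ≤ (2 : ℝ) ^ (ε * m) := by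
  set r : ℝ := (2 : ℝ) ^ (ε / 2) with hr
  have hr1 : 1 < r := Real.one_lt_rpow (by norm_num) (by positivity)
  obtain ⟨j₀, hj₀⟩ := poly_exp (3 * q) c hr1
  refine ⟨max (j₀ ^ 2) 9, fun m hm => ?_⟩
  set b := Nat.sqrt m with hb
  have hm1 : j₀ ^ 2 ≤ m := le_trans (le_max_left _ _) hm
  have hm2 : 9 ≤ m := le_trans (le_max_right _ _) hm
  have hbj : j₀ ≤ b := by
    rw [hb, Nat.le_sqrt]
    nlinarith [hm1]
  have hb3 : 3 ≤ b := by
    rw [hb, Nat.le_sqrt]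
    omega
  have hbm : b * b ≤ m := Nat.sqrt_le m
  have hmb : m < (b + 1) * (b + 1) := Nat.lt_succ_sqrt m
  have h1 : ((q * (m + 2) : ℕ) : ℝ) ≤ ((3 * q : ℕ) : ℝ) * ((b + 1 : ℕ) : ℝ) ^ 2 := by
    have : q * (m + 2) ≤ 3 * q * (b + 1) ^ 2 := by
      have h2 : m + 2 ≤ 3 * (b + 1) ^ 2 := by nlinarith
      calc q * (m + 2) ≤ q * (3 * (b + 1) ^ 2) := Nat.mul_le_mul_left _ h2
        _ = _ := by ring
    exact_mod_cast this
  have h2 := hj₀ (b + 1) (by omega)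
  have h3 : (((q * (m + 2) : ℕ) : ℝ) ^ c) ≤ r ^ (b + 1) :=
    (pow_le_pow_left₀ (by positivity) h1 c).trans h2
  have h4 : (b + 1) * (b + 1) ≤ 2 * m := by nlinarith
  calc (((q * (m + 2) : ℕ) : ℝ) ^ ((b + 1) * c))
      = ((((q * (m + 2) : ℕ) : ℝ) ^ c)) ^ (b + 1) := by rw [← pow_mul, mul_comm c]
    _ ≤ (r ^ (b + 1)) ^ (b + 1) := pow_le_pow_left₀ (by positivity) h3 _
    _ = r ^ ((b + 1) * (b + 1)) := by rw [← pow_mul]
    _ ≤ r ^ (2 * m) := pow_le_pow_right₀ hr1.le h4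
    _ = (2 : ℝ) ^ (ε * m) := by
        rw [hr, ← Real.rpow_natCast, ← Real.rpow_mul (by norm_num)]
        congr 1
        push_cast
        ring

/-- Asymptotic bound. -/
theorem semi_asymp (q r u D : ℕ) (ε : ℝ) (hu : 1 ≤ u) (hε : 0 < ε) :
    ∃ n₀ : ℕ, ∀ (A : Type) [Fintype A] (n m L : ℕ) (lab : Fin n → Fin m → A)
      (G : SimpleGraph (Fin n)), Fintype.card A = q → n₀ ≤ n →
      Function.Injective lab → q ^ m ≤ D * n →
      (∀ x y, G.Adj x y → SemiUnion L (lab '' G.neighborSet x) ∨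
        SemiUnion L (lab '' G.neighborSet y)) →
      (completeBipartiteGraph (Fin r) (Fin u)).Free G →
      (Nat.card G.edgeSet : ℝ) ≤ L * (n : ℝ) ^ (1 + ε) := by
  set a := Nat.clog 2 r with ha
  obtain ⟨m₀, hm₀⟩ := grow q ((q + 2) * a) (ε / 2) (half_pos hε)
  set C : ℝ := (a + u * D) * (D : ℝ) ^ (ε / 2) with hC
  have ht := (tendsto_rpow_atTop (half_pos hε)).comp (tendsto_natCast_atTop_atTop (R := ℝ))
  obtain ⟨n₁, hn₁⟩ := Filter.eventually_atTop.1 (ht.eventually_gt_atTop C)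
  refine ⟨max (max n₁ (q ^ m₀ + 1)) 2, ?_⟩
  intro A _ n m L lab G hA hn hlab hD hN hfree
  have hn1 : n₁ ≤ n := le_trans (le_trans (le_max_left _ _) (le_max_left _ _)) hn
  have hn2 : q ^ m₀ + 1 ≤ n := le_trans (le_trans (le_max_right _ _) (le_max_left _ _)) hn
  have hn3 : 2 ≤ n := le_trans (le_max_right _ _) hn
  have hcard : n ≤ q ^ m := by
    have := Fintype.card_le_of_injective lab hlab
    rwa [Fintype.card_fin, Fintype.card_fun, Fintype.card_fin, hA] at this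
  have hq2 : 2 ≤ q := by
    by_contra hcon
    push Not at hcon
    have : q ^ m ≤ 1 := by
      calc q ^ m ≤ 1 ^ m := Nat.pow_le_pow_left (by omega) m
        _ = 1 := one_pow m
    omega
  have hm : m₀ ≤ m := by
    by_contra hcon
    push Not at hcon
    have : q ^ m ≤ q ^ m₀ := Nat.pow_le_pow_right (by omega) hcon.le
    omega
  have hn0' : (0 : ℝ) < n := by
    have : 0 < n := by omega
    exact_mod_cast this
  have hDn : ((q : ℝ) ^ m) ≤ D * n := by exact_mod_cast hD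
  have h := graph_bound m L r u A (Fin n) lab G hu hlab hN hfree
  rw [hA, Fintype.card_fin, ← ha] at h
  have hg := hm₀ m hm
  have h1 : (((q * (m + 2) : ℕ) : ℝ) ^ ((q + 2) * (Nat.sqrt m + 1) * a)) ≤
      (D : ℝ) ^ (ε / 2) * (n : ℝ) ^ (ε / 2) := by
    have e1 : (q + 2) * (Nat.sqrt m + 1) * a = (Nat.sqrt m + 1) * ((q + 2) * a) := by ring
    rw [e1]
    refine hg.trans ?_
    calc (2 : ℝ) ^ (ε / 2 * m) = ((2 : ℝ) ^ (m : ℝ)) ^ (ε / 2) := by
          rw [← Real.rpow_mul (by norm_num)]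
          congr 1
          ring
      _ ≤ ((q : ℝ) ^ (m : ℝ)) ^ (ε / 2) := by
          apply Real.rpow_le_rpow (by positivity) _ (by positivity)
          apply Real.rpow_le_rpow (by norm_num) _ (by positivity)
          exact_mod_cast hq2
      _ ≤ (D * n) ^ (ε / 2) := by
          apply Real.rpow_le_rpow (by positivity) _ (by positivity)
          rw [Real.rpow_natCast]
          exact hDn
      _ = _ := Real.mul_rpow (by positivity) (by positivity)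
  have h2 : (Nat.card G.edgeSet : ℝ) ≤ L * (((q * (m + 2) : ℕ) : ℝ) ^
      ((q + 2) * (Nat.sqrt m + 1) * a)) * (a * n + u * (q : ℝ) ^ m) := by
    exact_mod_cast h
  have h3 : (a : ℝ) * n + u * (q : ℝ) ^ m ≤ (a + u * D) * n := by
    have := mul_le_mul_of_nonneg_left hDn (Nat.cast_nonneg u : (0 : ℝ) ≤ u)
    linarith
  have h4 : C < (n : ℝ) ^ (ε / 2) := hn₁ n hn1
  calc (Nat.card G.edgeSet : ℝ)
      ≤ L * (((q * (m + 2) : ℕ) : ℝ) ^
          ((q + 2) * (Nat.sqrt m + 1) * a)) * (a * n + u * (q : ℝ) ^ m) := h2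
    _ ≤ L * ((D : ℝ) ^ (ε / 2) * (n : ℝ) ^ (ε / 2)) * ((a + u * D) * n) := by
        gcongr
    _ = L * (C * ((n : ℝ) ^ (ε / 2) * n)) := by rw [hC]; ring
    _ ≤ L * ((n : ℝ) ^ (ε / 2) * ((n : ℝ) ^ (ε / 2) * n)) := by gcongr
    _ = L * (n : ℝ) ^ (1 + ε) := by
        congr 1
        rw [← Real.rpow_add_one (ne_of_gt hn0'), ← Real.rpow_add hn0']
        congr 1
        ring

/-- Dense graphs need many subsemilattices. -/
theorem semi_large (q r u D : ℕ) (c δ β : ℝ) (hu : 1 ≤ u) (hc : 0 < c) (hδ : δ < β) :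
    ∃ n₀ : ℕ, ∀ (A : Type) [Fintype A] (n m L : ℕ) (lab : Fin n → Fin m → A)
      (G : SimpleGraph (Fin n)), Fintype.card A = q → n₀ ≤ n →
      Function.Injective lab → q ^ m ≤ D * n →
      (∀ x y, G.Adj x y → SemiUnion L (lab '' G.neighborSet x) ∨
        SemiUnion L (lab '' G.neighborSet y)) →
      (completeBipartiteGraph (Fin r) (Fin u)).Free G →
      c * (n : ℝ) ^ (1 + β) ≤ Nat.card G.edgeSet → (n : ℝ) ^ δ < L := by
  set ε : ℝ := (β - δ) / 2 with hε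
  have hε0 : 0 < ε := by rw [hε]; linarith
  obtain ⟨n₀, hn₀⟩ := semi_asymp q r u D ε hu hε0
  have ht2 := (tendsto_rpow_atTop hε0).comp (tendsto_natCast_atTop_atTop (R := ℝ))
  obtain ⟨n₁, hn₁⟩ := Filter.eventually_atTop.1 (ht2.eventually_gt_atTop (1 / c))
  refine ⟨max (max n₀ n₁) 1, ?_⟩
  intro A _ n m L lab G hA hn hlab hD hN hfree hE
  have hn0 : n₀ ≤ n := le_trans (le_trans (le_max_left _ _) (le_max_left _ _)) hn
  have hn1 : n₁ ≤ n := le_trans (le_trans (le_max_right _ _) (le_max_left _ _)) hn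
  have hn2 : 1 ≤ n := le_trans (le_max_right _ _) hn
  have hn' : (0 : ℝ) < n := by exact_mod_cast hn2
  have h1 := hE.trans (hn₀ A n m L lab G hA hn0 hlab hD hN hfree)
  have h3 : (n : ℝ) ^ (1 + β) = (n : ℝ) ^ δ * (n : ℝ) ^ ε * (n : ℝ) ^ (1 + ε) := by
    rw [← Real.rpow_add hn', ← Real.rpow_add hn']; congr 1; rw [hε]; ring
  rw [h3, ← mul_assoc] at h1
  have h4 : c * ((n : ℝ) ^ δ * (n : ℝ) ^ ε) ≤ L := le_of_mul_le_mul_right h1 (by positivity)
  have h6 := hn₁ n hn1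
  simp only [Function.comp] at h6
  have h7 : 1 < c * (n : ℝ) ^ ε := by
    rw [div_lt_iff₀ hc] at h6
    linarith
  have h8 : 0 < (n : ℝ) ^ δ := by positivity
  nlinarith

end Pool.Agent.W5h1.SL
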