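import Mathlib
import Pool.Agent.W5h1.SL.Cubes

/-!
# Idempotent operations on two elements
-/

set_option autoImplicit false

namespace Pool.Agent.W5h1.SL

open Finset

variable {m l : ℕ}

/-- The set `T` of strings is closed under the operation `f` (applied coordinatewise). -/
def BoolClosed (f : (Fin l → Bool) → Bool) (T : Set (Fin m → Bool)) : Prop :=
  ∀ x : Fin l → Fin m → Bool, (∀ j, x j ∈ T) → (fun i => f (fun j => x j i)) ∈ T

/-- `f` is the sum modulo 2 of some of its variables. -/
def IsSum (f : (Fin l → Bool) → Bool) : Prop :=
  ∃ I : Finset (Fin l), ∀ x, f x = decide ((I.filter (fun j => x j = true)).card % 2 = 1)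

/-- the semilattice with the given smaller element -/
@[reducible] noncomputable def lat (c : Bool) : SemilatticeInf Bool :=
  if c then inferInstanceAs (SemilatticeInf Boolᵒᵈ) else inferInstance

lemma lat_inf (c a b : Bool) : (lat c).inf a b = ((c && a) || (a && b) || (c && b)) := by
  cases c <;> cases a <;> cases b <;> rfl

/-- closed under the meets, for some choice of the smaller element in each coordinate -/
def LatClosed (T : Set (Fin m → Bool)) : Prop :=
  ∃ τ : Fin m → Bool, ∀ x ∈ T, ∀ y ∈ T, (fun i => (lat (τ i)).inf (x i) (y i)) ∈ T

lemma LatClosed.semi {T : Set (Fin m → Bool)} (h : LatClosed T) : SemiClosed T := by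
  obtain ⟨τ, h⟩ := h
  exact ⟨fun i => lat (τ i), h⟩

/-- flip the bits of the members of a set -/
def Flip (c : Fin m → Bool) (T : Set (Fin m → Bool)) : Set (Fin m → Bool) :=
  {x | (fun i => xor (x i) (c i)) ∈ T}

lemma LatClosed.of_flip {c : Fin m → Bool} {T : Set (Fin m → Bool)} (h : LatClosed (Flip c T)) :
    LatClosed T := by
  obtain ⟨τ, h⟩ := h
  refine ⟨fun i => xor (τ i) (c i), fun x hx y hy => ?_⟩
  have hf : ∀ z ∈ T, (fun i => xor (z i) (c i)) ∈ Flip c T := by
    intro z hz
    show (fun i => xor (xor (z i) (c i)) (c i)) ∈ T
    have : (fun i => xor (xor (z i) (c i)) (c i)) = z := by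
      funext i
      cases z i <;> cases c i <;> rfl
    rw [this]
    exact hz
  have h1 := h _ (hf x hx) _ (hf y hy)
  have h2 : (fun i => xor ((lat (τ i)).inf (xor (x i) (c i)) (xor (y i) (c i))) (c i)) ∈ T := h1
  have h3 : (fun i => (lat (xor (τ i) (c i))).inf (x i) (y i)) =
      (fun i => xor ((lat (τ i)).inf (xor (x i) (c i)) (xor (y i) (c i))) (c i)) := by
    funext i
    rw [lat_inf, lat_inf]
    cases τ i <;> cases c i <;> cases x i <;> cases y i <;> rfl
  rw [h3]
  exact h2

lemma and_closed {T : Set (Fin m → Bool)}
    (h : ∀ x ∈ T, ∀ y ∈ T, (fun i => x i && y i) ∈ T) : LatClosed T := by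
  refine ⟨fun _ => false, fun x hx y hy => ?_⟩
  have : (fun i => (lat false).inf (x i) (y i)) = fun i => x i && y i := by
    funext i
    rw [lat_inf]
    cases x i <;> cases y i <;> rfl
  rw [this]
  exact h x hx y hy

lemma or_closed {T : Set (Fin m → Bool)}
    (h : ∀ x ∈ T, ∀ y ∈ T, (fun i => x i || y i) ∈ T) : LatClosed T := by
  refine ⟨fun _ => true, fun x hx y hy => ?_⟩
  have : (fun i => (lat true).inf (x i) (y i)) = fun i => x i || y i := by
    funext i
    rw [lat_inf]
    cases x i <;> cases y i <;> rfl
  rw [this]
  exact h x hx y hy

/-- majority -/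
def mj (a b c : Bool) : Bool := (a && b) || (b && c) || (a && c)

lemma maj_closed {T : Set (Fin m → Bool)}
    (h : ∀ x ∈ T, ∀ y ∈ T, ∀ z ∈ T, (fun i => mj (x i) (y i) (z i)) ∈ T) : LatClosed T := by
  rcases T.eq_empty_or_nonempty with h0 | ⟨c, hc⟩
  · refine ⟨fun _ => false, fun x hx => ?_⟩
    rw [h0] at hx
    exact absurd hx (Set.notMem_empty x)
  · refine ⟨c, fun x hx y hy => ?_⟩
    have : (fun i => (lat (c i)).inf (x i) (y i)) = fun i => mj (c i) (x i) (y i) := by
      funext i
      rw [lat_inf, mj]
    rw [this]
    exact h c hc x hx y hy

/-- **Post.** A set closed under an idempotent operation which is not a sum modulo 2 of some of the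
variables is closed under meets, for a suitable choice of the smaller element in each coordinate. -/
theorem post {f : (Fin l → Bool) → Bool} (h0 : f (fun _ => false) = false)
    (h1 : f (fun _ => true) = true) (hf : ¬ IsSum f) {T : Set (Fin m → Bool)}
    (hT : BoolClosed f T) : LatClosed T := by
  classical
  set F : Finset (Fin l) → Bool := fun S => f (fun j => decide (j ∈ S)) with hF
  have hF0 : F ∅ = false := by
    rw [← h0]
    have : (fun j : Fin l => decide (j ∈ (∅ : Finset (Fin l)))) = fun _ => false := by
      funext j
      simp
    show f (fun j : Fin l => decide (j ∈ (∅ : Finset (Fin l)))) = _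
    rw [this]
  have hF1 : F univ = true := by
    rw [← h1]
    have : (fun j : Fin l => decide (j ∈ (univ : Finset (Fin l)))) = fun _ => true := by
      funext j
      simp
    show f (fun j : Fin l => decide (j ∈ (univ : Finset (Fin l)))) = _
    rw [this]
  -- minors with three variables
  have hmin : ∀ (S₁ S₂ : Finset (Fin l)), ∀ x ∈ T, ∀ y ∈ T, ∀ z ∈ T,
      (fun i => f (fun j => if j ∈ S₁ then x i else if j ∈ S₂ then y i else z i)) ∈ T := by
    intro S₁ S₂ x hx y hy z hz
    have := hT (fun j => if j ∈ S₁ then x else if j ∈ S₂ then y else z) (by
      intro j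
      split_ifs
      · exact hx
      · exact hy
      · exact hz)
    have he : (fun i => f (fun j => if j ∈ S₁ then x i else if j ∈ S₂ then y i else z i)) =
        (fun i => f (fun j => (if j ∈ S₁ then x else if j ∈ S₂ then y else z) i)) := by
      funext i
      congr 1
      funext j
      split_ifs <;> rfl
    rw [he]
    exact this
  have hval : ∀ (S₁ S₂ : Finset (Fin l)), Disjoint S₁ S₂ → ∀ a b c : Bool,
      f (fun j => if j ∈ S₁ then a else if j ∈ S₂ then b else c) =
        F ((if a then S₁ else ∅) ∪ (if b then S₂ else ∅) ∪ (if c then (S₁ ∪ S₂)ᶜ else ∅)) := by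
    intro S₁ S₂ hd a b c
    simp only [hF]
    congr 1
    funext j
    by_cases hj1 : j ∈ S₁
    · have hj2 : j ∉ S₂ := Finset.disjoint_left.1 hd hj1
      cases a <;> cases b <;> cases c <;> simp [hj1, hj2]
    · by_cases hj2 : j ∈ S₂
      · cases a <;> cases b <;> cases c <;> simp [hj1, hj2]
      · cases a <;> cases b <;> cases c <;> simp [hj1, hj2]
  by_cases hsd : ∀ S, F Sᶜ = !F S
  · -- self-dual
    by_cases hadd : ∀ S₁ S₂, Disjoint S₁ S₂ → F (S₁ ∪ S₂) = xor (F S₁) (F S₂)
    · exfalso
      apply hf
      refine ⟨univ.filter (fun j => F {j} = true), fun x => ?_⟩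
      have hsum : ∀ S : Finset (Fin l), F S =
          decide (((univ.filter (fun j => F {j} = true)).filter (fun j => j ∈ S)).card % 2 = 1) := by
        intro S
        induction S using Finset.induction_on with
        | empty => rw [hF0]; simp
        | insert a S ha ih =>
          have h2 : insert a S = {a} ∪ S := rfl
          rw [h2, hadd {a} S (by simpa using ha), ih]
          have h3 : ((univ.filter (fun j => F {j} = true)).filter (fun j => j ∈ {a} ∪ S)) =
              ((univ.filter (fun j => F {j} = true)).filter (fun j => j ∈ S)) ∪
                (if F {a} = true then {a} else ∅) := by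
            ext j
            simp only [Finset.mem_filter, Finset.mem_univ, true_and, Finset.mem_union,
              Finset.mem_singleton]
            split_ifs with h
            · simp only [Finset.mem_singleton]
              constructor
              · rintro ⟨h4, rfl | h5⟩
                · exact Or.inr rfl
                · exact Or.inl ⟨h4, h5⟩
              · rintro (⟨h4, h5⟩ | rfl)
                · exact ⟨h4, Or.inr h5⟩
                · exact ⟨h, Or.inl rfl⟩
            · simp only [Finset.notMem_empty, or_false]
              constructor
              · rintro ⟨h4, rfl | h5⟩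
                · exact absurd h4 h
                · exact ⟨h4, h5⟩
              · rintro ⟨h4, h5⟩
                exact ⟨h4, Or.inr h5⟩
          rw [h3]
          set E := ((univ.filter (fun j => F {j} = true)).filter (fun j => j ∈ S)) with hE
          have haE : a ∉ E := fun h => ha (Finset.mem_filter.1 h).2
          cases h4 : F {a} with
          | false => simp
          | true =>
            simp only [if_true]
            rw [Finset.card_union_of_disjoint (by simpa using haE), Finset.card_singleton]
            rcases Nat.mod_two_eq_zero_or_one E.card with h5 | h5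
            · have h6 : (E.card + 1) % 2 = 1 := by omega
              simp [h5, h6]
            · have h6 : (E.card + 1) % 2 = 0 := by omega
              simp [h5, h6]
      have hx : f x = F (univ.filter (fun j => x j = true)) := by
        simp only [hF]
        congr 1
        funext j
        simp
      rw [hx, hsum]
      have he : ((univ.filter (fun j => F {j} = true)).filter
          (fun j => j ∈ univ.filter (fun j => x j = true))) =
          ((univ.filter (fun j => F {j} = true)).filter (fun j => x j = true)) := by
        ext j
        simp
      rw [he]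
    · push Not at hadd
      obtain ⟨S₁, S₂, hd, hne⟩ := hadd
      -- the minor with the values
      have hv := hval S₁ S₂ hd
      have e12 : F (S₁ ∪ S₂) = !F (S₁ ∪ S₂)ᶜ := by rw [hsd]; simp
      have e13 : F (S₁ ∪ (S₁ ∪ S₂)ᶜ) = !F S₂ := by
        rw [← hsd]
        congr 1
        ext j
        simp only [Finset.mem_union, Finset.mem_compl]
        constructor
        · rintro (h | h)
          · exact Finset.disjoint_left.1 hd h
          · exact fun h' => h (Or.inr h')
        · intro h
          by_cases h' : j ∈ S₁
          · exact Or.inl h'
          · exact Or.inr fun h'' => h''.elim h' h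
      have e23 : F (S₂ ∪ (S₁ ∪ S₂)ᶜ) = !F S₁ := by
        rw [← hsd]
        congr 1
        ext j
        simp only [Finset.mem_union, Finset.mem_compl]
        constructor
        · rintro (h | h)
          · exact Finset.disjoint_right.1 hd h
          · exact fun h' => h (Or.inl h')
        · intro h
          by_cases h' : j ∈ S₂
          · exact Or.inl h'
          · exact Or.inr fun h'' => h''.elim h h'
      have e123 : F (S₁ ∪ S₂ ∪ (S₁ ∪ S₂)ᶜ) = true := by
        rw [Finset.union_compl]; exact hF1
      have hvals : ∀ a b c : Bool,
          f (fun j => if j ∈ S₁ then a else if j ∈ S₂ then b else c) =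
          (if a then (if b then (if c then true else !F (S₁ ∪ S₂)ᶜ) else
            (if c then !F S₂ else F S₁)) else (if b then (if c then !F S₁ else F S₂) else
            (if c then F (S₁ ∪ S₂)ᶜ else false))) := by
        intro a b c
        rw [hv]
        cases a <;> cases b <;> cases c <;>
          simp only [if_true, if_false, Bool.false_eq_true, Finset.empty_union,
            Finset.union_empty, hF0, e12, e13, e23, e123]
      rw [e12] at hne
      apply maj_closed
      intro x hx y hy z hz
      have hg := fun x hx y hy z hz => hmin S₁ S₂ x hx y hy z hz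
      cases h1 : F S₁ <;> cases h2 : F S₂ <;> cases h3 : F (S₁ ∪ S₂)ᶜ <;>
        rw [h1, h2, h3] at hne <;> simp at hne
      · -- majority
        have := hg x hx y hy z hz
        convert this using 2 with i
        rw [hvals, h1, h2, h3]
        cases x i <;> cases y i <;> cases z i <;> rfl
      · -- (0,1,1)
        have hw := hg x hx y hy z hz
        have := hg _ hw y hy z hz
        convert this using 2 with i
        rw [hvals, hvals, h1, h2, h3]
        cases x i <;> cases y i <;> cases z i <;> rfl
      · -- (1,0,1)
        have hw := hg x hx y hy z hz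
        have := hg x hx _ hw z hz
        convert this using 2 with i
        rw [hvals, hvals, h1, h2, h3]
        cases x i <;> cases y i <;> cases z i <;> rfl
      · -- (1,1,0)
        have hw := hg x hx y hy z hz
        have := hg x hx y hy _ hw
        convert this using 2 with i
        rw [hvals, hvals, h1, h2, h3]
        cases x i <;> cases y i <;> cases z i <;> rfl
  · push Not at hsd
    obtain ⟨S, hS⟩ := hsd
    have h2 : ∀ a b : Bool, f (fun j => if j ∈ S then a else if j ∈ (∅ : Finset (Fin l)) then a
        else b) = (if a then (if b then true else F S) else (if b then F Sᶜ else false)) := by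
      intro a b
      rw [hval S ∅ (Finset.disjoint_empty_right S)]
      cases a <;> cases b <;> simp [hF0]
      exact hF1
    have hg := fun x hx y hy => hmin S ∅ x hx x hx y hy
    cases hFS : F S with
    | false =>
      have hFc : F Sᶜ = false := by
        rw [hFS] at hS
        simpa using hS
      apply and_closed
      intro x hx y hy
      convert hg x hx y hy using 2 with i
      rw [h2, hFS, hFc]
      cases x i <;> cases y i <;> rfl
    | true =>
      have hFc : F Sᶜ = true := by
        rw [hFS] at hS
        simpa using hS
      apply or_closed
      intro x hx y hy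
      convert hg x hx y hy using 2 with i
      rw [h2, hFS, hFc]
      cases x i <;> cases y i <;> rfl

end Pool.Agent.W5h1.SL
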