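import Mathlib

/-!
# Wenger's graphs
-/

set_option autoImplicit false

namespace Pool.Agent.W5h1.SL

open Finset

section WR

variable {F : Type*} [Field F] {k : ℕ}

/-- the incidences of points and lines in Wenger's graph -/
def WR (p x : Fin (k + 1) → F) : Prop := ∀ j : Fin k, p j.succ + x j.succ = p 0 * x j.castSucc

lemma wr_diff {p x y : Fin (k + 1) → F} (hx : WR p x) (hy : WR p y) (j : Fin (k + 1)) :
    x j - y j = p 0 ^ (j : ℕ) * (x 0 - y 0) := by
  induction j using Fin.induction with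
  | zero => simp
  | succ j ih =>
    have h1 := hx j
    have h2 := hy j
    have h3 : x j.succ - y j.succ = p 0 * (x j.castSucc - y j.castSucc) := by
      linear_combination h1 - h2
    rw [h3, ih, Fin.val_succ, Fin.val_castSucc]
    ring

lemma wr_line {p x y : Fin (k + 1) → F} (hx : WR p x) (hy : WR p y) (h : x 0 = y 0) : x = y := by
  funext j
  have := wr_diff hx hy j
  rw [h, sub_self, mul_zero] at this
  exact sub_eq_zero.1 this

lemma wr_point {p p' x : Fin (k + 1) → F} (hx : WR p x) (hy : WR p' x) (h : p 0 = p' 0) :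
    p = p' := by
  funext j
  refine Fin.cases h (fun j => ?_) j
  have h1 := hx j
  have h2 := hy j
  rw [h] at h1
  linear_combination h1 - h2

lemma exists_line (p : Fin (k + 1) → F) (t : F) : ∃ x, WR p x ∧ x 0 = t := by
  let g : ℕ → F := fun n => Nat.rec t (fun n a => p 0 * a -
    (if h : n + 1 < k + 1 then p ⟨n + 1, h⟩ else 0)) n
  refine ⟨fun j => g j, fun j => ?_, rfl⟩
  have h1 : g (j.succ : Fin (k + 1)) = p 0 * g (j.castSucc : Fin (k + 1)) - p j.succ := by
    rw [Fin.val_succ, Fin.val_castSucc]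
    show p 0 * g j - (if h : (j : ℕ) + 1 < k + 1 then p ⟨(j : ℕ) + 1, h⟩ else 0) = _
    rw [dif_pos (by omega)]
    rfl
  simp only
  rw [h1]
  ring

open Polynomial in
/-- a closed walk in which some point has a direction of its own -/
lemma wr_unique (x p : Fin (k + 1) → Fin (k + 1) → F) (h1 : ∀ i, WR (p i) (x i))
    (h2 : ∀ i, WR (p i) (x (i + 1))) (h3 : ∀ i, x i ≠ x (i + 1)) (i₀ : Fin (k + 1))
    (h4 : ∀ i, i ≠ i₀ → p i 0 ≠ p i₀ 0) : False := by
  classical
  set lam : Fin (k + 1) → F := fun i => x i 0 - x (i + 1) 0 with hlam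
  have hl0 : lam i₀ ≠ 0 := fun h => h3 i₀ (wr_line (h1 i₀) (h2 i₀) (sub_eq_zero.1 h))
  have hsum : ∀ j : Fin (k + 1), ∑ i, (p i 0) ^ (j : ℕ) * lam i = 0 := by
    intro j
    have e1 : ∀ i, (p i 0) ^ (j : ℕ) * lam i = x i j - x (i + 1) j := fun i =>
      (wr_diff (h1 i) (h2 i) j).symm
    simp only [e1]
    rw [Finset.sum_sub_distrib, sub_eq_zero]
    exact (Equiv.sum_comp (Equiv.addRight (1 : Fin (k + 1))) (fun i => x i j)).symm
  set Z := (univ.image (fun i => p i 0)).erase (p i₀ 0) with hZ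
  set P : F[X] := ∏ w ∈ Z, (X - C w) with hP
  have hdeg : P.natDegree < k + 1 := by
    rw [hP, Polynomial.natDegree_prod_of_monic _ _ (fun w _ => monic_X_sub_C w)]
    simp only [natDegree_X_sub_C, Finset.sum_const, smul_eq_mul, mul_one]
    rw [hZ, Finset.card_erase_of_mem (Finset.mem_image_of_mem _ (Finset.mem_univ _))]
    have : (univ.image (fun i => p i 0)).card ≤ k + 1 := by
      refine Finset.card_image_le.trans ?_
      simp
    omega
  have hzero : ∑ i, P.eval (p i 0) * lam i = 0 := by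
    have e1 : ∀ i, P.eval (p i 0) * lam i =
        ∑ j ∈ Finset.range (k + 1), P.coeff j * ((p i 0) ^ j * lam i) := by
      intro i
      rw [Polynomial.eval_eq_sum_range' hdeg, Finset.sum_mul]
      refine Finset.sum_congr rfl fun j _ => by ring
    simp only [e1]
    rw [Finset.sum_comm]
    apply Finset.sum_eq_zero
    intro j hj
    rw [← Finset.mul_sum]
    have := hsum ⟨j, Finset.mem_range.1 hj⟩
    simp only at this
    rw [this, mul_zero]
  have hone : ∑ i, P.eval (p i 0) * lam i = P.eval (p i₀ 0) * lam i₀ := by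
    apply Finset.sum_eq_single
    · intro i _ hi
      have hmem : p i 0 ∈ Z := Finset.mem_erase.2
        ⟨h4 i hi, Finset.mem_image_of_mem _ (Finset.mem_univ _)⟩
      rw [hP, Polynomial.eval_prod, Finset.prod_eq_zero hmem, zero_mul]
      simp
    · intro h
      exact absurd (Finset.mem_univ _) h
  rw [hone] at hzero
  rcases mul_eq_zero.1 hzero with h | h
  · rw [hP, Polynomial.eval_prod, Finset.prod_eq_zero_iff] at h
    obtain ⟨w, hw, hw0⟩ := h
    simp only [eval_sub, eval_X, eval_C] at hw0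
    exact (Finset.mem_erase.1 hw).1 (sub_eq_zero.1 hw0).symm
  · exact hl0 h

lemma unique_color (hk : k = 1 ∨ k = 2 ∨ k = 4) {B : Type*} (z : Fin (k + 1) → B)
    (hz : ∀ i, z i ≠ z (i + 1)) : ∃ i₀, ∀ i, i ≠ i₀ → z i ≠ z i₀ := by
  rcases hk with rfl | rfl | rfl
  · refine ⟨0, fun i hi => ?_⟩
    have h0 := hz 0
    fin_cases i
    · exact absurd rfl hi
    · exact h0.symm
  · refine ⟨0, fun i hi => ?_⟩
    have h0 := hz 0
    have h2 := hz 2
    fin_cases i
    · exact absurd rfl hi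
    · exact h0.symm
    · exact h2
  · by_contra hcon
    push Not at hcon
    have h0 : z 0 ≠ z 1 := hz 0
    have h1 : z 1 ≠ z 2 := hz 1
    have h2 : z 2 ≠ z 3 := hz 2
    have h3 : z 3 ≠ z 4 := hz 3
    have h4 : z 4 ≠ z 0 := hz 4
    have key : ∀ i : Fin 5, ∃ j : Fin 5, j ≠ i ∧ z j = z i := hcon
    have k0 : z 2 = z 0 ∨ z 3 = z 0 := by
      obtain ⟨j, hj, hz⟩ := key 0
      fin_cases j
      · exact absurd rfl hj
      · exact absurd hz.symm h0
      · exact Or.inl hz
      · exact Or.inr hz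
      · exact absurd hz h4
    have k1 : z 3 = z 1 ∨ z 4 = z 1 := by
      obtain ⟨j, hj, hz⟩ := key 1
      fin_cases j
      · exact absurd hz h0
      · exact absurd rfl hj
      · exact absurd hz.symm h1
      · exact Or.inl hz
      · exact Or.inr hz
    have k2 : z 4 = z 2 ∨ z 0 = z 2 := by
      obtain ⟨j, hj, hz⟩ := key 2
      fin_cases j
      · exact Or.inr hz
      · exact absurd hz h1
      · exact absurd rfl hj
      · exact absurd hz.symm h2
      · exact Or.inl hz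
    have k3 : z 0 = z 3 ∨ z 1 = z 3 := by
      obtain ⟨j, hj, hz⟩ := key 3
      fin_cases j
      · exact Or.inl hz
      · exact Or.inr hz
      · exact absurd hz h2
      · exact absurd rfl hj
      · exact absurd hz.symm h3
    have k4 : z 1 = z 4 ∨ z 2 = z 4 := by
      obtain ⟨j, hj, hz⟩ := key 4
      fin_cases j
      · exact absurd hz.symm h4
      · exact Or.inl hz
      · exact Or.inr hz
      · exact absurd hz h3
      · exact absurd rfl hj
    rcases k0 with e0 | e0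
    · -- z 2 = z 0
      have n30 : z 3 ≠ z 0 := fun h => h2 (e0.trans h.symm)
      have e3 : z 1 = z 3 := k3.resolve_left fun h => n30 h.symm
      rcases k4 with e4 | e4
      · exact h3 (e3.symm.trans e4)
      · exact h4 (e4.symm.trans e0)
    · -- z 3 = z 0
      have n42 : z 2 ≠ z 0 := fun h => h2 (h.trans e0.symm)
      have e2 : z 4 = z 2 := k2.resolve_right fun h => n42 h.symm
      have n31 : z 3 ≠ z 1 := fun h => h0 (e0.symm.trans h)
      have e1 : z 4 = z 1 := k1.resolve_left n31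
      exact h1 (e1.symm.trans e2)

/-- no closed walks of length `2 (k + 1)` without repetitions -/
lemma wr_cycle (hk : k = 1 ∨ k = 2 ∨ k = 4) (x p : Fin (k + 1) → Fin (k + 1) → F)
    (h1 : ∀ i, WR (p i) (x i)) (h2 : ∀ i, WR (p i) (x (i + 1))) (h3 : ∀ i, x i ≠ x (i + 1))
    (h4 : ∀ i, p i ≠ p (i + 1)) : False := by
  obtain ⟨i₀, hi₀⟩ := unique_color hk (fun i => p i 0) (fun i h =>
    h4 i (wr_point (h2 i) (h1 (i + 1)) h))
  exact wr_unique x p h1 h2 h3 i₀ hi₀

/-- Wenger's graph -/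
def WG (F : Type*) [Field F] (k : ℕ) : SimpleGraph (ZMod 2 × (Fin (k + 1) → F)) where
  Adj a b := (a.1 = 0 ∧ b.1 = 1 ∧ WR a.2 b.2) ∨ (a.1 = 1 ∧ b.1 = 0 ∧ WR b.2 a.2)
  symm := ⟨fun a b h => h.elim (fun h => Or.inr ⟨h.2.1, h.1, h.2.2⟩)
    (fun h => Or.inl ⟨h.2.1, h.1, h.2.2⟩)⟩
  loopless := ⟨fun a h => by
    rcases h with ⟨h1, h2, _⟩ | ⟨h1, h2, _⟩
    · rw [h1] at h2; exact absurd h2 (by decide)
    · rw [h1] at h2; exact absurd h2 (by decide)⟩

lemma wg_walk (hk : k = 1 ∨ k = 2 ∨ k = 4) (c : ℕ → ZMod 2 × (Fin (k + 1) → F))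
    (hadj : ∀ n, (WG F k).Adj (c n) (c (n + 1)))
    (hc : ∀ a b, c a = c b ↔ a % (2 * (k + 1)) = b % (2 * (k + 1))) (h0 : (c 0).1 = 1) :
    False := by
  have hside : ∀ n, (c (2 * n)).1 = 1 ∧ (c (2 * n + 1)).1 = 0 := by
    intro n
    have hstep : ∀ m, (c m).1 = 1 → (c (m + 1)).1 = 0 := by
      intro m hm
      rcases hadj m with h | h
      · rw [h.1] at hm; exact absurd hm (by decide)
      · exact h.2.1
    have hstep' : ∀ m, (c m).1 = 0 → (c (m + 1)).1 = 1 := by
      intro m hm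
      rcases hadj m with h | h
      · exact h.2.1
      · rw [h.1] at hm; exact absurd hm (by decide)
    induction n with
    | zero => exact ⟨h0, hstep _ h0⟩
    | succ n ih =>
      have h1 : (c (2 * (n + 1))).1 = 1 := hstep' _ ih.2
      exact ⟨h1, hstep _ h1⟩
  have hmod : ∀ i : Fin (k + 1), (2 * ((i + 1 : Fin (k + 1)) : ℕ)) % (2 * (k + 1)) =
      (2 * (i : ℕ) + 2) % (2 * (k + 1)) := by
    intro i
    rw [Fin.val_add]
    have h1 : ((1 : Fin (k + 1)) : ℕ) = 1 % (k + 1) := rfl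
    rw [h1, Nat.add_mod_mod, Nat.mul_mod_mul_left, Nat.mod_mod, ← Nat.mul_mod_mul_left]
    congr 1
  have hs : ∀ n i, (c n).1 = i → c n = (i, (c n).2) := fun n i h => by rw [← h]
  refine wr_cycle hk (fun i => (c (2 * (i : ℕ))).2) (fun i => (c (2 * (i : ℕ) + 1)).2)
    ?_ ?_ ?_ ?_
  · intro i
    rcases hadj (2 * (i : ℕ)) with h | h
    · rw [(hside i).1] at h; exact absurd h.1 (by decide)
    · exact h.2.2
  · intro i
    have e : c (2 * ((i + 1 : Fin (k + 1)) : ℕ)) = c (2 * (i : ℕ) + 2) := (hc _ _).2 (hmod i)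
    show WR (c (2 * (i : ℕ) + 1)).2 (c (2 * ((i + 1 : Fin (k + 1)) : ℕ))).2
    rw [e]
    rcases hadj (2 * (i : ℕ) + 1) with h | h
    · exact h.2.2
    · rw [(hside i).2] at h; exact absurd h.1 (by decide)
  · intro i h
    have h' : (c (2 * (i : ℕ))).2 = (c (2 * ((i + 1 : Fin (k + 1)) : ℕ))).2 := h
    have e : c (2 * (i : ℕ)) = c (2 * ((i + 1 : Fin (k + 1)) : ℕ)) :=
      Prod.ext ((hside i).1.trans (hside _).1.symm) h'
    have e2 := (hc _ _).1 e
    rw [hmod i] at e2
    have hi := i.2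
    rcases Nat.lt_or_ge (2 * (i : ℕ) + 2) (2 * (k + 1)) with h5 | h5
    · rw [Nat.mod_eq_of_lt h5, Nat.mod_eq_of_lt (by omega)] at e2
      omega
    · have h6 : 2 * (i : ℕ) + 2 = 2 * (k + 1) := by omega
      rw [h6, Nat.mod_self, Nat.mod_eq_of_lt (by omega)] at e2
      omega
  · intro i h
    have h' : (c (2 * (i : ℕ) + 1)).2 = (c (2 * ((i + 1 : Fin (k + 1)) : ℕ) + 1)).2 := h
    have e : c (2 * (i : ℕ) + 1) = c (2 * ((i + 1 : Fin (k + 1)) : ℕ) + 1) :=
      Prod.ext ((hside i).2.trans (hside _).2.symm) h'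
    have e2 := (hc _ _).1 e
    have e3 : (2 * ((i + 1 : Fin (k + 1)) : ℕ) + 1) % (2 * (k + 1)) =
        (2 * (i : ℕ) + 3) % (2 * (k + 1)) := by
      rw [Nat.add_mod, hmod i, ← Nat.add_mod]
    rw [e3] at e2
    have hi := i.2
    rcases Nat.lt_or_ge (2 * (i : ℕ) + 3) (2 * (k + 1)) with h5 | h5
    · rw [Nat.mod_eq_of_lt h5, Nat.mod_eq_of_lt (by omega)] at e2
      omega
    · have h6 : 2 * (i : ℕ) + 3 = 1 + 2 * (k + 1) := by omega
      rw [h6, Nat.add_mod_right, Nat.mod_eq_of_lt (by omega), Nat.mod_eq_of_lt (by omega)] at e2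
      omega

theorem wg_free (hk : k = 1 ∨ k = 2 ∨ k = 4) :
    (SimpleGraph.cycleGraph (2 * (k + 1))).Free (WG F k) := by
  rintro ⟨φ⟩
  have hpos : 0 < 2 * (k + 1) := by omega
  set c : ℕ → ZMod 2 × (Fin (k + 1) → F) := fun n => φ ⟨n % (2 * (k + 1)), Nat.mod_lt _ hpos⟩
    with hcdef
  have hc : ∀ a b, c a = c b ↔ a % (2 * (k + 1)) = b % (2 * (k + 1)) := by
    intro a b
    simp only [hcdef]
    constructor
    · intro h
      have := φ.injective h
      exact congrArg Fin.val this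
    · intro h
      have : (⟨a % (2 * (k + 1)), Nat.mod_lt _ hpos⟩ : Fin (2 * (k + 1))) =
        ⟨b % (2 * (k + 1)), Nat.mod_lt _ hpos⟩ := Fin.ext h
      rw [this]
  have hadj : ∀ n, (WG F k).Adj (c n) (c (n + 1)) := by
    intro n
    simp only [hcdef]
    apply φ.toHom.map_rel
    rw [SimpleGraph.cycleGraph_adj']
    right
    rw [Fin.sub_def]
    simp only
    have h1 : n % (2 * (k + 1)) < 2 * (k + 1) := Nat.mod_lt _ hpos
    have h2 : (n + 1) % (2 * (k + 1)) = (n % (2 * (k + 1)) + 1) % (2 * (k + 1)) := by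
      rw [Nat.mod_add_mod]
    rw [h2]
    set r := n % (2 * (k + 1)) with hr
    rcases Nat.lt_or_ge (r + 1) (2 * (k + 1)) with h | h
    · rw [Nat.mod_eq_of_lt h]
      have h3 : 2 * (k + 1) - r + (r + 1) = 1 + 2 * (k + 1) := by omega
      rw [h3, Nat.add_mod_right]
      exact Nat.mod_eq_of_lt (by omega)
    · have h4 : r + 1 = 2 * (k + 1) := by omega
      rw [h4, Nat.mod_self]
      have h3 : 2 * (k + 1) - r + 0 = 1 := by omega
      rw [h3]
      exact Nat.mod_eq_of_lt (by omega)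
  by_cases h0 : (c 0).1 = 1
  · exact wg_walk hk c hadj hc h0
  · have h1 : (c 1).1 = 1 := by
      rcases hadj 0 with h | h
      · exact h.2.1
      · exact absurd h.1 h0
    refine wg_walk hk (fun n => c (n + 1)) (fun n => hadj (n + 1)) ?_ h1
    intro a b
    rw [hc]
    constructor
    · intro h
      have := Nat.ModEq.add_right_cancel' 1 (show a + 1 ≡ b + 1 [MOD 2 * (k + 1)] from h)
      exact this
    · intro h
      exact Nat.ModEq.add_right 1 (show a ≡ b [MOD 2 * (k + 1)] from h)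

end WR

end Pool.Agent.W5h1.SL
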