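import Mathlib
import Pool.Agent.W5h1.SL.Post
import Pool.Agent.W5h1.SL.Wenger

/-!
# Graphs with affine neighbourhoods
-/

set_option autoImplicit false

namespace Pool.Agent.W5h1.SL

open Finset

section char2

variable {F : Type*} [Field F] [CharP F 2] {k : ℕ}

lemma add_three (a : F) : a + a + a = a := by
  rw [CharTwo.add_self_eq_zero, zero_add]

lemma wg_add (v a b c : ZMod 2 × (Fin (k + 1) → F)) (ha : (WG F k).Adj v a)
    (hb : (WG F k).Adj v b) (hc : (WG F k).Adj v c) : (WG F k).Adj v (a + b + c) := by
  rcases ha with ha | ha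
  · have hv := ha.1
    have hv' : v.1 ≠ 1 := by rw [hv]; decide
    have hb' := hb.resolve_right fun h => hv' h.1
    have hc' := hc.resolve_right fun h => hv' h.1
    left
    refine ⟨hv, ?_, ?_⟩
    · show a.1 + b.1 + c.1 = 1
      rw [ha.2.1, hb'.2.1, hc'.2.1]
      decide
    · intro j
      have e1 := ha.2.2 j
      have e2 := hb'.2.2 j
      have e3 := hc'.2.2 j
      have e4 := add_three (v.2 j.succ)
      show v.2 j.succ + (a.2 j.succ + b.2 j.succ + c.2 j.succ) =
        v.2 0 * (a.2 j.castSucc + b.2 j.castSucc + c.2 j.castSucc)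
      rw [mul_add, mul_add, ← e1, ← e2, ← e3]
      linear_combination - e4
  · have hv := ha.1
    have hv' : v.1 ≠ 0 := by rw [hv]; decide
    have hb' := hb.resolve_left fun h => hv' h.1
    have hc' := hc.resolve_left fun h => hv' h.1
    right
    refine ⟨hv, ?_, ?_⟩
    · show a.1 + b.1 + c.1 = 0
      rw [ha.2.1, hb'.2.1, hc'.2.1]
      decide
    · intro j
      have e1 := ha.2.2 j
      have e2 := hb'.2.2 j
      have e3 := hc'.2.2 j
      have e4 := add_three (v.2 j.succ)
      show a.2 j.succ + b.2 j.succ + c.2 j.succ + v.2 j.succ =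
        (a.2 0 + b.2 0 + c.2 0) * v.2 j.castSucc
      rw [add_mul, add_mul, ← e1, ← e2, ← e3]
      linear_combination - e4

end char2

/-- the number of edges -/
lemma wg_edges {F : Type*} [Field F] [Finite F] (k : ℕ) :
    Nat.card F ^ (k + 2) ≤ Nat.card (WG F k).edgeSet := by
  classical
  have : Fintype F := Fintype.ofFinite F
  choose ln h1 h2 using fun (p : Fin (k + 1) → F) (t : F) => exists_line p t
  let g : (Fin (k + 1) → F) × F → (WG F k).edgeSet := fun q =>
    ⟨s(((0 : ZMod 2), q.1), ((1 : ZMod 2), ln q.1 q.2)), by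
      rw [SimpleGraph.mem_edgeSet]
      exact Or.inl ⟨rfl, rfl, h1 q.1 q.2⟩⟩
  have hg : Function.Injective g := by
    intro q q' h
    have h3 : s(((0 : ZMod 2), q.1), ((1 : ZMod 2), ln q.1 q.2)) =
      s(((0 : ZMod 2), q'.1), ((1 : ZMod 2), ln q'.1 q'.2)) := congrArg Subtype.val h
    rw [Sym2.eq_iff] at h3
    rcases h3 with ⟨h4, h5⟩ | ⟨h4, h5⟩
    · have h6 : q.1 = q'.1 := congrArg Prod.snd h4
      have h7 : ln q.1 q.2 = ln q'.1 q'.2 := congrArg Prod.snd h5
      refine Prod.ext h6 ?_
      rw [← h2 q.1 q.2, h7, h2]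
    · have h6 : (0 : ZMod 2) = 1 := congrArg Prod.fst h4
      exact absurd h6 (by decide)
  have h3 := Nat.card_le_card_of_injective g hg
  refine le_trans (le_of_eq ?_) h3
  rw [Nat.card_prod, Nat.card_fun, Nat.card_eq_fintype_card (α := Fin (k + 1)), Fintype.card_fin]
  ring

/-- the bit as a number -/
def bz (b : Bool) : ZMod 2 := if b then 1 else 0

lemma bz_xor (a b c : Bool) : bz (xor a (xor b c)) = bz a + bz b + bz c := by
  cases a <;> cases b <;> cases c <;> decide

lemma bz_bij : Function.Bijective bz := by decide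

/-- closed under sums of three -/
def TriClosed {m : ℕ} (T : Set (Fin m → Bool)) : Prop :=
  ∀ x ∈ T, ∀ y ∈ T, ∀ z ∈ T, (fun i => xor (x i) (xor (y i) (z i))) ∈ T

open Classical in
lemma sum_closed {m l : ℕ} {T : Set (Fin m → Bool)} (hT : TriClosed T) (x : Fin l → Fin m → Bool) :
    ∀ (h : ℕ) (I : Finset (Fin l)), I.card = 2 * h + 1 → (∀ j ∈ I, x j ∈ T) →
      (fun i => decide ((I.filter (fun j => x j i = true)).card % 2 = 1)) ∈ T
  | 0, I, hI, hx => by
      obtain ⟨a, rfl⟩ := Finset.card_eq_one.1 hI
      have : (fun i => decide ((({a} : Finset (Fin l)).filter (fun j => x j i = true)).card % 2 = 1))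
          = x a := by
        funext i
        rw [Finset.filter_singleton]
        cases h : x a i <;> simp
      rw [this]
      exact hx a (Finset.mem_singleton_self a)
  | h + 1, I, hI, hx => by
      obtain ⟨a, ha⟩ : I.Nonempty := Finset.card_pos.1 (by omega)
      have h1 : (I.erase a).card = 2 * h + 2 := by rw [Finset.card_erase_of_mem ha]; omega
      obtain ⟨b, hb⟩ : (I.erase a).Nonempty := Finset.card_pos.1 (by omega)
      have h2 : ((I.erase a).erase b).card = 2 * h + 1 := by
        rw [Finset.card_erase_of_mem hb]; omega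
      have hbI : b ∈ I := Finset.mem_of_mem_erase hb
      have hab : b ≠ a := Finset.ne_of_mem_erase hb
      have h3 := sum_closed hT x h _ h2 (fun j hj => hx j
        (Finset.mem_of_mem_erase (Finset.mem_of_mem_erase hj)))
      have h4 := hT _ (hx a ha) _ (hx b hbI) _ h3
      convert h4 using 2 with i
      have hI' : I = insert a (insert b ((I.erase a).erase b)) := by
        rw [Finset.insert_erase hb, Finset.insert_erase ha]
      set J := (I.erase a).erase b with hJ
      have haJ : a ∉ insert b J := by
        rw [hJ, Finset.insert_erase hb]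
        simp
      have hbJ : b ∉ J := by rw [hJ]; simp
      rw [hI', Finset.filter_insert, Finset.filter_insert]
      have e1 : b ∉ J.filter (fun j => x j i = true) := fun h => hbJ (Finset.mem_filter.1 h).1
      have e2 : a ∉ J.filter (fun j => x j i = true) := fun h =>
        haJ (Finset.mem_insert_of_mem (Finset.mem_filter.1 h).1)
      have e3 : a ∉ insert b (J.filter (fun j => x j i = true)) := by
        rw [Finset.mem_insert, not_or]
        exact ⟨hab.symm, e2⟩
      set c := (J.filter (fun j => x j i = true)).card with hc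
      have hm : c % 2 = 0 ∨ c % 2 = 1 := Nat.mod_two_eq_zero_or_one c
      cases h5 : x a i <;> cases h6 : x b i
      · simp [← hc]
      · simp only [if_true, Bool.false_eq_true, if_false]
        rw [Finset.card_insert_of_notMem e1, ← hc]
        rcases hm with h | h
        · have : (c + 1) % 2 = 1 := by omega
          simp [h, this]
        · have : (c + 1) % 2 = 0 := by omega
          simp [h, this]
      · simp only [if_true, Bool.false_eq_true, if_false]
        rw [Finset.card_insert_of_notMem e2, ← hc]
        rcases hm with h | h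
        · have : (c + 1) % 2 = 1 := by omega
          simp [h, this]
        · have : (c + 1) % 2 = 0 := by omega
          simp [h, this]
      · simp only [if_true]
        rw [Finset.card_insert_of_notMem e3, Finset.card_insert_of_notMem e1, ← hc]
        rcases hm with h | h
        · have : (c + 1 + 1) % 2 = 0 := by omega
          simp [h, this]
        · have : (c + 1 + 1) % 2 = 1 := by omega
          simp [h, this]

lemma tri_bool {m l : ℕ} {f : (Fin l → Bool) → Bool} (hf1 : f (fun _ => true) = true)
    (hf : IsSum f) {T : Set (Fin m → Bool)} (hT : TriClosed T) : BoolClosed f T := by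
  classical
  obtain ⟨I, hI⟩ := hf
  have hodd : I.card % 2 = 1 := by
    rw [hI] at hf1
    simpa using hf1
  intro x hx
  have h1 := sum_closed hT x (I.card / 2) I (by omega) (fun j _ => hx j)
  have h2 : (fun i => f (fun j => x j i)) =
      (fun i => decide ((I.filter (fun j => x j i = true)).card % 2 = 1)) := by
    funext i
    rw [hI]
  rw [h2]
  exact h1

/-- **Graphs with affine neighbourhoods and the largest possible order of size.** -/
theorem sharp (k s : ℕ) (hk : k = 1 ∨ k = 2 ∨ k = 4) (hs : 1 ≤ s) :
    ∃ G : SimpleGraph (Fin ((k + 1) * s + 1) → Bool),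
      (SimpleGraph.cycleGraph (2 * (k + 1))).Free G ∧ (∀ x, TriClosed (G.neighborSet x)) ∧
      2 ^ ((k + 2) * s) ≤ Nat.card G.edgeSet := by
  classical
  set F := GaloisField 2 s with hF
  have hcard : Nat.card F = 2 ^ s := GaloisField.card 2 s (by omega)
  have : Finite F := Nat.finite_of_card_ne_zero (by rw [hcard]; positivity)
  set M := (k + 1) * s + 1 with hM
  have hW : Nat.card (ZMod 2 × (Fin (k + 1) → F)) = 2 ^ M := by
    rw [Nat.card_prod, Nat.card_fun, Nat.card_eq_fintype_card (α := Fin (k + 1)), Fintype.card_fin,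
      hcard, Nat.card_zmod, ← pow_mul, hM, pow_succ]
    ring
  have hfin : Finite (ZMod 2 × (Fin (k + 1) → F)) := inferInstance
  have hrank : Module.finrank (ZMod 2) (ZMod 2 × (Fin (k + 1) → F)) = M := by
    have h1 := Module.natCard_eq_pow_finrank (K := ZMod 2) (V := ZMod 2 × (Fin (k + 1) → F))
    rw [hW, Nat.card_zmod] at h1
    exact (Nat.pow_right_injective le_rfl h1).symm
  have hrank' : Module.finrank (ZMod 2) (Fin M → ZMod 2) = M := by simp
  obtain ⟨e⟩ : Nonempty ((Fin M → ZMod 2) ≃ₗ[ZMod 2] (ZMod 2 × (Fin (k + 1) → F))) :=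
    FiniteDimensional.nonempty_linearEquiv_of_finrank_eq (hrank'.trans hrank.symm)
  let φ : (Fin M → Bool) ≃ (ZMod 2 × (Fin (k + 1) → F)) :=
    (Equiv.piCongrRight fun _ => Equiv.ofBijective bz bz_bij).trans e.toEquiv
  have hφ : ∀ x y z : Fin M → Bool, φ (fun i => xor (x i) (xor (y i) (z i))) =
      φ x + φ y + φ z := by
    intro x y z
    show e (fun i => bz (xor (x i) (xor (y i) (z i)))) = e (fun i => bz (x i)) +
      e (fun i => bz (y i)) + e (fun i => bz (z i))
    rw [← map_add, ← map_add]
    congr 1
    funext i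
    exact bz_xor _ _ _
  refine ⟨(WG F k).comap φ, ?_, ?_, ?_⟩
  · intro h
    exact wg_free hk (h.trans ⟨⟨(SimpleGraph.Embedding.comap φ.toEmbedding (WG F k)).toHom,
      φ.injective⟩⟩)
  · intro v x hx y hy z hz
    show (WG F k).Adj (φ v) (φ _)
    rw [hφ]
    exact wg_add _ _ _ _ hx hy hz
  · have h1 := wg_edges (F := F) k
    rw [hcard, ← pow_mul, mul_comm s] at h1
    refine h1.trans (le_of_eq ?_)
    exact Nat.card_congr (SimpleGraph.Iso.comap φ (WG F k)).mapEdgeSet.symm

end Pool.Agent.W5h1.SL
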