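import Mathlib

/-!
# Random bilinear forms over the field with two elements
-/

set_option autoImplicit false

namespace Pool.Agent.W5h1.SL

open Finset

section forms

variable {W : Type*} [AddCommGroup W] [Module (ZMod 2) W]

/-- dual functionals of an independent family -/
lemma exists_dual {k : ℕ} {x : Fin k → W} (hx : LinearIndependent (ZMod 2) x) :
    ∃ g : W →ₗ[ZMod 2] (Fin k → ZMod 2), ∀ i j, g (x i) j = if i = j then 1 else 0 := by
  classical
  have hinj : LinearMap.ker (Fintype.linearCombination (ZMod 2) x) = ⊥ := by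
    rw [LinearMap.ker_eq_bot]
    exact linearIndependent_iff_injective_fintypeLinearCombination.1 hx
  obtain ⟨g, hg⟩ := LinearMap.exists_leftInverse_of_injective _ hinj
  refine ⟨g, fun i j => ?_⟩
  have h1 : Fintype.linearCombination (ZMod 2) x (Pi.single i 1) = x i := by
    rw [Fintype.linearCombination_apply_single, one_smul]
  rw [← h1, ← LinearMap.comp_apply, hg, LinearMap.id_apply, Pi.single_apply]
  by_cases h : i = j
  · rw [if_pos h, if_pos h.symm]
  · rw [if_neg h, if_neg fun h' => h h'.symm]

/-- the values of a bilinear form on two families -/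
def ev {k l : ℕ} (x : Fin k → W) (y : Fin l → W) :
    (W →ₗ[ZMod 2] W →ₗ[ZMod 2] ZMod 2) →ₗ[ZMod 2] (Fin k → Fin l → ZMod 2) where
  toFun f := fun i j => f (x i) (y j)
  map_add' f g := by
    funext i j
    rfl
  map_smul' c f := by
    funext i j
    rfl

lemma ev_surj {k l : ℕ} {x : Fin k → W} {y : Fin l → W} (hx : LinearIndependent (ZMod 2) x)
    (hy : LinearIndependent (ZMod 2) y) : Function.Surjective (ev x y) := by
  classical
  intro c
  obtain ⟨g, hg⟩ := exists_dual hx
  obtain ⟨h, hh⟩ := exists_dual hy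
  refine ⟨∑ s, ∑ t, c s t • ((LinearMap.proj s ∘ₗ g).smulRight (LinearMap.proj t ∘ₗ h)), ?_⟩
  funext i j
  show (∑ s, ∑ t, c s t • ((LinearMap.proj s ∘ₗ g).smulRight (LinearMap.proj t ∘ₗ h)))
    (x i) (y j) = c i j
  simp only [LinearMap.sum_apply, LinearMap.smul_apply, LinearMap.smulRight_apply,
    LinearMap.comp_apply, LinearMap.proj_apply, hg, hh, smul_eq_mul]
  rw [Finset.sum_eq_single i]
  · rw [Finset.sum_eq_single j]
    · simp
    · intro t _ ht
      rw [if_neg (Ne.symm ht)]
      simp
    · intro h
      exact absurd (Finset.mem_univ _) h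
  · intro s _ hs
    apply Finset.sum_eq_zero
    intro t _
    rw [if_neg (Ne.symm hs)]
    simp
  · intro h
    exact absurd (Finset.mem_univ _) h

instance finBil [Finite W] : Finite (W →ₗ[ZMod 2] W →ₗ[ZMod 2] ZMod 2) :=
  Finite.of_injective (fun f => fun (x y : W) => f x y) (fun f g h => by
    ext x y
    exact congrFun (congrFun h x) y)

/-- the fibres of a surjective homomorphism -/
lemma card_surj {G H : Type*} [AddCommGroup G] [AddCommGroup H] (E : G → H)
    (hadd : ∀ a b, E (a + b) = E a + E b) (hs : Function.Surjective E) :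
    Nat.card {g // E g = 0} * Nat.card H = Nat.card G := by
  have h0 : E 0 = 0 := by
    have := hadd 0 0
    rw [add_zero] at this
    exact left_eq_add.1 this
  have hneg : ∀ a, E (-a) = - E a := by
    intro a
    have := hadd a (-a)
    rw [add_neg_cancel, h0] at this
    exact (neg_eq_of_add_eq_zero_right this.symm).symm
  choose σ hσ using hs
  rw [← Nat.card_prod]
  apply Nat.card_congr
  refine ⟨fun p => p.1.1 + σ p.2, fun g => (⟨g + -σ (E g), ?_⟩, E g), ?_, ?_⟩
  · rw [hadd, hneg, hσ, add_neg_cancel]
  · rintro ⟨⟨k, hk⟩, h⟩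
    have h1 : E (k + σ h) = h := by rw [hadd, hk, hσ, zero_add]
    refine Prod.ext (Subtype.ext ?_) h1
    show k + σ h + -σ (E (k + σ h)) = k
    rw [h1]
    abel
  · intro g
    show g + -σ (E g) + σ (E g) = g
    abel

/-- the number of forms which vanish on two independent families -/
lemma card_zero [Finite W] {k l : ℕ} {x : Fin k → W} {y : Fin l → W}
    (hx : LinearIndependent (ZMod 2) x) (hy : LinearIndependent (ZMod 2) y) :
    Nat.card {f : W →ₗ[ZMod 2] W →ₗ[ZMod 2] ZMod 2 // ∀ i j, f (x i) (y j) = 0} * 2 ^ (k * l) =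
      Nat.card (W →ₗ[ZMod 2] W →ₗ[ZMod 2] ZMod 2) := by
  have h1 := card_surj (fun f => ev x y f) (fun a b => map_add (ev x y) a b) (ev_surj hx hy)
  have h2 : Nat.card (Fin k → Fin l → ZMod 2) = 2 ^ (k * l) := by
    rw [Nat.card_fun, Nat.card_fun, Nat.card_zmod, Nat.card_eq_fintype_card, Nat.card_eq_fintype_card,
      Fintype.card_fin, Fintype.card_fin, ← pow_mul, mul_comm]
  have h3 : Nat.card {f : W →ₗ[ZMod 2] W →ₗ[ZMod 2] ZMod 2 // ∀ i j, f (x i) (y j) = 0} =
      Nat.card {f : W →ₗ[ZMod 2] W →ₗ[ZMod 2] ZMod 2 // ev x y f = 0} := by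
    apply Nat.card_congr
    refine Equiv.subtypeEquivRight fun f => ?_
    constructor
    · intro h
      funext i j
      exact h i j
    · intro h i j
      exact congrFun (congrFun h i) j
  rw [← h1, h2, h3]

open Classical in
/-- the number of tuples of forms which vanish on two independent families -/
lemma card_zero_pow [Finite W] [Fintype (W →ₗ[ZMod 2] W →ₗ[ZMod 2] ZMod 2)] {k l : ℕ}
    (c : ℕ) {x : Fin k → W} {y : Fin l → W}
    (hx : LinearIndependent (ZMod 2) x) (hy : LinearIndependent (ZMod 2) y) :
    (univ.filter (fun ω : Fin c → (W →ₗ[ZMod 2] W →ₗ[ZMod 2] ZMod 2) =>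
      ∀ a i j, ω a (x i) (y j) = 0)).card * 2 ^ (c * (k * l)) =
      Fintype.card (Fin c → (W →ₗ[ZMod 2] W →ₗ[ZMod 2] ZMod 2)) := by
  have h1 := card_zero hx hy
  have h2 : (univ.filter (fun ω : Fin c → (W →ₗ[ZMod 2] W →ₗ[ZMod 2] ZMod 2) =>
      ∀ a i j, ω a (x i) (y j) = 0)) =
      Fintype.piFinset (fun _ => univ.filter (fun f => ∀ i j, f (x i) (y j) = 0)) := by
    ext ω
    simp only [Finset.mem_filter, Finset.mem_univ, true_and, Fintype.mem_piFinset]
  rw [h2, Fintype.card_piFinset, Finset.prod_const, Finset.card_univ, Fintype.card_fin,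
    Fintype.card_fun, Fintype.card_fin, mul_comm c, pow_mul, ← mul_pow]
  congr 1
  rw [Nat.card_eq_fintype_card, Nat.card_eq_fintype_card, Fintype.card_subtype] at h1
  exact h1

end forms

/-- the space of strings with an additional coordinate -/
abbrev WS (m : ℕ) : Type := (Fin m → ZMod 2) × ZMod 2

open Classical in
/-- many vectors with last coordinate one contain many independent ones -/
lemma exists_indep {m N a : ℕ} (f : Fin N → WS m) (hf : Function.Injective f)
    (h1 : ∀ i, (f i).2 = 1) (hN : 2 ^ a < 2 * N) :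
    ∃ e : Fin (a + 1) → Fin N, LinearIndependent (ZMod 2) (fun i => f (e i)) := by
  have hN0 : 0 < N := by
    have : 0 < 2 ^ a := by positivity
    omega
  obtain ⟨b, hb, hspan, hli⟩ := exists_linearIndependent (ZMod 2) (Set.range f)
  have hbfin : Finite b := Set.Finite.subset (Set.finite_range f) hb
  have hbF : Fintype b := Fintype.ofFinite b
  set S := Submodule.span (ZMod 2) (Set.range f) with hS
  have hrank : Module.finrank (ZMod 2) S = Fintype.card b := by
    rw [← hspan]
    have := finrank_span_eq_card hli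
    rwa [Subtype.range_coe] at this
  have hcard : Nat.card S = 2 ^ Fintype.card b := by
    rw [← hrank, Module.natCard_eq_pow_finrank (K := ZMod 2), Nat.card_zmod]
  have hlow : 2 * N ≤ Nat.card S := by
    let g : Fin N ⊕ Fin N → S := Sum.elim
      (fun i => ⟨f i, Submodule.subset_span ⟨i, rfl⟩⟩)
      (fun i => ⟨f i + f ⟨0, hN0⟩, Submodule.add_mem _ (Submodule.subset_span ⟨i, rfl⟩)
        (Submodule.subset_span ⟨_, rfl⟩)⟩)
    have hg : Function.Injective g := by
      intro i j hij
      have hij' : (g i : WS m) = g j := congrArg Subtype.val hij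
      cases i with
      | inl i =>
        cases j with
        | inl j => exact congrArg Sum.inl (hf hij')
        | inr j =>
          exfalso
          have h2 : (f i).2 = (f j).2 + (f ⟨0, hN0⟩).2 := congrArg Prod.snd hij'
          rw [h1, h1, h1] at h2
          exact absurd h2 (by decide)
      | inr i =>
        cases j with
        | inl j =>
          exfalso
          have h2 : (f i).2 + (f ⟨0, hN0⟩).2 = (f j).2 := congrArg Prod.snd hij'
          rw [h1, h1, h1] at h2
          exact absurd h2 (by decide)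
        | inr j =>
          have h3 : f i + f ⟨0, hN0⟩ = f j + f ⟨0, hN0⟩ := hij'
          exact congrArg Sum.inr (hf (add_right_cancel h3))
    have := Nat.card_le_card_of_injective g hg
    rw [Nat.card_sum, Nat.card_eq_fintype_card, Fintype.card_fin] at this
    omega
  have hab : a + 1 ≤ Fintype.card b := by
    rw [hcard] at hlow
    have : 2 ^ a < 2 ^ Fintype.card b := by omega
    exact (Nat.pow_lt_pow_iff_right (by norm_num)).1 this
  obtain ⟨ι⟩ : Nonempty (Fin (a + 1) ↪ b) := by
    apply Function.Embedding.nonempty_of_card_le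
    rwa [Fintype.card_fin]
  choose e he using fun i : Fin (a + 1) => hb (ι i).2
  refine ⟨e, ?_⟩
  have h2 : (fun i => f (e i)) = fun i => ((ι i : b) : WS m) := funext he
  rw [h2]
  exact hli.comp ι ι.injective

end Pool.Agent.W5h1.SL
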