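import Mathlib
import Pool.Agent.W5h1.SL.Rand
import Pool.Agent.W5h1.SL.Sharp

/-!
# Graphs with affine neighbourhoods from random bilinear forms
-/

set_option autoImplicit false

namespace Pool.Agent.W5h1.SL

open Finset

/-- the vector of a string -/
def wv {m : ℕ} (z : Fin m → Bool) : WS m := (fun i => bz (z i), 1)

lemma wv_inj {m : ℕ} : Function.Injective (wv (m := m)) := by
  intro z z' h
  have h1 : (fun i => bz (z i)) = fun i => bz (z' i) := congrArg Prod.fst h
  funext i
  exact bz_bij.injective (congrFun h1 i)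

/-- the bilinear forms -/
abbrev Bil (m : ℕ) : Type := WS m →ₗ[ZMod 2] WS m →ₗ[ZMod 2] ZMod 2

noncomputable instance (m : ℕ) : Fintype (Bil m) := Fintype.ofFinite _

open Classical in
/-- number of independent pairs of families on which the forms vanish -/
noncomputable def bad (m k l c : ℕ) (ω : Fin c → Bil m) : ℕ :=
  (univ.filter (fun p : (Fin k → Fin m → Bool) × (Fin l → Fin m → Bool) =>
    (LinearIndependent (ZMod 2) (fun i => wv (p.1 i)) ∧
      LinearIndependent (ZMod 2) (fun j => wv (p.2 j))) ∧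
    ∀ a i j, ω a (wv (p.1 i)) (wv (p.2 j)) = 0)).card

open Classical in
/-- number of pairs -/
noncomputable def edn (m c : ℕ) (ω : Fin c → Bil m) : ℕ :=
  (univ.filter (fun p : (Fin m → Bool) × (Fin m → Bool) =>
    ∀ a, ω a (wv p.1) (wv p.2) = 0)).card

open Classical in
lemma sum_bad (m k l c : ℕ) :
    (∑ ω : Fin c → Bil m, bad m k l c ω) * 2 ^ (c * (k * l)) ≤
      2 ^ (m * (k + l)) * Fintype.card (Fin c → Bil m) := by
  have h1 : ∑ ω : Fin c → Bil m, bad m k l c ω =
      ∑ p ∈ univ.filter (fun p : (Fin k → Fin m → Bool) × (Fin l → Fin m → Bool) =>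
        LinearIndependent (ZMod 2) (fun i => wv (p.1 i)) ∧
        LinearIndependent (ZMod 2) (fun j => wv (p.2 j))),
        (univ.filter (fun ω : Fin c → Bil m => ∀ a i j, ω a (wv (p.1 i)) (wv (p.2 j)) = 0)).card := by
    simp only [bad, Finset.card_filter, Finset.sum_filter]
    rw [Finset.sum_comm]
    refine Finset.sum_congr rfl fun p _ => ?_
    by_cases hp : LinearIndependent (ZMod 2) (fun i => wv (p.1 i)) ∧
      LinearIndependent (ZMod 2) (fun j => wv (p.2 j))
    · rw [if_pos hp]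
      refine Finset.sum_congr rfl fun ω _ => ?_
      by_cases hω : ∀ a i j, ω a (wv (p.1 i)) (wv (p.2 j)) = 0
      · rw [if_pos ⟨hp, hω⟩, if_pos hω]
      · rw [if_neg fun h => hω h.2, if_neg hω]
    · rw [if_neg hp]
      refine Finset.sum_eq_zero fun ω _ => ?_
      rw [if_neg fun h => hp h.1]
  rw [h1, Finset.sum_mul]
  calc ∑ p ∈ univ.filter (fun p : (Fin k → Fin m → Bool) × (Fin l → Fin m → Bool) =>
        LinearIndependent (ZMod 2) (fun i => wv (p.1 i)) ∧
        LinearIndependent (ZMod 2) (fun j => wv (p.2 j))),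
        (univ.filter (fun ω : Fin c → Bil m =>
          ∀ a i j, ω a (wv (p.1 i)) (wv (p.2 j)) = 0)).card * 2 ^ (c * (k * l))
      ≤ ∑ _p ∈ univ.filter (fun p : (Fin k → Fin m → Bool) × (Fin l → Fin m → Bool) =>
        LinearIndependent (ZMod 2) (fun i => wv (p.1 i)) ∧
        LinearIndependent (ZMod 2) (fun j => wv (p.2 j))),
        Fintype.card (Fin c → Bil m) := by
        apply Finset.sum_le_sum
        intro p hp
        have hp' := (Finset.mem_filter.1 hp).2
        exact le_of_eq (card_zero_pow c hp'.1 hp'.2)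
    _ ≤ Fintype.card ((Fin k → Fin m → Bool) × (Fin l → Fin m → Bool)) *
          Fintype.card (Fin c → Bil m) := by
        rw [Finset.sum_const, smul_eq_mul]
        exact Nat.mul_le_mul_right _ (Finset.card_le_univ _)
    _ = _ := by
        congr 1
        have hcf : ∀ k : ℕ, Fintype.card (Fin k → Fin m → Bool) = 2 ^ (m * k) := by
          intro k
          simp [pow_mul]
        rw [Fintype.card_prod, hcf, hcf, ← pow_add, mul_add]

lemma wv_indep {m : ℕ} (z : Fin m → Bool) :
    LinearIndependent (ZMod 2) (fun _ : Fin 1 => wv z) := by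
  have : (fun _ : Fin 1 => wv z) = fun _ : Fin 1 => wv z := rfl
  rw [linearIndependent_unique_iff]
  intro h
  have h1 : (wv z).2 = 0 := congrArg Prod.snd h
  have h2 : (wv z).2 = 1 := rfl
  rw [h2] at h1
  exact absurd h1 (by decide)

open Classical in
lemma sum_edn (m c : ℕ) :
    (∑ ω : Fin c → Bil m, edn m c ω) * 2 ^ c = 2 ^ (2 * m) * Fintype.card (Fin c → Bil m) := by
  have h1 : ∑ ω : Fin c → Bil m, edn m c ω =
      ∑ p : (Fin m → Bool) × (Fin m → Bool),
        (univ.filter (fun ω : Fin c → Bil m => ∀ a, ω a (wv p.1) (wv p.2) = 0)).card := by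
    simp only [edn, Finset.card_filter]
    rw [Finset.sum_comm]
  rw [h1, Finset.sum_mul]
  have h2 : ∀ p : (Fin m → Bool) × (Fin m → Bool),
      (univ.filter (fun ω : Fin c → Bil m => ∀ a, ω a (wv p.1) (wv p.2) = 0)).card * 2 ^ c =
        Fintype.card (Fin c → Bil m) := by
    intro p
    have h3 := card_zero_pow c (wv_indep p.1) (wv_indep p.2)
    rw [mul_one, mul_one] at h3
    rw [← h3]
    congr 2
    ext ω
    simp
  simp only [h2]
  rw [Finset.sum_const, smul_eq_mul, Finset.card_univ, Fintype.card_prod, Fintype.card_fun,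
    Fintype.card_bool, Fintype.card_fin, ← pow_add, two_mul]

lemma edn_le (m c : ℕ) (ω : Fin c → Bil m) : edn m c ω ≤ 2 ^ (2 * m) := by
  classical
  refine (Finset.card_le_univ _).trans (le_of_eq ?_)
  rw [Fintype.card_prod, Fintype.card_fun, Fintype.card_bool, Fintype.card_fin, ← pow_add, two_mul]

/-- **Good forms exist.** -/
theorem exists_forms (m k l c : ℕ) (h : c + 2 + m * (k + l) ≤ c * (k * l)) :
    ∃ ω : Fin c → Bil m, bad m k l c ω = 0 ∧ bad m l k c ω = 0 ∧
      2 ^ (2 * m) ≤ 2 ^ (c + 1) * edn m c ω := by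
  by_contra hcon
  push Not at hcon
  have hpt : ∀ ω : Fin c → Bil m, 2 ^ (c + 1) * edn m c ω <
      2 ^ (2 * m) + 2 ^ (c + 1) * 2 ^ (2 * m) * (bad m k l c ω + bad m l k c ω) := by
    intro ω
    by_cases h1 : bad m k l c ω = 0 ∧ bad m l k c ω = 0
    · exact lt_of_lt_of_le (hcon ω h1.1 h1.2) (Nat.le_add_right _ _)
    · have h2 : 1 ≤ bad m k l c ω + bad m l k c ω := by
        by_contra h3
        exact h1 ⟨by omega, by omega⟩
      calc 2 ^ (c + 1) * edn m c ω ≤ 2 ^ (c + 1) * 2 ^ (2 * m) :=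
            Nat.mul_le_mul_left _ (edn_le m c ω)
        _ ≤ 2 ^ (c + 1) * 2 ^ (2 * m) * (bad m k l c ω + bad m l k c ω) :=
            Nat.le_mul_of_pos_right _ h2
        _ < _ := Nat.lt_add_of_pos_left (by positivity)
  have hsum := Finset.sum_lt_sum_of_nonempty (s := (univ : Finset (Fin c → Bil m)))
    Finset.univ_nonempty fun ω _ => hpt ω
  rw [← Finset.mul_sum, Finset.sum_add_distrib, Finset.sum_const, smul_eq_mul, Finset.card_univ,
    ← Finset.mul_sum, Finset.sum_add_distrib] at hsum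
  set O := Fintype.card (Fin c → Bil m) with hO
  have hO0 : 0 < O := Fintype.card_pos
  set E := ∑ ω : Fin c → Bil m, edn m c ω with hE
  set B₁ := ∑ ω : Fin c → Bil m, bad m k l c ω with hB₁
  set B₂ := ∑ ω : Fin c → Bil m, bad m l k c ω with hB₂
  have e1 : E * 2 ^ c = 2 ^ (2 * m) * O := sum_edn m c
  have e2 : B₁ * 2 ^ (c * (k * l)) ≤ 2 ^ (m * (k + l)) * O := sum_bad m k l c
  have e3 : B₂ * 2 ^ (c * (k * l)) ≤ 2 ^ (m * (k + l)) * O := by
    have := sum_bad m l k c
    rwa [mul_comm l k, add_comm l k] at this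
  have e4 : 2 ^ (c + 1) * E = 2 * (2 ^ (2 * m) * O) := by rw [← e1, pow_succ]; ring
  rw [e4] at hsum
  have e5 : 2 ^ (2 * m) * O < 2 ^ (2 * m) * (2 ^ (c + 1) * (B₁ + B₂)) := by
    have : 2 ^ (2 * m) * (2 ^ (c + 1) * (B₁ + B₂)) = 2 ^ (c + 1) * 2 ^ (2 * m) * (B₁ + B₂) := by
      ring
    rw [this]
    have e6 : O * 2 ^ (2 * m) = 2 ^ (2 * m) * O := mul_comm _ _
    omega
  have e6 : O < 2 ^ (c + 1) * (B₁ + B₂) := lt_of_mul_lt_mul_left e5 (Nat.zero_le _)
  have e7 : O * 2 ^ (c * (k * l)) < O * 2 ^ (c + 2 + m * (k + l)) := by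
    calc O * 2 ^ (c * (k * l)) < 2 ^ (c + 1) * (B₁ + B₂) * 2 ^ (c * (k * l)) :=
          Nat.mul_lt_mul_of_pos_right e6 (by positivity)
      _ = 2 ^ (c + 1) * (B₁ * 2 ^ (c * (k * l)) + B₂ * 2 ^ (c * (k * l))) := by ring
      _ ≤ 2 ^ (c + 1) * (2 ^ (m * (k + l)) * O + 2 ^ (m * (k + l)) * O) :=
          Nat.mul_le_mul_left _ (Nat.add_le_add e2 e3)
      _ = O * 2 ^ (c + 2 + m * (k + l)) := by rw [pow_add, pow_add, pow_add]; ring
  have e8 : 2 ^ (c * (k * l)) < 2 ^ (c + 2 + m * (k + l)) := lt_of_mul_lt_mul_left e7 (Nat.zero_le _)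
  have e9 := (Nat.pow_lt_pow_iff_right (by norm_num)).1 e8
  omega

/-- the string without its first bit -/
def tl {m : ℕ} (v : Fin (m + 1) → Bool) : Fin m → Bool := fun i => v i.succ

lemma tl_inj {m : ℕ} {v v' : Fin (m + 1) → Bool} (h0 : v 0 = v' 0) (h : tl v = tl v') : v = v' := by
  funext i
  exact Fin.cases h0 (fun i => congrFun h i) i

/-- the graph of a family of forms -/
def RG {m c : ℕ} (ω : Fin c → Bil m) : SimpleGraph (Fin (m + 1) → Bool) where
  Adj v v' := (v 0 = false ∧ v' 0 = true ∧ ∀ a, ω a (wv (tl v)) (wv (tl v')) = 0) ∨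
    (v 0 = true ∧ v' 0 = false ∧ ∀ a, ω a (wv (tl v')) (wv (tl v)) = 0)
  symm := ⟨fun v v' h => h.elim (fun h => Or.inr ⟨h.2.1, h.1, h.2.2⟩)
    (fun h => Or.inl ⟨h.2.1, h.1, h.2.2⟩)⟩
  loopless := ⟨fun v h => by
    rcases h with ⟨h1, h2, _⟩ | ⟨h1, h2, _⟩
    · rw [h1] at h2; exact absurd h2 (by decide)
    · rw [h1] at h2; exact absurd h2 (by decide)⟩

lemma wv_xor {m : ℕ} (x y z : Fin m → Bool) :
    wv (fun i => xor (x i) (xor (y i) (z i))) = wv x + wv y + wv z := by
  refine Prod.ext ?_ ?_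
  · funext i
    exact bz_xor _ _ _
  · show (1 : ZMod 2) = 1 + 1 + 1
    decide

lemma rg_tri {m c : ℕ} (ω : Fin c → Bil m) (v : Fin (m + 1) → Bool) :
    TriClosed ((RG ω).neighborSet v) := by
  intro x hx y hy z hz
  have hx' : (RG ω).Adj v x := hx
  have hy' : (RG ω).Adj v y := hy
  have hz' : (RG ω).Adj v z := hz
  rw [SimpleGraph.mem_neighborSet]
  have htl : tl (fun i => xor (x i) (xor (y i) (z i))) =
      fun i => xor (tl x i) (xor (tl y i) (tl z i)) := rfl
  rcases hx' with hx' | hx'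
  · have hv : v 0 ≠ true := by rw [hx'.1]; decide
    have hy'' := hy'.resolve_right fun h => hv h.1
    have hz'' := hz'.resolve_right fun h => hv h.1
    refine Or.inl ⟨hx'.1, ?_, fun a => ?_⟩
    · show xor (x 0) (xor (y 0) (z 0)) = true
      rw [hx'.2.1, hy''.2.1, hz''.2.1]
      rfl
    · rw [htl, wv_xor, map_add, map_add, hx'.2.2, hy''.2.2, hz''.2.2]
      simp
  · have hv : v 0 ≠ false := by rw [hx'.1]; decide
    have hy'' := hy'.resolve_left fun h => hv h.1
    have hz'' := hz'.resolve_left fun h => hv h.1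
    refine Or.inr ⟨hx'.1, ?_, fun a => ?_⟩
    · show xor (x 0) (xor (y 0) (z 0)) = false
      rw [hx'.2.1, hy''.2.1, hz''.2.1]
      rfl
    · rw [htl, wv_xor, map_add, map_add, LinearMap.add_apply, LinearMap.add_apply, hx'.2.2,
        hy''.2.2, hz''.2.2]
      simp

lemma rg_edges {m c : ℕ} (ω : Fin c → Bil m) : edn m c ω ≤ Nat.card (RG ω).edgeSet := by
  classical
  let cn : Bool → (Fin m → Bool) → (Fin (m + 1) → Bool) := fun b z => Fin.cons b z
  have hc0 : ∀ b z, cn b z 0 = b := fun b z => rfl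
  have htl : ∀ b z, tl (cn b z) = z := fun b z => rfl
  let g : {p : (Fin m → Bool) × (Fin m → Bool) // ∀ a, ω a (wv p.1) (wv p.2) = 0} →
      (RG ω).edgeSet := fun p => ⟨s(cn false p.1.1, cn true p.1.2), by
        rw [SimpleGraph.mem_edgeSet]
        refine Or.inl ⟨rfl, rfl, ?_⟩
        rw [htl, htl]
        exact p.2⟩
  have hg : Function.Injective g := by
    intro p p' h
    have h3 : s(cn false p.1.1, cn true p.1.2) = s(cn false p'.1.1, cn true p'.1.2) :=
      congrArg Subtype.val h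
    rw [Sym2.eq_iff] at h3
    rcases h3 with ⟨h4, h5⟩ | ⟨h4, h5⟩
    · have h6 := congrArg tl h4
      have h7 := congrArg tl h5
      rw [htl, htl] at h6 h7
      exact Subtype.ext (Prod.ext h6 h7)
    · have h6 := congrFun h4 0
      rw [hc0, hc0] at h6
      exact absurd h6 (by decide)
  have h1 := Nat.card_le_card_of_injective g hg
  refine le_trans (le_of_eq ?_) h1
  rw [Nat.card_eq_fintype_card, Fintype.card_subtype]
  rfl

/-- a side of a complete bipartite subgraph gives independent vectors -/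
lemma side_indep {m N a : ℕ} (f : Fin N → Fin (m + 1) → Bool) (hf : Function.Injective f) {b : Bool}
    (hb : ∀ i, f i 0 = b) (hN : 2 ^ a < 2 * N) :
    ∃ e : Fin (a + 1) → Fin N, LinearIndependent (ZMod 2) (fun i => wv (tl (f (e i)))) := by
  refine exists_indep (fun i => wv (tl (f i))) ?_ (fun _ => rfl) hN
  intro i j hij
  exact hf (tl_inj ((hb i).trans (hb j).symm) (wv_inj hij))

theorem rg_free {m c k l s t : ℕ} {ω : Fin c → Bil m} (h1 : bad m (k + 1) (l + 1) c ω = 0)
    (h2 : bad m (l + 1) (k + 1) c ω = 0) (hs : 2 ^ l < 2 * s) (ht : 2 ^ k < 2 * t) :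
    (completeBipartiteGraph (Fin s) (Fin t)).Free (RG ω) := by
  classical
  rintro ⟨φ⟩
  have hadj : ∀ (i : Fin s) (j : Fin t), (RG ω).Adj (φ (Sum.inl i)) (φ (Sum.inr j)) := by
    intro i j
    apply φ.toHom.map_rel
    simp [completeBipartiteGraph]
  have hs0 : 0 < s := by
    have : 0 < 2 ^ l := by positivity
    omega
  have ht0 : 0 < t := by
    have : 0 < 2 ^ k := by positivity
    omega
  have hinl : Function.Injective (fun i : Fin s => φ (Sum.inl i)) := fun i j h =>
    Sum.inl_injective (φ.injective h)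
  have hinr : Function.Injective (fun i : Fin t => φ (Sum.inr i)) := fun i j h =>
    Sum.inr_injective (φ.injective h)
  have hbad : ∀ (k l : ℕ), bad m k l c ω = 0 → ∀ (x : Fin k → Fin m → Bool) (y : Fin l → Fin m → Bool),
      LinearIndependent (ZMod 2) (fun i => wv (x i)) →
      LinearIndependent (ZMod 2) (fun i => wv (y i)) →
      (∀ a i j, ω a (wv (x i)) (wv (y j)) = 0) → False := by
    intro k l hb x y hx hy hxy
    rw [bad, Finset.card_eq_zero] at hb
    have : (x, y) ∈ (univ.filter (fun p : (Fin k → Fin m → Bool) × (Fin l → Fin m → Bool) =>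
        (LinearIndependent (ZMod 2) (fun i => wv (p.1 i)) ∧
          LinearIndependent (ZMod 2) (fun j => wv (p.2 j))) ∧
        ∀ a i j, ω a (wv (p.1 i)) (wv (p.2 j)) = 0)) :=
      Finset.mem_filter.2 ⟨Finset.mem_univ _, ⟨hx, hy⟩, hxy⟩
    rw [hb] at this
    exact absurd this (Finset.notMem_empty _)
  have h00 := hadj ⟨0, hs0⟩ ⟨0, ht0⟩
  by_cases hside : φ (Sum.inl ⟨0, hs0⟩) 0 = false
  · have hr : ∀ j, φ (Sum.inr j) 0 = true := by
      intro j
      rcases hadj ⟨0, hs0⟩ j with h | h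
      · exact h.2.1
      · rw [hside] at h; exact absurd h.1 (by decide)
    have hl : ∀ i, φ (Sum.inl i) 0 = false := by
      intro i
      rcases hadj i ⟨0, ht0⟩ with h | h
      · exact h.1
      · rw [hr] at h; exact absurd h.2.1 (by decide)
    obtain ⟨e, he⟩ := side_indep _ hinl hl hs
    obtain ⟨e', he'⟩ := side_indep _ hinr hr ht
    refine hbad (l + 1) (k + 1) h2 _ _ he he' fun a i j => ?_
    rcases hadj (e i) (e' j) with h | h
    · exact h.2.2 a
    · rw [hl] at h; exact absurd h.1 (by decide)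
  · have hside' : φ (Sum.inl ⟨0, hs0⟩) 0 = true := by
      cases h : φ (Sum.inl ⟨0, hs0⟩) 0
      · exact absurd h hside
      · rfl
    have hr : ∀ j, φ (Sum.inr j) 0 = false := by
      intro j
      rcases hadj ⟨0, hs0⟩ j with h | h
      · rw [hside'] at h; exact absurd h.1 (by decide)
      · exact h.2.1
    have hl : ∀ i, φ (Sum.inl i) 0 = true := by
      intro i
      rcases hadj i ⟨0, ht0⟩ with h | h
      · rw [hr] at h; exact absurd h.2.1 (by decide)
      · exact h.1
    obtain ⟨e, he⟩ := side_indep _ hinl hl hs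
    obtain ⟨e', he'⟩ := side_indep _ hinr hr ht
    refine hbad (k + 1) (l + 1) h1 _ _ he' he fun a i j => ?_
    rcases hadj (e j) (e' i) with h | h
    · rw [hl] at h; exact absurd h.1 (by decide)
    · exact h.2.2 a

/-- **Graphs with affine neighbourhoods without complete bipartite subgraphs.** -/
theorem affine_graph (m k l c s t : ℕ) (h : c + 2 + m * (k + 1 + (l + 1)) ≤ c * ((k + 1) * (l + 1)))
    (hs : 2 ^ l < 2 * s) (ht : 2 ^ k < 2 * t) :
    ∃ G : SimpleGraph (Fin (m + 1) → Bool), (completeBipartiteGraph (Fin s) (Fin t)).Free G ∧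
      (∀ v, TriClosed (G.neighborSet v)) ∧ 2 ^ (2 * m) ≤ 2 ^ (c + 1) * Nat.card G.edgeSet := by
  obtain ⟨ω, h1, h2, h3⟩ := exists_forms m (k + 1) (l + 1) c h
  exact ⟨RG ω, rg_free h1 h2 hs ht, rg_tri ω, h3.trans (Nat.mul_le_mul_left _ (rg_edges ω))⟩

end Pool.Agent.W5h1.SL
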