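import Mathlib

/-!
# Affine subspaces over the field with two elements: counting independent tuples
-/

set_option autoImplicit false

namespace Pool.Agent.W5h1.SL

open Finset

section tri

variable {Γ : Type*} [AddCommGroup Γ] [DecidableEq Γ]

/-- the span of a list -/
def sp : List Γ → Finset Γ
  | [] => {0}
  | h :: hs => sp hs ∪ (sp hs).image (fun x => h + x)

/-- independence of a list -/
def Ind : List Γ → Prop
  | [] => True
  | h :: hs => h ∉ sp hs ∧ Ind hs

lemma sp_le : ∀ hs : List Γ, (sp hs).card ≤ 2 ^ hs.length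
  | [] => by simp [sp]
  | h :: hs => by
      rw [sp, List.length_cons, pow_succ]
      have h1 := sp_le hs
      have h2 : ((sp hs).image (fun x => h + x)).card ≤ (sp hs).card := Finset.card_image_le
      have h3 := Finset.card_union_le (sp hs) ((sp hs).image (fun x => h + x))
      omega

lemma zero_mem_sp : ∀ hs : List Γ, (0 : Γ) ∈ sp hs
  | [] => by simp [sp]
  | h :: hs => by
      rw [sp]
      exact Finset.mem_union_left _ (zero_mem_sp hs)

lemma sp_add (h2 : ∀ x : Γ, x + x = 0) : ∀ (hs : List Γ), ∀ a ∈ sp hs, ∀ b ∈ sp hs, a + b ∈ sp hs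
  | [], a, ha, b, hb => by
      rw [sp, Finset.mem_singleton] at ha hb
      rw [ha, hb, sp]
      simp
  | h :: hs, a, ha, b, hb => by
      rw [sp, Finset.mem_union, Finset.mem_image] at ha hb
      rw [sp, Finset.mem_union, Finset.mem_image]
      rcases ha with ha | ⟨a', ha, rfl⟩ <;> rcases hb with hb | ⟨b', hb, rfl⟩
      · exact Or.inl (sp_add h2 hs a ha b hb)
      · exact Or.inr ⟨a + b', sp_add h2 hs a ha b' hb, by abel⟩
      · exact Or.inr ⟨a' + b, sp_add h2 hs a' ha b hb, by abel⟩
      · left
        have : h + a' + (h + b') = (h + h) + (a' + b') := by abel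
        rw [this, h2, zero_add]
        exact sp_add h2 hs a' ha b' hb

lemma sp_card (h2 : ∀ x : Γ, x + x = 0) : ∀ (hs : List Γ), Ind hs → (sp hs).card = 2 ^ hs.length
  | [], _ => by simp [sp]
  | h :: hs, hi => by
      rw [sp, Finset.card_union_of_disjoint, Finset.card_image_of_injective _
        (add_right_injective h), sp_card h2 hs hi.2, List.length_cons, pow_succ]
      · ring
      · rw [Finset.disjoint_left]
        intro z hz hz'
        obtain ⟨x, hx, rfl⟩ := Finset.mem_image.1 hz'
        apply hi.1
        have h3 := sp_add h2 hs _ hz _ hx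
        rwa [add_assoc, h2, add_zero] at h3

/-- number of independent extensions -/
def cnt (D : Finset Γ) : ℕ → List Γ → ℕ
  | 0, _ => 1
  | k + 1, hs => ∑ h ∈ D \ sp hs, cnt D k (h :: hs)

lemma cnt_ge (D : Finset Γ) : ∀ (k : ℕ) (hs : List Γ),
    (∏ i ∈ Finset.range k, (D.card - 2 ^ (hs.length + i))) ≤ cnt D k hs
  | 0, hs => by simp [cnt]
  | k + 1, hs => by
      rw [Finset.prod_range_succ', cnt]
      have h1 : ∀ h ∈ D \ sp hs, (∏ i ∈ Finset.range k, (D.card - 2 ^ (hs.length + (i + 1)))) ≤
          cnt D k (h :: hs) := by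
        intro h _
        have h3 := cnt_ge D k (h :: hs)
        rw [List.length_cons] at h3
        refine le_trans (le_of_eq ?_) h3
        refine Finset.prod_congr rfl fun i _ => ?_
        congr 2
        ring
      have h2 : D.card - 2 ^ (hs.length + 0) ≤ (D \ sp hs).card := by
        have := Finset.le_card_sdiff (sp hs) D
        have h4 := sp_le hs
        rw [add_zero]
        omega
      calc (∏ i ∈ Finset.range k, (D.card - 2 ^ (hs.length + (i + 1)))) *
            (D.card - 2 ^ (hs.length + 0))
          ≤ (∏ i ∈ Finset.range k, (D.card - 2 ^ (hs.length + (i + 1)))) * (D \ sp hs).card :=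
            Nat.mul_le_mul_left _ h2
        _ = ∑ _h ∈ D \ sp hs, (∏ i ∈ Finset.range k, (D.card - 2 ^ (hs.length + (i + 1)))) := by
            rw [Finset.sum_const, smul_eq_mul, mul_comm]
        _ ≤ _ := Finset.sum_le_sum h1

variable [Fintype Γ]

/-- the affine subspace -/
def fl (y : Γ) (hs : List Γ) : Finset Γ := (sp hs).image (fun x => y + x)

lemma fl_count (h2 : ∀ x : Γ, x + x = 0) {ι : Type*} {a u : ℕ} (X : Finset ι)
    (T : ι → Finset Γ) (hT : ∀ x ∈ X, ∀ b ∈ T x, ∀ c ∈ T x, ∀ d ∈ T x, b + c + d ∈ T x)
    (hfree : ∀ (Y : Finset Γ) (X' : Finset ι), X' ⊆ X → Y.card = 2 ^ a →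
      (∀ x ∈ X', ∀ y ∈ Y, y ∈ T x) → X'.card ≤ u) :
    ∀ (k : ℕ) (hs : List Γ), Ind hs → hs.length + k = a →
      ∑ x ∈ X, ∑ y ∈ univ.filter (fun y => fl y hs ⊆ T x),
        cnt (univ.filter (fun h => y + h ∈ T x)) k hs ≤ Fintype.card Γ ^ (k + 1) * u
  | 0, hs, hi, hl => by
      classical
      simp only [cnt, Finset.sum_const, smul_eq_mul, mul_one]
      have h1 : ∑ x ∈ X, (univ.filter (fun y => fl y hs ⊆ T x)).card =
          ∑ y : Γ, (X.filter (fun x => fl y hs ⊆ T x)).card := by
        simp only [Finset.card_filter]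
        rw [Finset.sum_comm]
      rw [h1]
      calc ∑ y : Γ, (X.filter (fun x => fl y hs ⊆ T x)).card ≤ ∑ _y : Γ, u := by
            apply Finset.sum_le_sum
            intro y _
            refine hfree (fl y hs) _ (Finset.filter_subset _ _) ?_ ?_
            · rw [fl, Finset.card_image_of_injective _ (add_right_injective y), sp_card h2 hs hi]
              congr 1
            · intro x hx z hz
              exact (Finset.mem_filter.1 hx).2 hz
        _ = Fintype.card Γ ^ (0 + 1) * u := by
            rw [Finset.sum_const, smul_eq_mul, Finset.card_univ]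
            ring
  | k + 1, hs, hi, hl => by
      classical
      have hle : ∑ x ∈ X, ∑ y ∈ univ.filter (fun y => fl y hs ⊆ T x),
          cnt (univ.filter (fun h => y + h ∈ T x)) (k + 1) hs ≤
          ∑ h ∈ univ.filter (fun h => h ∉ sp hs), ∑ x ∈ X,
            ∑ y ∈ univ.filter (fun y => fl y (h :: hs) ⊆ T x),
              cnt (univ.filter (fun h => y + h ∈ T x)) k (h :: hs) := by
        rw [Finset.sum_comm]
        apply Finset.sum_le_sum
        intro x hx
        simp only [cnt]
        calc ∑ y ∈ univ.filter (fun y => fl y hs ⊆ T x),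
              ∑ h ∈ (univ.filter (fun h => y + h ∈ T x)) \ sp hs,
                cnt (univ.filter (fun h => y + h ∈ T x)) k (h :: hs)
            = ∑ y ∈ univ.filter (fun y => fl y hs ⊆ T x), ∑ h ∈ univ.filter (fun h => h ∉ sp hs),
                (if y + h ∈ T x then cnt (univ.filter (fun h => y + h ∈ T x)) k (h :: hs)
                  else 0) := by
              refine Finset.sum_congr rfl fun y _ => ?_
              rw [← Finset.sum_filter]
              apply Finset.sum_congr _ fun _ _ => rfl
              ext h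
              simp only [Finset.mem_sdiff, Finset.mem_filter, Finset.mem_univ, true_and]
              exact and_comm
          _ = ∑ h ∈ univ.filter (fun h => h ∉ sp hs), ∑ y ∈ univ.filter (fun y => fl y hs ⊆ T x),
                (if y + h ∈ T x then cnt (univ.filter (fun h => y + h ∈ T x)) k (h :: hs)
                  else 0) := Finset.sum_comm
          _ ≤ _ := by
              apply Finset.sum_le_sum
              intro h _
              rw [← Finset.sum_filter]
              apply Finset.sum_le_sum_of_subset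
              intro y hy
              obtain ⟨hy1, hy2⟩ := Finset.mem_filter.1 hy
              have hy3 := (Finset.mem_filter.1 hy1).2
              refine Finset.mem_filter.2 ⟨Finset.mem_univ _, ?_⟩
              intro z hz
              rw [fl, Finset.mem_image] at hz
              obtain ⟨w, hw, rfl⟩ := hz
              rw [sp, Finset.mem_union, Finset.mem_image] at hw
              have hyT : y ∈ T x := by
                apply hy3
                rw [fl, Finset.mem_image]
                exact ⟨0, zero_mem_sp hs, add_zero y⟩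
              rcases hw with hw | ⟨w', hw, rfl⟩
              · exact hy3 (Finset.mem_image.2 ⟨w, hw, rfl⟩)
              · have h3 : y + w' ∈ T x := hy3 (Finset.mem_image.2 ⟨w', hw, rfl⟩)
                have h4 := hT x hx _ hy2 _ hyT _ h3
                have h5 : y + h + y + (y + w') = (y + y) + (y + (h + w')) := by abel
                rwa [h5, h2, zero_add] at h4
      refine hle.trans ?_
      calc ∑ h ∈ univ.filter (fun h => h ∉ sp hs), ∑ x ∈ X,
            ∑ y ∈ univ.filter (fun y => fl y (h :: hs) ⊆ T x),
              cnt (univ.filter (fun h => y + h ∈ T x)) k (h :: hs)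
          ≤ ∑ _h ∈ univ.filter (fun h => h ∉ sp hs), Fintype.card Γ ^ (k + 1) * u := by
            apply Finset.sum_le_sum
            intro h hh
            exact fl_count h2 X T hT hfree k (h :: hs) ⟨(Finset.mem_filter.1 hh).2, hi⟩
              (by rw [List.length_cons]; omega)
        _ ≤ Fintype.card Γ * (Fintype.card Γ ^ (k + 1) * u) := by
            rw [Finset.sum_const, smul_eq_mul]
            exact Nat.mul_le_mul_right _ (Finset.card_le_univ _)
        _ = _ := by ring

lemma pow_le_prod (N a : ℕ) :
    N ^ (a + 1) ≤ 2 ^ a * (N * ∏ i ∈ Finset.range a, (N - 2 ^ i)) + (2 ^ a) ^ (a + 1) := by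
  rcases Nat.lt_or_ge N (2 ^ a) with h | h
  · exact le_add_left (Nat.pow_le_pow_left h.le _)
  · refine le_add_right ?_
    have h1 : N ^ a ≤ 2 ^ a * ∏ i ∈ Finset.range a, (N - 2 ^ i) := by
      calc N ^ a = ∏ _i ∈ Finset.range a, N := by rw [Finset.prod_const, Finset.card_range]
        _ ≤ ∏ i ∈ Finset.range a, (2 * (N - 2 ^ i)) := by
            apply Finset.prod_le_prod'
            intro i hi
            have h3 : 2 ^ (i + 1) ≤ 2 ^ a :=
              Nat.pow_le_pow_right (by norm_num) (Finset.mem_range.1 hi)
            rw [pow_succ] at h3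
            omega
        _ = _ := by rw [Finset.prod_mul_distrib, Finset.prod_const, Finset.card_range]
    calc N ^ (a + 1) = N * N ^ a := by ring
      _ ≤ N * (2 ^ a * ∏ i ∈ Finset.range a, (N - 2 ^ i)) := Nat.mul_le_mul_left _ h1
      _ = _ := by ring

/-- **Incidences with affine subspaces.** -/
theorem tri_family (h2 : ∀ x : Γ, x + x = 0) {ι : Type*} {a u : ℕ} (X : Finset ι)
    (T : ι → Finset Γ) (hT : ∀ x ∈ X, ∀ b ∈ T x, ∀ c ∈ T x, ∀ d ∈ T x, b + c + d ∈ T x)
    (hfree : ∀ (Y : Finset Γ) (X' : Finset ι), X' ⊆ X → Y.card = 2 ^ a →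
      (∀ x ∈ X', ∀ y ∈ Y, y ∈ T x) → X'.card ≤ u) :
    (∑ x ∈ X, (T x).card) ^ (a + 1) ≤
      X.card ^ a * (2 ^ a * u * Fintype.card Γ ^ (a + 1) + X.card * (2 ^ a) ^ (a + 1)) := by
  classical
  have h1 := fl_count h2 X T hT hfree a [] trivial (by simp)
  have h3 : ∑ x ∈ X, (T x).card * ∏ i ∈ Finset.range a, ((T x).card - 2 ^ i) ≤
      Fintype.card Γ ^ (a + 1) * u := by
    refine le_trans (Finset.sum_le_sum fun x hx => ?_) h1
    have h4 : univ.filter (fun y => fl y [] ⊆ T x) = T x := by
      ext y
      simp [fl, sp]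
    rw [h4, ← smul_eq_mul]
    apply Finset.card_nsmul_le_sum
    intro y hy
    have h5 : (univ.filter (fun h => y + h ∈ T x)).card = (T x).card := by
      have : univ.filter (fun h => y + h ∈ T x) = (T x).image (fun z => y + z) := by
        ext h
        simp only [Finset.mem_filter, Finset.mem_univ, true_and, Finset.mem_image]
        constructor
        · intro hh
          exact ⟨y + h, hh, by rw [← add_assoc, h2, zero_add]⟩
        · rintro ⟨z, hz, rfl⟩
          rw [← add_assoc, h2, zero_add]
          exact hz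
      rw [this, Finset.card_image_of_injective _ (add_right_injective y)]
    have h6 := cnt_ge (univ.filter (fun h => y + h ∈ T x)) a []
    rw [h5] at h6
    simpa using h6
  have h7 : ∑ x ∈ X, (T x).card ^ (a + 1) ≤
      2 ^ a * u * Fintype.card Γ ^ (a + 1) + X.card * (2 ^ a) ^ (a + 1) := by
    calc ∑ x ∈ X, (T x).card ^ (a + 1)
        ≤ ∑ x ∈ X, (2 ^ a * ((T x).card * ∏ i ∈ Finset.range a, ((T x).card - 2 ^ i)) +
            (2 ^ a) ^ (a + 1)) := Finset.sum_le_sum fun x _ => pow_le_prod _ _
      _ = 2 ^ a * ∑ x ∈ X, ((T x).card * ∏ i ∈ Finset.range a, ((T x).card - 2 ^ i)) +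
            X.card * (2 ^ a) ^ (a + 1) := by
          rw [Finset.sum_add_distrib, ← Finset.mul_sum, Finset.sum_const, smul_eq_mul]
      _ ≤ 2 ^ a * (Fintype.card Γ ^ (a + 1) * u) + X.card * (2 ^ a) ^ (a + 1) :=
          Nat.add_le_add_right (Nat.mul_le_mul_left _ h3) _
      _ = _ := by ring
  rcases X.eq_empty_or_nonempty with h0 | hne
  · subst h0
    simp
  have h8 : ((∑ x ∈ X, ((T x).card : ℝ)) ^ (a + 1)) ≤
      (X.card : ℝ) ^ a * ∑ x ∈ X, ((T x).card : ℝ) ^ (a + 1) := by
    have h9 := pow_sum_div_card_le_sum_pow (s := X) (f := fun x => ((T x).card : ℝ))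
      (fun i _ => Nat.cast_nonneg _) a
    have hpos : (0 : ℝ) < (X.card : ℝ) ^ a := by
      have : 0 < X.card := Finset.card_pos.2 hne
      positivity
    rw [div_le_iff₀ hpos] at h9
    linarith
  have h9 : (∑ x ∈ X, (T x).card) ^ (a + 1) ≤ X.card ^ a * ∑ x ∈ X, (T x).card ^ (a + 1) := by
    exact_mod_cast h8
  exact h9.trans (Nat.mul_le_mul_left _ h7)

end tri

end Pool.Agent.W5h1.SL
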