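import Mathlib
import Pool.Agent.W5h1.SL.Asy
import Pool.Agent.W5h1.SL.Tri
import Pool.Agent.W5h1.SL.RandGraph

/-!
# Classes of neighbourhoods
-/

set_option autoImplicit false

namespace Pool.Agent.W5h1.SL

open Finset Filter

/-- a union of `L` members of a class -/
def UnionOf {A : Type*} {m : ℕ} (P : Set (Fin m → A) → Prop) (L : ℕ) (S : Set (Fin m → A)) :
    Prop :=
  ∃ T : Fin L → Set (Fin m → A), (∀ j, P (T j)) ∧ S = ⋃ j, T j

open Classical in
/-- From incidences to edges. -/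
theorem edges_le (m L r u : ℕ) (B : ℝ) (A V : Type*) [Fintype A] [Fintype V]
    (P : Set (Fin m → A) → Prop) (lab : V → Fin m → A)
    (G : SimpleGraph V) (hu : 1 ≤ u) (hlab : Function.Injective lab)
    (hP : ∀ (X : Finset V) (T : V → Set (Fin m → A)), (∀ x ∈ X, P (T x)) →
      (∀ (Y : Finset (Fin m → A)) (X' : Finset V), X' ⊆ X → Y.card = 2 ^ (Nat.clog 2 r) →
        (∀ x ∈ X', ∀ y ∈ Y, y ∈ T x) → X'.card ≤ u) →
      ((∑ x ∈ X, num (T x) : ℕ) : ℝ) ≤ B)
    (hN : ∀ x y, G.Adj x y → UnionOf P L (lab '' G.neighborSet x) ∨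
      UnionOf P L (lab '' G.neighborSet y))
    (hfree : (completeBipartiteGraph (Fin r) (Fin u)).Free G) :
    (Nat.card G.edgeSet : ℝ) ≤ L * B := by
  set a := Nat.clog 2 r with ha
  set X : Finset V := univ.filter (fun x => UnionOf P L (lab '' G.neighborSet x)) with hX
  have hT : ∀ x, ∃ T : Fin L → Set (Fin m → A), x ∈ X →
      (∀ j, P (T j)) ∧ lab '' G.neighborSet x = ⋃ j, T j := by
    intro x
    by_cases h : x ∈ X
    · obtain ⟨T, h1, h2⟩ := (Finset.mem_filter.1 h).2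
      exact ⟨T, fun _ => ⟨h1, h2⟩⟩
    · exact ⟨fun _ => ∅, fun h' => absurd h' h⟩
  choose T hT using hT
  have hfam : ∀ j : Fin L, ((∑ x ∈ X, num (T x j) : ℕ) : ℝ) ≤ B := by
    intro j
    refine hP X (fun x => T x j) (fun x hx => (hT x hx).1 j) ?_
    intro Y X' hX' hY hXY
    by_contra hcon
    push Not at hcon
    obtain ⟨X₁, hX₁, hX₁c⟩ := Finset.exists_subset_card_eq hcon.le
    obtain ⟨x₀, hx₀⟩ : X₁.Nonempty := Finset.card_pos.1 (by omega)
    have hra : r ≤ Y.card := by rw [hY]; exact Nat.le_pow_clog (by norm_num) r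
    obtain ⟨Y₁, hY₁, hY₁c⟩ := Finset.exists_subset_card_eq hra
    have hsub : ∀ x ∈ X₁, ∀ y ∈ Y₁, y ∈ lab '' G.neighborSet x := by
      intro x hx y hy
      have hxX : x ∈ X := hX' (hX₁ hx)
      rw [(hT x hxX).2]
      exact Set.mem_iUnion.2 ⟨j, hXY x (hX₁ hx) y (hY₁ hy)⟩
    have himg : (univ.filter (fun v => lab v ∈ Y₁)).image lab = Y₁ := by
      ext y
      simp only [Finset.mem_image, Finset.mem_filter, Finset.mem_univ, true_and]
      constructor
      · rintro ⟨v, hv, rfl⟩; exact hv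
      · intro hy
        obtain ⟨v, _, hv⟩ := hsub x₀ hx₀ y hy
        exact ⟨v, by rw [hv]; exact hy, hv⟩
    have hc : (univ.filter (fun v => lab v ∈ Y₁)).card = r := by
      rw [← hY₁c, ← himg, Finset.card_image_of_injective _ hlab, himg]
    refine not_free' G X₁ (univ.filter (fun v => lab v ∈ Y₁)) hX₁c hc ?_ hfree
    intro x hx v hv
    obtain ⟨w, hw, hwv⟩ := hsub x hx _ (Finset.mem_filter.1 hv).2
    rw [← hlab hwv]
    exact hw
  have hdeg : ∀ x ∈ X, G.degree x ≤ ∑ j : Fin L, num (T x j) := by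
    intro x hx
    rw [← G.card_neighborFinset_eq_degree, ← Finset.card_image_of_injective _ hlab]
    refine le_trans (Finset.card_le_card (t := (univ : Finset (Fin L)).biUnion
      (fun j => univ.filter (fun z => z ∈ T x j))) ?_) Finset.card_biUnion_le
    intro y hy
    obtain ⟨v, hv, rfl⟩ := Finset.mem_image.1 hy
    have : lab v ∈ lab '' G.neighborSet x := ⟨v, by simpa using hv, rfl⟩
    rw [(hT x hx).2] at this
    obtain ⟨j, hj⟩ := Set.mem_iUnion.1 this
    exact Finset.mem_biUnion.2 ⟨j, Finset.mem_univ _,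
      Finset.mem_filter.2 ⟨Finset.mem_univ _, hj⟩⟩
  have hedge : Nat.card G.edgeSet ≤ ∑ x ∈ X, G.degree x := by
    rw [Nat.card_eq_fintype_card, ← SimpleGraph.edgeFinset_card]
    refine le_trans (Finset.card_le_card (t := X.biUnion (fun x => G.incidenceFinset x)) ?_)
      (Finset.card_biUnion_le.trans (le_of_eq ?_))
    · intro e he
      induction e with
      | h v w =>
        rw [SimpleGraph.mem_edgeFinset, SimpleGraph.mem_edgeSet] at he
        rcases hN v w he with h | h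
        · refine Finset.mem_biUnion.2 ⟨v, Finset.mem_filter.2 ⟨Finset.mem_univ _, h⟩, ?_⟩
          rw [SimpleGraph.mem_incidenceFinset, SimpleGraph.mk'_mem_incidenceSet_left_iff]
          exact he
        · refine Finset.mem_biUnion.2 ⟨w, Finset.mem_filter.2 ⟨Finset.mem_univ _, h⟩, ?_⟩
          rw [SimpleGraph.mem_incidenceFinset, SimpleGraph.mk'_mem_incidenceSet_right_iff]
          exact he
    · exact Finset.sum_congr rfl fun x _ => G.card_incidenceFinset_eq_degree x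
  have h1 : Nat.card G.edgeSet ≤ ∑ j : Fin L, ∑ x ∈ X, num (T x j) :=
    hedge.trans ((Finset.sum_le_sum hdeg).trans (le_of_eq Finset.sum_comm))
  have h2 : (Nat.card G.edgeSet : ℝ) ≤ ∑ j : Fin L, ((∑ x ∈ X, num (T x j) : ℕ) : ℝ) := by
    exact_mod_cast h1
  refine h2.trans ((Finset.sum_le_sum fun j _ => hfam j).trans (le_of_eq ?_))
  rw [Finset.sum_const, nsmul_eq_mul, Finset.card_univ, Fintype.card_fin]

/-- the bound for semilattices is almost linear -/
theorem semi_real (q a u D : ℕ) (ε : ℝ) (hε : 0 < ε) :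
    ∃ n₀ : ℕ, ∀ n m : ℕ, n₀ ≤ n → n ≤ q ^ m → q ^ m ≤ D * n →
      (((q * (m + 2) : ℕ) : ℝ) ^ ((q + 2) * (Nat.sqrt m + 1) * a)) * (a * n + u * (q : ℝ) ^ m) ≤
        (n : ℝ) ^ (1 + ε) := by
  obtain ⟨m₀, hm₀⟩ := grow q ((q + 2) * a) (ε / 2) (half_pos hε)
  set C : ℝ := (a + u * D) * (D : ℝ) ^ (ε / 2) with hC
  have ht := (tendsto_rpow_atTop (half_pos hε)).comp (tendsto_natCast_atTop_atTop (R := ℝ))
  obtain ⟨n₁, hn₁⟩ := Filter.eventually_atTop.1 (ht.eventually_gt_atTop C)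
  refine ⟨max (max n₁ (q ^ m₀ + 1)) 2, ?_⟩
  intro n m hn hcard hD
  have hn1 : n₁ ≤ n := le_trans (le_trans (le_max_left _ _) (le_max_left _ _)) hn
  have hn2 : q ^ m₀ + 1 ≤ n := le_trans (le_trans (le_max_right _ _) (le_max_left _ _)) hn
  have hn3 : 2 ≤ n := le_trans (le_max_right _ _) hn
  have hq2 : 2 ≤ q := by
    by_contra hcon
    push Not at hcon
    have : q ^ m ≤ 1 := by
      calc q ^ m ≤ 1 ^ m := Nat.pow_le_pow_left (by omega) m
        _ = 1 := one_pow m
    omega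
  have hm : m₀ ≤ m := by
    by_contra hcon
    push Not at hcon
    have : q ^ m ≤ q ^ m₀ := Nat.pow_le_pow_right (by omega) hcon.le
    omega
  have hn0' : (0 : ℝ) < n := by
    have : 0 < n := by omega
    exact_mod_cast this
  have hDn : ((q : ℝ) ^ m) ≤ D * n := by exact_mod_cast hD
  have hg := hm₀ m hm
  have h1 : (((q * (m + 2) : ℕ) : ℝ) ^ ((q + 2) * (Nat.sqrt m + 1) * a)) ≤
      (D : ℝ) ^ (ε / 2) * (n : ℝ) ^ (ε / 2) := by
    have e1 : (q + 2) * (Nat.sqrt m + 1) * a = (Nat.sqrt m + 1) * ((q + 2) * a) := by ring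
    rw [e1]
    refine hg.trans ?_
    calc (2 : ℝ) ^ (ε / 2 * m) = ((2 : ℝ) ^ (m : ℝ)) ^ (ε / 2) := by
          rw [← Real.rpow_mul (by norm_num)]
          congr 1
          ring
      _ ≤ ((q : ℝ) ^ (m : ℝ)) ^ (ε / 2) := by
          apply Real.rpow_le_rpow (by positivity) _ (by positivity)
          apply Real.rpow_le_rpow (by norm_num) _ (by positivity)
          exact_mod_cast hq2
      _ ≤ (D * n) ^ (ε / 2) := by
          apply Real.rpow_le_rpow (by positivity) _ (by positivity)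
          rw [Real.rpow_natCast]
          exact hDn
      _ = _ := Real.mul_rpow (by positivity) (by positivity)
  have h3 : (a : ℝ) * n + u * (q : ℝ) ^ m ≤ (a + u * D) * n := by
    have := mul_le_mul_of_nonneg_left hDn (Nat.cast_nonneg u : (0 : ℝ) ≤ u)
    linarith
  have h4 : C < (n : ℝ) ^ (ε / 2) := hn₁ n hn1
  calc (((q * (m + 2) : ℕ) : ℝ) ^ ((q + 2) * (Nat.sqrt m + 1) * a)) * (a * n + u * (q : ℝ) ^ m)
      ≤ ((D : ℝ) ^ (ε / 2) * (n : ℝ) ^ (ε / 2)) * ((a + u * D) * n) := by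
        gcongr
    _ = C * ((n : ℝ) ^ (ε / 2) * n) := by rw [hC]; ring
    _ ≤ (n : ℝ) ^ (ε / 2) * ((n : ℝ) ^ (ε / 2) * n) := by gcongr
    _ = (n : ℝ) ^ (1 + ε) := by
        rw [← Real.rpow_add_one (ne_of_gt hn0'), ← Real.rpow_add hn0']
        congr 1
        ring

open Classical in
/-- incidences with affine subspaces, for strings of bits -/
theorem tri_num {m a u : ℕ} {V : Type*} (X : Finset V) (T : V → Set (Fin m → Bool))
    (hT : ∀ x ∈ X, TriClosed (T x))
    (hfree : ∀ (Y : Finset (Fin m → Bool)) (X' : Finset V), X' ⊆ X → Y.card = 2 ^ a →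
      (∀ x ∈ X', ∀ y ∈ Y, y ∈ T x) → X'.card ≤ u) :
    (∑ x ∈ X, num (T x)) ^ (a + 1) ≤
      X.card ^ a * (2 ^ a * u * (2 ^ m) ^ (a + 1) + X.card * (2 ^ a) ^ (a + 1)) := by
  let ψ : (Fin m → Bool) ≃ (Fin m → ZMod 2) := Equiv.piCongrRight fun _ => Equiv.ofBijective bz bz_bij
  have hψ : ∀ x y z : Fin m → Bool, ψ (fun i => xor (x i) (xor (y i) (z i))) = ψ x + ψ y + ψ z := by
    intro x y z
    funext i
    exact bz_xor _ _ _
  set T' : V → Finset (Fin m → ZMod 2) := fun x => (univ.filter (fun y => y ∈ T x)).image ψ with hT'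
  have hcard : ∀ x, (T' x).card = num (T x) := by
    intro x
    rw [hT', num]
    exact Finset.card_image_of_injective _ ψ.injective
  have hmem : ∀ x y, y ∈ T' x ↔ ψ.symm y ∈ T x := by
    intro x y
    simp only [hT', Finset.mem_image, Finset.mem_filter, Finset.mem_univ, true_and]
    constructor
    · rintro ⟨z, hz, rfl⟩
      rwa [Equiv.symm_apply_apply]
    · intro h
      exact ⟨_, h, Equiv.apply_symm_apply _ _⟩
  have h2 : ∀ x : Fin m → ZMod 2, x + x = 0 := by
    intro x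
    funext i
    exact CharTwo.add_self_eq_zero _
  have h := tri_family (a := a) (u := u) h2 X T' (by
    intro x hx b hb c hc d hd
    rw [hmem] at hb hc hd ⊢
    have h3 := hT x hx _ hb _ hc _ hd
    have h4 := hψ (ψ.symm b) (ψ.symm c) (ψ.symm d)
    rw [Equiv.apply_symm_apply, Equiv.apply_symm_apply, Equiv.apply_symm_apply] at h4
    rw [← h4, Equiv.symm_apply_apply]
    exact h3) (by
    intro Y X' hX' hY hXY
    refine hfree (Y.image ψ.symm) X' hX' ?_ ?_
    · rw [Finset.card_image_of_injective _ ψ.symm.injective, hY]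
    · intro x hx y hy
      obtain ⟨z, hz, rfl⟩ := Finset.mem_image.1 hy
      exact (hmem x z).1 (hXY x hx z hz))
  simp only [hcard] at h
  have h5 : Fintype.card (Fin m → ZMod 2) = 2 ^ m := by simp [ZMod.card]
  rw [h5] at h
  exact h

/-- real form -/
lemma tri_real {m a u D n N S : ℕ} (hn : 1 ≤ n) (hN : N ≤ n) (hD : 2 ^ m ≤ D * n)
    (hS : S ^ (a + 1) ≤ N ^ a * (2 ^ a * u * (2 ^ m) ^ (a + 1) + N * (2 ^ a) ^ (a + 1))) :
    (S : ℝ) ≤ ((2 ^ a * u * D ^ (a + 1) + (2 ^ a) ^ (a + 1) : ℕ) : ℝ) *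
      (n : ℝ) ^ (2 - 1 / ((a : ℝ) + 1)) := by
  set E : ℕ := 2 ^ a * u * D ^ (a + 1) + (2 ^ a) ^ (a + 1) with hE
  have hE1 : 1 ≤ E := by
    have : 1 ≤ (2 ^ a) ^ (a + 1) := Nat.one_le_pow _ _ (by positivity)
    omega
  have h1 : S ^ (a + 1) ≤ E * n ^ (2 * a + 1) := by
    calc S ^ (a + 1) ≤ N ^ a * (2 ^ a * u * (2 ^ m) ^ (a + 1) + N * (2 ^ a) ^ (a + 1)) := hS
      _ ≤ n ^ a * (2 ^ a * u * (D * n) ^ (a + 1) + n * (2 ^ a) ^ (a + 1)) := by gcongr
      _ ≤ n ^ a * (2 ^ a * u * (D * n) ^ (a + 1) + n ^ (a + 1) * (2 ^ a) ^ (a + 1)) := by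
          gcongr
          exact Nat.le_self_pow (by omega) n
      _ = E * n ^ (2 * a + 1) := by rw [hE, mul_pow]; ring
  have hn' : (1 : ℝ) ≤ n := by exact_mod_cast hn
  have hE' : (1 : ℝ) ≤ E := by exact_mod_cast hE1
  have h2 : ((S : ℝ)) ^ (a + 1) ≤ E * (n : ℝ) ^ (2 * a + 1) := by exact_mod_cast h1
  have h3 : ((n : ℝ) ^ (2 - 1 / ((a : ℝ) + 1))) ^ (a + 1) = (n : ℝ) ^ (2 * a + 1) := by
    rw [← Real.rpow_natCast, ← Real.rpow_mul (by positivity), ← Real.rpow_natCast]
    congr 1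
    push_cast
    have : (a : ℝ) + 1 ≠ 0 := by positivity
    field_simp
    ring
  refine le_of_pow_le_pow_left₀ (n := a + 1) (by omega) (by positivity) ?_
  rw [mul_pow, h3]
  refine h2.trans ?_
  apply mul_le_mul_of_nonneg_right _ (by positivity)
  exact le_self_pow₀ hE' (by omega)

open Classical in
/-- **Neighbourhoods which are unions of semilattices and affine subspaces.** -/
theorem mixed (r u D : ℕ) (hr : 2 ≤ r) (hu : 1 ≤ u) :
    ∃ (C : ℝ) (n₀ : ℕ), ∀ (n m L : ℕ) (lab : Fin n → Fin m → Bool) (G : SimpleGraph (Fin n)),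
      n₀ ≤ n → Function.Injective lab → 2 ^ m ≤ D * n →
      (∀ x y, G.Adj x y →
        UnionOf (fun T => SemiClosed T ∨ TriClosed T) L (lab '' G.neighborSet x) ∨
        UnionOf (fun T => SemiClosed T ∨ TriClosed T) L (lab '' G.neighborSet y)) →
      (completeBipartiteGraph (Fin r) (Fin u)).Free G →
      (Nat.card G.edgeSet : ℝ) ≤ C * L * (n : ℝ) ^ (2 - 1 / ((Nat.clog 2 r : ℝ) + 1)) := by
  set a := Nat.clog 2 r with ha
  have ha1 : 0 < a := Nat.clog_pos (by norm_num) hr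
  have ha1' : (0 : ℝ) < a := by exact_mod_cast ha1
  set ε : ℝ := 1 - 1 / ((a : ℝ) + 1) with hε
  have hε0 : 0 < ε := by
    rw [hε, sub_pos, div_lt_one (by positivity)]
    linarith
  obtain ⟨n₁, hn₁⟩ := semi_real 2 a u D ε hε0
  set E : ℕ := 2 ^ a * u * D ^ (a + 1) + (2 ^ a) ^ (a + 1) with hE
  refine ⟨1 + E, max n₁ 1, ?_⟩
  intro n m L lab G hn hlab hD hN hfree
  have hn1 : n₁ ≤ n := le_trans (le_max_left _ _) hn
  have hn2 : 1 ≤ n := le_trans (le_max_right _ _) hn
  have hcard : n ≤ 2 ^ m := by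
    have := Fintype.card_le_of_injective lab hlab
    simpa using this
  have h := edges_le m L r u ((1 + E) * (n : ℝ) ^ (2 - 1 / ((a : ℝ) + 1))) Bool (Fin n)
    (fun T => SemiClosed T ∨ TriClosed T) lab G hu hlab (by
      intro X T hT hfr
      set X₁ := X.filter (fun x => SemiClosed (T x)) with hX₁
      set X₂ := X.filter (fun x => ¬ SemiClosed (T x)) with hX₂
      have hsplit : ∑ x ∈ X, num (T x) = ∑ x ∈ X₁, num (T x) + ∑ x ∈ X₂, num (T x) :=
        (Finset.sum_filter_add_sum_filter_not X _ _).symm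
      have hX₁n : X₁.card ≤ n := by
        refine (Finset.card_le_univ _).trans (le_of_eq (Fintype.card_fin n))
      have hX₂n : X₂.card ≤ n := by
        refine (Finset.card_le_univ _).trans (le_of_eq (Fintype.card_fin n))
      have hf1 := family (K := 2 * (Nat.sqrt m + 1)) (b := Nat.sqrt m) (u := u) (a := a) (q := 2)
        (by omega) (le_of_eq Fintype.card_bool) (by norm_num) (by
          have : m < (Nat.sqrt m + 1) * (Nat.sqrt m + 1) := Nat.lt_succ_sqrt m
          nlinarith) X₁ T (fun x hx => (Finset.mem_filter.1 hx).2) (fun Y X' hX' hY hXY =>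
          hfr Y X' (hX'.trans (Finset.filter_subset _ _)) hY hXY)
      have hf2 : ∑ x ∈ X₁, num (T x) ≤ (2 * (m + 2)) ^ ((2 + 2) * (Nat.sqrt m + 1) * a) *
          (a * n + u * 2 ^ m) := by
        refine hf1.trans ?_
        rw [pow_mul]
        apply Nat.mul_le_mul
        · exact Nat.pow_le_pow_left (base_bound (by norm_num)) _
        · exact Nat.add_le_add_right (Nat.mul_le_mul_left _ hX₁n) _
      have hf3 : ((∑ x ∈ X₁, num (T x) : ℕ) : ℝ) ≤ (n : ℝ) ^ (2 - 1 / ((a : ℝ) + 1)) := by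
        have h1 := hn₁ n m hn1 hcard hD
        have h2 : ((∑ x ∈ X₁, num (T x) : ℕ) : ℝ) ≤
            (((2 * (m + 2) : ℕ) : ℝ) ^ ((2 + 2) * (Nat.sqrt m + 1) * a)) *
              (a * n + u * ((2 : ℕ) : ℝ) ^ m) := by exact_mod_cast hf2
        refine h2.trans (h1.trans (le_of_eq ?_))
        congr 1
        rw [hε]; ring
      have hf4 := tri_real hn2 hX₂n hD (tri_num (a := a) (u := u) X₂ T (fun x hx => by
          obtain ⟨h1, h2⟩ := Finset.mem_filter.1 hx
          exact (hT x h1).resolve_left h2) (fun Y X' hX' hY hXY =>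
          hfr Y X' (hX'.trans (Finset.filter_subset _ _)) hY hXY))
      rw [hsplit, Nat.cast_add, add_mul, one_mul]
      exact add_le_add hf3 hf4) hN hfree
  refine h.trans (le_of_eq ?_)
  ring

/-- the exponents -/
lemma exponent_lt {s : ℕ} (hs : 4 ≤ s) : (1 : ℝ) / s < 1 / ((Nat.clog 2 s : ℝ) + 1) := by
  have h1 : Nat.clog 2 s + 1 < s := by
    have h2 : Nat.clog 2 s ≤ s - 2 := by
      rw [Nat.clog_le_iff_le_pow (by norm_num)]
      obtain ⟨p, rfl⟩ : ∃ p, s = p + 4 := ⟨s - 4, by omega⟩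
      have : ∀ p : ℕ, p + 4 ≤ 2 ^ (p + 2) := by
        intro p
        induction p with
        | zero => norm_num
        | succ p ih => rw [show p + 1 + 2 = (p + 2) + 1 by ring, pow_succ]; omega
      exact this p
    omega
  have h3 : (0 : ℝ) < (Nat.clog 2 s : ℝ) + 1 := by positivity
  apply one_div_lt_one_div_of_lt h3
  exact_mod_cast h1

end Pool.Agent.W5h1.SL
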