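import Mathlib
import Pool.Agent.W5h1.SL.Classes

/-!
# Idempotent operations which are not projections
-/

set_option autoImplicit false

namespace Pool.Agent.W5h1.SL

open Finset

/-- flipping bits preserves sets closed under sums of three -/
lemma TriClosed.of_flip {m : ℕ} {c : Fin m → Bool} {T : Set (Fin m → Bool)}
    (h : TriClosed (Flip c T)) : TriClosed T := by
  have hf : ∀ z ∈ T, (fun i => xor (z i) (c i)) ∈ Flip c T := by
    intro z hz
    show (fun i => xor (xor (z i) (c i)) (c i)) ∈ T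
    have : (fun i => xor (xor (z i) (c i)) (c i)) = z := by
      funext i
      cases z i <;> cases c i <;> rfl
    rw [this]
    exact hz
  intro x hx y hy z hz
  have h1 : (fun i => xor (xor (xor (x i) (c i)) (xor (xor (y i) (c i)) (xor (z i) (c i)))) (c i)) ∈ T :=
    h _ (hf x hx) _ (hf y hy) _ (hf z hz)
  have h2 : (fun i => xor (x i) (xor (y i) (z i))) =
      (fun i => xor (xor (xor (x i) (c i)) (xor (xor (y i) (c i)) (xor (z i) (c i)))) (c i)) := by
    funext i
    cases x i <;> cases y i <;> cases z i <;> cases c i <;> rfl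
  rw [h2]
  exact h1

open Classical in
/-- a sum of at least three variables gives the sum of three -/
lemma sum_tri {m l : ℕ} {f : (Fin l → Bool) → Bool} {I : Finset (Fin l)}
    (hI : ∀ x, f x = decide ((I.filter (fun j => x j = true)).card % 2 = 1))
    (hodd : I.card % 2 = 1) (h3 : 3 ≤ I.card) {T : Set (Fin m → Bool)} (hT : BoolClosed f T) :
    TriClosed T := by
  intro x hx y hy z hz
  obtain ⟨a, ha⟩ : I.Nonempty := Finset.card_pos.1 (by omega)
  have h1 : (I.erase a).card = I.card - 1 := Finset.card_erase_of_mem ha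
  obtain ⟨b, hb⟩ : (I.erase a).Nonempty := Finset.card_pos.1 (by omega)
  have hab : b ≠ a := Finset.ne_of_mem_erase hb
  have h2 : ((I.erase a).erase b).card = I.card - 2 := by
    rw [Finset.card_erase_of_mem hb]; omega
  have hX := hT (fun j => if j = a then x else if j = b then y else z) (by
    intro j
    split_ifs
    · exact hx
    · exact hy
    · exact hz)
  convert hX using 2 with i
  rw [hI]
  set J := (I.erase a).erase b with hJ
  have hI' : I = insert a (insert b J) := by
    rw [hJ, Finset.insert_erase hb, Finset.insert_erase ha]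
  have haJ : a ∉ insert b J := by
    rw [hJ, Finset.insert_erase hb]
    simp
  have hbJ : b ∉ J := by rw [hJ]; simp
  have haJ' : a ∉ J := fun h => haJ (Finset.mem_insert_of_mem h)
  have hJodd : J.card % 2 = 1 := by rw [h2]; omega
  have hfJ : J.filter (fun j => (if j = a then x else if j = b then y else z) i = true) =
      if z i = true then J else ∅ := by
    ext j
    rw [Finset.mem_filter]
    by_cases hj : j ∈ J
    · have e1 : j ≠ a := fun h => haJ' (h ▸ hj)
      have e2 : j ≠ b := fun h => hbJ (h ▸ hj)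
      rw [if_neg e1, if_neg e2]
      split_ifs with h
      · simp [hj, h]
      · simp [h]
    · split_ifs with h <;> simp [hj]
  rw [hI', Finset.filter_insert, Finset.filter_insert, hfJ]
  simp only [if_true, if_neg hab]
  have e1 : a ∉ (if z i = true then J else ∅) := by
    split_ifs
    · exact haJ'
    · simp
  have e2 : b ∉ (if z i = true then J else ∅) := by
    split_ifs
    · exact hbJ
    · simp
  have e3 : a ∉ insert b (if z i = true then J else ∅) := by
    rw [Finset.mem_insert, not_or]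
    exact ⟨hab.symm, e1⟩
  have hc : (if z i = true then J else ∅).card % 2 = if z i = true then 1 else 0 := by
    split_ifs
    · exact hJodd
    · rfl
  set c := (if z i = true then J else ∅).card with hcdef
  cases hx' : x i <;> cases hy' : y i <;> cases hz' : z i <;>
    simp only [hz', if_true, if_false, Bool.false_eq_true] at hc e1 e2 e3 hcdef ⊢
  · simp
  · rw [← hcdef]; simp [hc]
  · simp
  · rw [Finset.card_insert_of_notMem e2, ← hcdef]
    have : (c + 1) % 2 = 0 := by omega
    simp [this]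
  · simp
  · rw [Finset.card_insert_of_notMem e1, ← hcdef]
    have : (c + 1) % 2 = 0 := by omega
    simp [this]
  · rw [Finset.card_insert_of_notMem e3, Finset.card_insert_of_notMem e2, ← hcdef]
    have : (c + 1 + 1) % 2 = 0 := by omega
    simp [this]
  · rw [Finset.card_insert_of_notMem e3, Finset.card_insert_of_notMem e2, ← hcdef]
    have : (c + 1 + 1) % 2 = 1 := by omega
    simp [this]

/-- An idempotent operation is a projection, or its closed sets are semilattices or affine. -/
theorem post_proj {m l : ℕ} {f : (Fin l → Bool) → Bool} (h0 : f (fun _ => false) = false)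
    (h1 : f (fun _ => true) = true) (hf : ¬ ∃ j, ∀ x, f x = x j) {T : Set (Fin m → Bool)}
    (hT : BoolClosed f T) : LatClosed T ∨ TriClosed T := by
  classical
  by_cases hs : IsSum f
  · right
    obtain ⟨I, hI⟩ := hs
    have hodd : I.card % 2 = 1 := by
      rw [hI] at h1
      simpa using h1
    have h3 : 3 ≤ I.card := by
      by_contra hcon
      have h2 : I.card = 1 := by omega
      obtain ⟨j, rfl⟩ := Finset.card_eq_one.1 h2
      apply hf
      refine ⟨j, fun x => ?_⟩
      rw [hI, Finset.filter_singleton]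
      cases h : x j <;> simp
    exact sum_tri hI hodd h3 hT
  · exact Or.inl (post h0 h1 hs hT)

/-- the asymptotic form of the construction -/
theorem affine_asymp (s : ℕ) (hs : 2 ≤ s) (ε : ℝ) (hε : 0 < ε) :
    ∃ t m₀ : ℕ, s ≤ t ∧ ∀ m : ℕ, m₀ ≤ m → ∃ G : SimpleGraph (Fin (m + 1) → Bool),
      (completeBipartiteGraph (Fin s) (Fin t)).Free G ∧ (∀ v, TriClosed (G.neighborSet v)) ∧
      ((2 ^ (m + 1) : ℕ) : ℝ) ^ (2 - 1 / ((Nat.clog 2 s : ℝ) + 1) - ε) ≤ Nat.card G.edgeSet := by
  set l := Nat.clog 2 s with hl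
  have hl1 : 0 < l := Nat.clog_pos (by norm_num) hs
  have hsl : 2 ^ l < 2 * s := by
    have h1 := Nat.pow_pred_clog_lt_self (b := 2) (by norm_num) (x := s) (by omega)
    obtain ⟨p, hp⟩ : ∃ p, Nat.clog 2 s = p + 1 := ⟨Nat.clog 2 s - 1, by omega⟩
    rw [hl, hp]
    rw [hp] at h1
    simp only [Nat.pred_eq_sub_one, Nat.add_sub_cancel] at h1
    rw [pow_succ]
    omega
  -- choose k
  set lam : ℝ := (l : ℝ) + 1 with hlam
  have hlam1 : (2 : ℝ) ≤ lam := by
    have : (1 : ℝ) ≤ l := by exact_mod_cast hl1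
    linarith
  obtain ⟨k₀, hk₀⟩ := exists_nat_gt (4 / ε)
  set k := max k₀ (max l 1) with hk
  have hkk : (4 / ε) < (k : ℝ) := lt_of_lt_of_le hk₀ (by exact_mod_cast le_max_left _ _)
  have hkl : l ≤ k := le_trans (le_max_left _ _) (le_max_right _ _)
  have hk1 : 1 ≤ k := le_trans (le_max_right _ _) (le_max_right _ _)
  have hst : s ≤ 2 ^ k := (Nat.le_pow_clog (by norm_num) s).trans (Nat.pow_le_pow_right (by norm_num) hkl)
  obtain ⟨m₁, hm₁⟩ := exists_nat_gt (12 / ε)
  refine ⟨2 ^ k, m₁, hst, fun m hm => ?_⟩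
  -- choose c
  set P : ℕ := (k + 1) * (l + 1) - 1 with hP
  have hP1 : 1 ≤ P := by
    have : 2 * 2 ≤ (k + 1) * (l + 1) := Nat.mul_le_mul (by omega) (by omega)
    omega
  set c : ℕ := (m * (k + 1 + (l + 1)) + 2) / P + 1 with hc
  have hc1 : c + 2 + m * (k + 1 + (l + 1)) ≤ c * ((k + 1) * (l + 1)) := by
    have h1 : m * (k + 1 + (l + 1)) + 2 < c * P := by
      rw [hc]
      exact lt_of_lt_of_eq (Nat.lt_mul_div_succ (m * (k + 1 + (l + 1)) + 2) hP1) (mul_comm _ _)
    have h2 : c * ((k + 1) * (l + 1)) = c * P + c := by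
      have : (k + 1) * (l + 1) = P + 1 := by
        have : 2 * 2 ≤ (k + 1) * (l + 1) := Nat.mul_le_mul (by omega) (by omega)
        omega
      rw [this]; ring
    omega
  obtain ⟨G, hG1, hG2, hG3⟩ := affine_graph m k l c s (2 ^ k) hc1 hsl (by
    have : 0 < 2 ^ k := by positivity
    omega)
  refine ⟨G, hG1, hG2, ?_⟩
  have hmR : (m₁ : ℝ) ≤ m := by exact_mod_cast hm
  have hPR : (P : ℝ) = ((k : ℝ) + 1) * lam - 1 := by
    rw [hP, Nat.cast_sub (by
      have : 2 * 2 ≤ (k + 1) * (l + 1) := Nat.mul_le_mul (by omega) (by omega)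
      omega)]
    push_cast
    rw [hlam]
  have hk0 : (0 : ℝ) < k := by exact_mod_cast hk1
  have hkR : (1 : ℝ) ≤ k := by exact_mod_cast hk1
  have hPpos : (0 : ℝ) < P := by exact_mod_cast hP1
  have hcR : (c : ℝ) ≤ (m * (k + 1 + lam) + 2) / P + 1 := by
    rw [hc]
    push_cast
    have h1 := @Nat.cast_div_le ℝ _ _ _ (m * (k + 1 + (l + 1)) + 2) P
    push_cast at h1
    rw [hlam]
    linarith
  -- the main inequality for c
  have hratio : ((k : ℝ) + 1 + lam) / P ≤ 1 / lam + ε / 2 := by
    have hl0 : 0 < lam := by linarith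
    have hεk : 4 < ε * k := by
      rw [div_lt_iff₀ hε] at hkk
      linarith
    have h2 : 1 / lam + ε / 2 = (2 + ε * lam) / (2 * lam) := by
      field_simp
    rw [h2, div_le_div_iff₀ hPpos (by positivity), hPR]
    -- 2 lam (k + 1 + lam) ≤ (2 + ε lam) ((k + 1) λ - 1)
    have h3 : 4 * (lam * lam) ≤ ε * k * (lam * lam) := by
      apply mul_le_mul_of_nonneg_right hεk.le (by positivity)
    have h4 : 0 ≤ ε * lam * (lam - 1) := by
      apply mul_nonneg (by positivity)
      linarith
    have h5 : 2 * 1 ≤ lam * lam := by nlinarith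
    nlinarith
  have h2P : (2 : ℝ) / P ≤ 2 := by
    rw [div_le_iff₀ hPpos]
    have : (1 : ℝ) ≤ P := by exact_mod_cast hP1
    linarith
  have hcfin : (c : ℝ) ≤ m * (1 / lam + ε / 2) + 3 := by
    have h3 : (m * (k + 1 + lam) + 2) / (P : ℝ) = m * (((k : ℝ) + 1 + lam) / P) + 2 / P := by
      rw [add_div, mul_div_assoc]
    rw [h3] at hcR
    have h4 := mul_le_mul_of_nonneg_left hratio (Nat.cast_nonneg m : (0 : ℝ) ≤ m)
    linarith
  -- conclusion
  have hG3' : (2 : ℝ) ^ (2 * m) ≤ 2 ^ (c + 1) * Nat.card G.edgeSet := by exact_mod_cast hG3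
  have h6 : (2 : ℝ) ^ ((2 * m : ℕ) : ℝ) / (2 : ℝ) ^ (((c + 1 : ℕ)) : ℝ) ≤ Nat.card G.edgeSet := by
    rw [div_le_iff₀ (by positivity), Real.rpow_natCast, Real.rpow_natCast]
    linarith
  refine le_trans ?_ h6
  rw [← Real.rpow_sub (by norm_num)]
  push_cast
  rw [← Real.rpow_natCast 2 (m + 1), ← Real.rpow_mul (by norm_num)]
  apply Real.rpow_le_rpow_of_exponent_le (by norm_num)
  push_cast
  have hmε : 12 ≤ ε * m := by
    rw [div_lt_iff₀ hε] at hm₁
    have := mul_le_mul_of_nonneg_right hmR hε.le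
    linarith
  have h7 : 0 ≤ 1 / lam := by positivity
  have h8 : (l : ℝ) + 1 = lam := rfl
  have h9 : ((m : ℝ) + 1) * (2 - 1 / lam - ε) = m * (2 - 1 / lam) - ε * m + 2 - 1 / lam - ε := by ring
  have h10 : (m : ℝ) * (1 / lam + ε / 2) = m * (1 / lam) + ε * m / 2 := by ring
  rw [h10] at hcfin
  have h11 : (m : ℝ) * (2 - 1 / lam) = 2 * m - m * (1 / lam) := by ring
  rw [← h8] at h9 h11 hcfin h7
  rw [h9, h11]
  linarith

end Pool.Agent.W5h1.SL
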